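import Pool.Agent.H7.GEN.Dm
import Pool.Agent.H24.GN.L12

/-!
# The dyadic Markov lemma for records with few bits per step

Any directions, no nestedness: `R (p + d)` has few bits given `R p` and the exact variable. All
directions at one scale and one place.
-/

set_option autoImplicit false

namespace Pool.GSD

open Finset Real
open Pool.Agent.H49.Ent Pool.Agent.H32.Dense Pool.STK

/-- **The dyadic Markov lemma, few bits per step.** -/
theorem dm_few (dirs : Finset (ℤ × ℤ)) (W m₁ : ℕ) (C₁ ε : ℝ) (hε : 0 < ε) :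
    ∃ m₂ M : ℕ, ∀ (Ω Γ Τ : Type) [Fintype Ω] (q : Ω → ℝ) (T : Ω → Τ)
      (R : ℤ × ℤ → Ω → Γ) (z : ℕ), (∀ ω, 0 ≤ q ω) →
      (∀ d ∈ dirs, ∀ p : ℤ × ℤ, 0 ≤ p.1 → p.1 ≤ M → 0 ≤ p.2 → p.2 ≤ M → 0 ≤ p.1 + d.1 →
        p.1 + d.1 ≤ M → 0 ≤ p.2 + d.2 → p.2 + d.2 ≤ M →
        CH q (R (p + d)) (fun ω => (R p ω, T ω)) ≤ C₁ * z) →
      ∃ l i j : ℕ, m₁ ≤ l ∧ l < m₁ + m₂ ∧ W * 2 ^ l ≤ i ∧ i + W * 2 ^ l ≤ M ∧ W * 2 ^ l ≤ j ∧
        j + W * 2 ^ l ≤ M ∧ ∀ d ∈ dirs, Pool.DM.mi q T R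
          (((i : ℤ), (j : ℤ)) - 2 ^ l • d) d (2 ^ l) ≤ 2 ^ l * (ε * z) := by
  classical
  obtain ⟨K, hK⟩ : ∃ K : ℕ, ∀ d ∈ dirs, -(K : ℤ) ≤ d.1 ∧ d.1 ≤ K ∧ -(K : ℤ) ≤ d.2 ∧ d.2 ≤ K := by
    refine ⟨∑ d ∈ dirs, (d.1.natAbs + d.2.natAbs), fun d hd' => ?_⟩
    have h1 := single_le_sum (f := fun d : ℤ × ℤ => d.1.natAbs + d.2.natAbs)
      (fun _ _ => Nat.zero_le _) hd'
    omega
  obtain ⟨m₂, hm₂⟩ := exists_nat_ge (4 * dirs.card * |C₁| / ε)
  obtain ⟨m, hm⟩ : ∃ m, m = m₂ + 1 := ⟨_, rfl⟩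
  obtain ⟨N, hN⟩ : ∃ N : ℕ, N = 2 ^ (m₁ + m) := ⟨_, rfl⟩
  obtain ⟨S, hS⟩ : ∃ S : ℕ, S = 2 * (N * K) + W * N := ⟨_, rfl⟩
  obtain ⟨E, hE⟩ : ∃ E : ℕ, E = 6 * (N * K) := ⟨_, rfl⟩
  obtain ⟨M, hM⟩ : ∃ M : ℕ, M = S + E + 2 * (N * K) + K + W * N := ⟨_, rfl⟩
  refine ⟨m, M, ?_⟩
  intro Ω Γ Τ _ q T R z hq hst
  have hC : |C₁| * z ≥ C₁ * z := mul_le_mul_of_nonneg_right (le_abs_self _) (Nat.cast_nonneg z)
  set Q' : Finset (ℤ × ℤ) := Icc (S : ℤ) (S + E) ×ˢ Icc (S : ℤ) (S + E) with hQ'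
  set Q : Finset (ℤ × ℤ) := Icc (S - N * K : ℤ) (S + E + N * K) ×ˢ
    Icc (S - N * K : ℤ) (S + E + N * K) with hQ
  have hne : Q'.Nonempty := ⟨((S : ℤ), (S : ℤ)), by
    rw [hQ', mem_product, mem_Icc]
    exact ⟨⟨le_rfl, by omega⟩, ⟨le_rfl, by omega⟩⟩⟩
  have hcard : (Q.card : ℝ) ≤ 2 * Q'.card := by
    have e1 : Q.card = (E + 2 * (N * K) + 1) * (E + 2 * (N * K) + 1) := by
      rw [hQ, card_product, Int.card_Icc]
      have : (S + E + N * K + 1 - (S - N * K : ℤ)).toNat = E + 2 * (N * K) + 1 := by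
        have e : (S + E + N * K + 1 - (S - N * K : ℤ)) = ((E + 2 * (N * K) + 1 : ℕ) : ℤ) := by
          push_cast
          ring
        rw [e, Int.toNat_natCast]
      rw [this]
    have e2 : Q'.card = (E + 1) * (E + 1) := by
      rw [hQ', card_product, Int.card_Icc]
      have : (S + E + 1 - (S : ℤ)).toNat = E + 1 := by
        have e : (S + E + 1 - (S : ℤ)) = ((E + 1 : ℕ) : ℤ) := by
          push_cast
          ring
        rw [e, Int.toNat_natCast]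
      rw [this]
    rw [e1, e2, hE]
    push_cast
    nlinarith [Nat.cast_nonneg (α := ℝ) (N * K), mul_nonneg (Nat.cast_nonneg (α := ℝ) N)
      (Nat.cast_nonneg (α := ℝ) K)]
  have hNk : ∀ k : ℕ, k ≤ N → k * K ≤ N * K := fun k hk => Nat.mul_le_mul_right _ hk
  -- the coordinates of the points of a segment
  have hseg : ∀ d ∈ dirs, ∀ k : ℕ, k ≤ N → -((N * K : ℕ) : ℤ) ≤ (k • d).1 ∧
      (k • d).1 ≤ ((N * K : ℕ) : ℤ) ∧ -((N * K : ℕ) : ℤ) ≤ (k • d).2 ∧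
      (k • d).2 ≤ ((N * K : ℕ) : ℤ) := by
    intro d hd' k hk
    obtain ⟨a1, a2, a3, a4⟩ := hK d hd'
    have hk0 : (0 : ℤ) ≤ k := Int.natCast_nonneg k
    have hkN : ((k * K : ℕ) : ℤ) ≤ ((N * K : ℕ) : ℤ) := by exact_mod_cast hNk k hk
    rw [Prod.smul_fst, Prod.smul_snd, nsmul_eq_mul, nsmul_eq_mul]
    push_cast at hkN ⊢
    refine ⟨?_, ?_, ?_, ?_⟩
    · nlinarith [mul_le_mul_of_nonneg_left a1 hk0]
    · nlinarith [mul_le_mul_of_nonneg_left a2 hk0]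
    · nlinarith [mul_le_mul_of_nonneg_left a3 hk0]
    · nlinarith [mul_le_mul_of_nonneg_left a4 hk0]
  obtain ⟨l, hl1, hl2, b, hb, hb2⟩ := Pool.DM.dm (T := T) (R := R) hq dirs m₁ m
    (by omega) Q Q' hne (c := 2) (a := |C₁| * z) hcard (by positivity)
    (by
      intro d hd' b hb k hk
      rw [← hN] at hk
      obtain ⟨s1, s2, s3, s4⟩ := hseg d hd' k hk
      rw [hQ', mem_product, mem_Icc, mem_Icc] at hb
      rw [hQ, mem_product, mem_Icc, mem_Icc, Prod.fst_sub, Prod.snd_sub]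
      push_cast at s1 s2 s3 s4
      refine ⟨⟨?_, ?_⟩, ?_, ?_⟩ <;> linarith [hb.1.1, hb.1.2, hb.2.1, hb.2.2])
    (by
      intro d hd' o ho k hk
      rw [← hN] at hk
      obtain ⟨s1, s2, s3, s4⟩ := hseg d hd' k hk.le
      obtain ⟨a1, a2, a3, a4⟩ := hK d hd'
      rw [hQ, mem_product, mem_Icc, mem_Icc] at ho
      push_cast at s1 s2 s3 s4
      have hS' : (S : ℤ) = 2 * (N * K) + W * N := by
        rw [hS]
        push_cast
        ring
      have hM' : (M : ℤ) = S + E + 2 * (N * K) + K + W * N := by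
        rw [hM]
        push_cast
        ring
      have hWN : (0 : ℤ) ≤ W * N := by positivity
      have hNK : (0 : ℤ) ≤ N * K := by positivity
      have hK0 : (0 : ℤ) ≤ K := Int.natCast_nonneg K
      -- one more step of the segment
      obtain ⟨t1, t2, t3, t4⟩ := hseg d hd' (k + 1) hk
      rw [succ_nsmul] at t1 t2 t3 t4
      rw [Prod.fst_add] at t1 t2
      rw [Prod.snd_add] at t3 t4
      push_cast at t1 t2 t3 t4
      refine (hst d hd' (o + k • d) ?_ ?_ ?_ ?_ ?_ ?_ ?_ ?_).trans hC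
      · rw [Prod.fst_add]
        linarith [ho.1.1]
      · rw [Prod.fst_add]
        linarith [ho.1.2]
      · rw [Prod.snd_add]
        linarith [ho.2.1]
      · rw [Prod.snd_add]
        linarith [ho.2.2]
      · rw [Prod.fst_add]
        linarith [ho.1.1]
      · rw [Prod.fst_add]
        linarith [ho.1.2]
      · rw [Prod.snd_add]
        linarith [ho.2.1]
      · rw [Prod.snd_add]
        linarith [ho.2.2])
  have hb' := hb
  rw [hQ', mem_product, mem_Icc, mem_Icc] at hb'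
  have hl3 : 2 ^ l ≤ N := by
    rw [hN]
    exact Nat.pow_le_pow_right (by norm_num) hl2.le
  have hW : W * 2 ^ l ≤ W * N := Nat.mul_le_mul_left _ hl3
  have hS1 : W * N ≤ S := by rw [hS]; exact Nat.le_add_left _ _
  have hb1 : (b.1.toNat : ℤ) = b.1 := Int.toNat_of_nonneg (by
    have : (0 : ℤ) ≤ S := Int.natCast_nonneg S
    linarith [hb'.1.1])
  have hb3 : (b.2.toNat : ℤ) = b.2 := Int.toNat_of_nonneg (by
    have : (0 : ℤ) ≤ S := Int.natCast_nonneg S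
    linarith [hb'.2.1])
  have g1 : S ≤ b.1.toNat := by
    have := hb'.1.1
    rw [← hb1] at this
    exact_mod_cast this
  have g2 : b.1.toNat ≤ S + E := by
    have := hb'.1.2
    rw [← hb1] at this
    exact_mod_cast this
  have g3 : S ≤ b.2.toNat := by
    have := hb'.2.1
    rw [← hb3] at this
    exact_mod_cast this
  have g4 : b.2.toNat ≤ S + E := by
    have := hb'.2.2
    rw [← hb3] at this
    exact_mod_cast this
  refine ⟨l, b.1.toNat, b.2.toNat, hl1, hl2, by omega, by omega, by omega, by omega, ?_⟩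
  intro d hd'
  have h1 := hb2 d hd'
  have e1 : ((b.1.toNat : ℤ), (b.2.toNat : ℤ)) = b := by
    rw [hb1, hb3]
  rw [e1]
  refine h1.trans (mul_le_mul_of_nonneg_left ?_ (by positivity))
  have hm0 : (0 : ℝ) < m := by
    have : 0 < m := by omega
    exact_mod_cast this
  have hm3 : 4 * dirs.card * |C₁| ≤ ε * m := by
    rw [div_le_iff₀ hε] at hm₂
    have : (m₂ : ℝ) ≤ m := by
      rw [hm]
      push_cast
      linarith
    nlinarith
  rw [div_le_iff₀ hm0]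
  have hz : (0 : ℝ) ≤ z := Nat.cast_nonneg z
  nlinarith [mul_le_mul_of_nonneg_right hm3 hz]

/-- From the two segments to functions of them. -/
theorem mi_sg {Ω Γ Τ S S' : Type} [Fintype Ω] {q : Ω → ℝ} (hq : ∀ ω, 0 ≤ q ω) (T : Ω → Τ)
    (R : ℤ × ℤ → Ω → Γ) (b d : ℤ × ℤ) (r : ℕ) (x : Ω → S) (y : Ω → S')
    (hx : Det q (Pool.DM.sg R b d r) x) (hy : Det q (Pool.DM.sg R (b - r • d) d r) y) :
    Pool.LIVE20.mi q x y (fun ω => (R b ω, T ω)) ≤ Pool.DM.mi q T R (b - r • d) d r := by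
  have e0 : b - r • d + r • d = b := sub_add_cancel _ _
  unfold Pool.DM.mi
  rw [e0]
  have h1 : CH q (Pool.DM.sg R b d r) (fun ω => (Pool.DM.sg R (b - r • d) d r ω, T ω)) =
      CH q (Pool.DM.sg R b d r) (fun ω => (Pool.DM.sg R (b - r • d) d r ω, (R b ω, T ω))) := by
    refine CH_congr hq (fun _ _ _ _ h => (Prod.ext_iff.mp h).1)
      (fun _ _ _ _ h => (Prod.ext_iff.mp h).1) ?_ ?_
    · intro ω ω' p1 p2 h
      have h2 := Prod.ext_iff.mp h
      have h3 := Pool.DM.sg_pt (R := R) (b - r • d) d (r := r) (t := r) le_rfl q ω ω' p1 p2 h2.1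
      rw [e0] at h3
      exact Prod.ext h2.1 (Prod.ext h3 h2.2)
    · intro ω ω' _ _ h
      have h2 := Prod.ext_iff.mp h
      exact Prod.ext h2.1 (Prod.ext_iff.mp h2.2).2
  rw [h1]
  exact Pool.L12.mi_mono hq (a := Pool.DM.sg R b d r) (k := Pool.DM.sg R (b - r • d) d r)
    (b := fun ω => (R b ω, T ω)) (fun ω ω' p1 p2 h => hx ω ω' p1 p2 (Prod.ext_iff.mp h).1)
    (fun ω ω' p1 p2 h => hy ω ω' p1 p2 (Prod.ext_iff.mp h).1)
    (fun _ _ _ _ h => h) (fun _ _ _ _ h => h)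

end Pool.GSD
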