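import Pool.Agent.H25.ADJ.Adj
import Pool.Agent.H55.GEN.Lab

/-!
# Neighbouring labels agree for all times of the radius

`ta`: the labels at two neighbouring places agree on the natural box of the finer place, the whole
radius of the time included, off an event of small probability. Uses uniform time.
-/

set_option autoImplicit false

namespace Pool.GSD.Row

open Finset Real MvPolynomial
open Pool.Agent.H49.Ent Pool.Agent.H32.Dense Pool.STK Pool.STAT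
open Pool.BFL (Pb)
open Pool.STAT.Glu

/-- The times of the radius. -/
def Rad (D : NDat2) (a : ℕ) (ω : D.Ω) : ℝ → Prop := fun t => |t - D.X ω 0| ≤ 1 / 2 ^ a

/-- The labels at `(i, j)` and at `(i', j')` agree on the natural box at `(i, j)`, the radius of
the time included. -/
def TA (D : NDat2) (n z a i j i' j' B : ℕ) (ω : D.Ω) : Prop :=
  Nr B z (Rad D a ω) (D.g i j) (D.g i' j') (D.Ψ i j ω) (D.Ψ i' j' ω) (n + 1)

theorem exp_two {C : ℝ} {c z : ℕ} (h : 2 * C ≤ c) : Real.exp (C * z) ≤ 2 ^ (c * z) := by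
  have h1 : Real.exp (C * z) ≤ Real.exp (c / 2 * z) :=
    Real.exp_le_exp.2 (mul_le_mul_of_nonneg_right (by linarith) (Nat.cast_nonneg z))
  have h2 : Real.exp ((c : ℝ) / 2 * z) = Real.exp (1 / 2) ^ (c * z) := by
    rw [← Real.exp_nat_mul]
    congr 1
    push_cast
    ring
  have h3 : Real.exp (1 / 2) ≤ 2 := by
    have e1 : Real.exp (1 / 2) * Real.exp (1 / 2) = Real.exp 1 := by
      rw [← Real.exp_add]
      norm_num
    have e2 := Real.exp_one_lt_d9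
    have e3 : 0 < Real.exp (1 / 2) := Real.exp_pos _
    nlinarith
  rw [h2] at h1
  exact h1.trans (pow_le_pow_left₀ (Real.exp_pos _).le h3 _)

/-- Back from the line sides to the visible sides. -/
theorem back (n K B : ℕ) : ∃ B' : ℕ, ∀ (C : ℝ) (z : ℕ) (P : ℝ → Prop) (g g' : ℕ → ℕ)
    (Ψ Φ Ψ' Φ' : ℕ → PN), 1 ≤ C → DilP n K C → 2 * C ≤ 2 ^ z → Tr K Ψ → Tr K Φ → Tr K Ψ' →
    Tr K Φ' → (∀ l, 1 ≤ l → l < n → g' l ≤ g l + B * z) → Nr 0 z P g g Ψ Φ n →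
    Nr 0 z P g' g' Ψ' Φ' n → Nr B z P g g' Φ Φ' n → Nr B' z P g g' Ψ Ψ' n := by
  set D := K * (K + 1) ^ (n + 1) with hD
  obtain ⟨x₁, hx₁⟩ : ∃ x, x = (D + 1) * 0 + 1 + 0 + 1 := ⟨_, rfl⟩
  obtain ⟨x₂, hx₂⟩ : ∃ x, x = (D + 1) * x₁ + 1 + B + 1 := ⟨_, rfl⟩
  obtain ⟨x₃, hx₃⟩ : ∃ x, x = upr D n x₂ := ⟨_, rfl⟩
  obtain ⟨Y, hY⟩ : ∃ Y, Y = D * x₃ + 1 + B + 2 := ⟨_, rfl⟩
  refine ⟨Y, ?_⟩
  intro C z P g g' Ψ Φ Ψ' Φ' hC hd hz a1 a2 a3 a4 hs n1 n2 n3 l l1 l2 b hb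
  have m2 : ∀ l', 1 ≤ l' → l' < n → ∀ b, Bt 1 P g' Ψ' l' b →
      |eval b (Ψ' l') - eval b (Φ' l')| ≤ 1 / 2 ^ g' l' := by
    intro l' h1 h2 b hb
    have := n2 l' h1 h2 b hb
    rwa [abs_sub_comm, Nat.zero_mul, pow_zero] at this
  have b1 : Bt (2 ^ (x₁ * z)) P g Φ l b := by
    rw [hx₁]
    exact incl (x := 0) hC hd hz a1.tri a2.tri a1.deg a2.deg (fun l _ _ => Nat.le_add_right _ _)
      n1 l2.le (by rw [Nat.zero_mul, pow_zero]; exact hb)
  have b2 : Bt (2 ^ (x₂ * z)) P g' Φ' l b := by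
    rw [hx₂]
    exact incl hC hd hz a2.tri a4.tri a2.deg a4.deg hs n3 l2.le b1
  have b3 : Bt (2 ^ (x₃ * z)) P g' Ψ' l b := by
    have := incl' hC hd hz a3.tri a4.tri a3.deg a4.deg m2 (m := l) l2.le b2 l le_rfl
    refine this.mono (pow_le_pow_right₀ (by norm_num) (Nat.mul_le_mul_right _ ?_)) (fun _ h => h)
      le_rfl
    rw [hx₃]
    exact upr_mono l2.le
  have hx12 : x₁ ≤ x₂ := by
    rw [hx₂]
    have : x₁ ≤ (D + 1) * x₁ := Nat.le_mul_of_pos_left _ (Nat.succ_pos _)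
    omega
  have hx23 : x₂ ≤ x₃ := by
    rw [hx₃]
    exact le_upr n x₂
  have c1 := n1 l l1 l2 b hb
  have c2 := dil_sub (x := x₁) (y := D * x₃ + 1) hd hz a2.tri a2.deg l2.le (a4.tri l) (a2.tri l)
    (a4.deg l) (a2.deg l) (by positivity : (0 : ℝ) ≤ 2 ^ (B * z) / 2 ^ g' l)
    (Nat.succ_le_succ (Nat.mul_le_mul_left D (hx12.trans hx23))) (n3 l l1 l2) b1
  have c3 := dil_sub (x := x₃) (y := D * x₃ + 1) hd hz a3.tri a3.deg l2.le (a4.tri l) (a3.tri l)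
    (a4.deg l) (a3.deg l) (by positivity : (0 : ℝ) ≤ 2 ^ (0 * z) / 2 ^ g' l) le_rfl
    (n2 l l1 l2) b3
  have hg : (1 : ℝ) / 2 ^ g l ≤ 2 ^ (B * z) / 2 ^ g' l := by
    rw [div_le_div_iff₀ (by positivity) (by positivity), one_mul, ← pow_add]
    exact pow_le_pow_right₀ (by norm_num) (by have := hs l l1 l2; omega)
  rw [Nat.zero_mul, pow_zero] at c1 c3
  have hg' : (1 : ℝ) / 2 ^ g' l ≤ 2 ^ (B * z) / 2 ^ g' l :=
    div_le_div_of_nonneg_right (one_le_pow₀ (by norm_num)) (by positivity)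
  have hp : (1 : ℝ) ≤ 2 ^ ((D * x₃ + 1) * z) := one_le_pow₀ (by norm_num)
  have hq0 : (0 : ℝ) ≤ 2 ^ (B * z) / 2 ^ g' l := by positivity
  have d1 : |eval b (Φ l) - eval b (Ψ l)| ≤
      2 ^ ((D * x₃ + 1) * z) * (2 ^ (B * z) / 2 ^ g' l) :=
    (c1.trans hg).trans (le_mul_of_one_le_left hq0 hp)
  have d3 := c3.trans (mul_le_mul_of_nonneg_left hg' (by positivity))
  have e1 : eval b (Ψ' l) - eval b (Ψ l) = (eval b (Φ' l) - eval b (Φ l)) +
      (eval b (Φ l) - eval b (Ψ l)) - (eval b (Φ' l) - eval b (Ψ' l)) := by ring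
  rw [e1]
  refine (abs_sub _ _).trans ((add_le_add ((abs_add_le _ _).trans (add_le_add c2 d1)) d3).trans ?_)
  have e2 : (2 : ℝ) ^ (Y * z) = 2 ^ z * 2 ^ z * (2 ^ ((D * x₃ + 1) * z) * 2 ^ (B * z)) := by
    rw [hY, ← pow_add, ← pow_add, ← pow_add]
    congr 1
    ring
  rw [e2]
  have e4 : (2 : ℝ) ≤ 2 ^ z := by linarith
  have e5 : (3 : ℝ) ≤ 2 ^ z * 2 ^ z := by nlinarith
  have e6 : (2 : ℝ) ^ ((D * x₃ + 1) * z) * (2 ^ (B * z) / 2 ^ g' l) +
      2 ^ ((D * x₃ + 1) * z) * (2 ^ (B * z) / 2 ^ g' l) +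
      2 ^ ((D * x₃ + 1) * z) * (2 ^ (B * z) / 2 ^ g' l) =
      3 * (2 ^ ((D * x₃ + 1) * z) * 2 ^ (B * z)) / 2 ^ g' l := by ring
  rw [e6]
  exact div_le_div_of_nonneg_right (mul_le_mul_of_nonneg_right e5 (by positivity)) (by positivity)

/-- **Neighbouring labels**, all times of the radius. -/
theorem ta (n K N : ℕ) (lam gam : ℕ → ℝ) (C₁ : ℝ) (hn : 1 ≤ n) (hC₁ : 1 ≤ C₁)
    (hlam : ∀ l, 1 ≤ lam l) (hgam : ∀ l, 0 ≤ gam l) : ∃ B : ℕ,
    ∀ η : ℝ, 0 < η → ∃ (κ₀ : ℝ) (z₀ : ℕ), 0 < κ₀ ∧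
    ∀ (J a₀ w₀ z M : ℕ) (κ κ' : ℝ) (D : NDat2) (q : D.Ω → ℝ), z₀ ≤ z → κ ≤ κ₀ → κ' ≤ κ₀ →
      D.Ok2 n K J a₀ w₀ z M lam gam κ C₁ q → D.TmU J w₀ z κ' q →
    ∀ i j i' j' : ℕ, i' ≤ i → i ≤ i' + N → j ≤ j' + N → j' ≤ j + N → i + N + 1 ≤ M → j ≤ M →
      j' ≤ M → Pb q (fun ω => ¬ TA D n z (a₀ + i * z) i j i' j' B ω) ≤ η := by
  classical
  obtain ⟨C, hC, hadj⟩ := Pool.ADJ.adj n K (2 * N) lam gam C₁ 0 hC₁ le_rfl hlam hgam
  obtain ⟨c, hc⟩ := exists_nat_ge (2 * C)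
  obtain ⟨L, hL⟩ : ∃ L : ℝ, L = ∑ l ∈ range (n + 1), (lam l + gam l) := ⟨_, rfl⟩
  have hLl : ∀ l ≤ n, lam l + gam l ≤ L := fun l hl => by
    rw [hL]
    exact Finset.single_le_sum (f := fun l => lam l + gam l)
      (fun i _ => by linarith [hlam i, hgam i]) (mem_range.2 (by omega))
  have hL0 : 0 ≤ L := by
    have := hLl 0 (Nat.zero_le _)
    linarith [hlam 0, hgam 0]
  obtain ⟨S, hS⟩ := exists_nat_ge (L * N + 2 * C₁)
  obtain ⟨B₁, hB₁⟩ := conv (n + 1) K (c + S)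
  obtain ⟨B₂, hB₂⟩ := back (n + 1) K (B₁ + 3 + S)
  obtain ⟨C', hC', hd'⟩ := dilB (n + 1) K
  refine ⟨B₂, fun η hη => ?_⟩
  obtain ⟨η₁, hη₁⟩ : ∃ η₁ : ℝ, η₁ = min η (1 / 2) / 2 := ⟨_, rfl⟩
  have hη0 : 0 < η₁ := by rw [hη₁]; exact half_pos (lt_min hη (by norm_num))
  have hη2 : 2 * η₁ ≤ η := by
    rw [hη₁]
    have := min_le_left η (1 / 2)
    linarith
  have hη4 : η₁ ≤ 1 / 4 := by
    rw [hη₁]
    have := min_le_right η (1 / 2)
    linarith
  obtain ⟨κ₁, z₁, hκ₁, h1⟩ := hadj η₁ hη0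
  obtain ⟨κ₂, z₂, hκ₂, h2⟩ := rb_cell n K (Fin n) η₁ hn hη0
  obtain ⟨z₃, hz₃⟩ := exists_nat_ge (2 * C')
  refine ⟨min κ₁ κ₂, max (max z₁ z₂) z₃, lt_min hκ₁ hκ₂, ?_⟩
  intro J a₀ w₀ z M κ κ' D q hz hκ hκ' hO hT i j i' j' hi hi2 hj hj2 hiM hjM hjM'
  have hz1 : z₁ ≤ z := ((le_max_left _ _).trans (le_max_left _ _)).trans hz
  have hz2 : z₂ ≤ z := ((le_max_right _ _).trans (le_max_left _ _)).trans hz
  have hz3 : (z₃ : ℝ) ≤ z := by exact_mod_cast (le_max_right _ _).trans hz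
  have hzp : (z : ℝ) ≤ 2 ^ z := by exact_mod_cast Nat.lt_two_pow_self.le
  have hCz : 2 * C' ≤ 2 ^ z := by linarith
  have hz0 : (0 : ℝ) ≤ z := Nat.cast_nonneg z
  have hq := hO.isLaw
  have hthin := hO.thin
  have htop := hO.top
  have hM1 : i * z + z ≤ (M + 1) * z := by
    have := Nat.mul_le_mul_right z (show i ≤ M by omega)
    rw [Nat.add_mul, Nat.one_mul]
    omega
  have hM2 : j * z ≤ M * z := Nat.mul_le_mul_right z hjM
  have hM3 : j' * z ≤ M * z := Nat.mul_le_mul_right z hjM'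
  have hMM : (M + 1) * z = M * z + z := by ring
  -- comparison of levels
  have cmp : ∀ i j i' j' : ℕ, i ≤ i' + N → j ≤ j' + N → i ≤ M → i' ≤ M → j ≤ M → j' ≤ M →
      ∀ l, 1 ≤ l → l ≤ n → D.g i j l ≤ D.g i' j' l + S * z := by
    intro i j i' j' e1 e2 e3 e4 e5 e6 l l1 l2
    have h1 := abs_le.1 (hO.hom i e3 j e5 l l1 l2)
    have h2 := abs_le.1 (hO.hom i' e4 j' e6 l l1 l2)
    have hl1 := hlam l
    have hl2 := hgam l
    have f1 : (i : ℝ) ≤ i' + N := by exact_mod_cast e1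
    have f2 : (j : ℝ) ≤ j' + N := by exact_mod_cast e2
    have f3 : lam l * i ≤ lam l * (i' + N) := mul_le_mul_of_nonneg_left f1 (by linarith)
    have f4 : gam l * j ≤ gam l * (j' + N) := mul_le_mul_of_nonneg_left f2 hl2
    have f5 : (lam l + gam l) * N ≤ L * N := mul_le_mul_of_nonneg_right (hLl l l2)
      (Nat.cast_nonneg _)
    have f6 : (lam l * i + gam l * j) * z ≤ (lam l * i' + gam l * j' + L * N) * z :=
      mul_le_mul_of_nonneg_right (by linarith) hz0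
    have f7 : (L * N + 2 * C₁) * z ≤ S * z := mul_le_mul_of_nonneg_right hS hz0
    have : (D.g i j l : ℝ) ≤ ((D.g i' j' l + S * z : ℕ) : ℝ) := by
      push_cast
      linarith [h1.2, h2.1]
    exact_mod_cast this
  have g1 := cmp i j i' j' hi2 hj (by omega) (by omega) hjM hjM'
  have g2 := cmp i' j' i j (by omega) hj2 (by omega) (by omega) hjM' hjM
  obtain ⟨Ev, hEv⟩ : ∃ Ev : D.Ω → Prop, Ev = fun ω => ∀ l, 1 ≤ l → l ≤ n → ∀ b : ℕ → ℝ,
      b 0 = D.X ω 0 → (∀ k, 1 ≤ k → k < l →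
        |b k - eval b (D.Ψ i j ω k)| ≤ Real.exp (0 * z) / 2 ^ D.g i j k) →
      |eval b (D.Ψ i j ω l) - eval b (D.Ψ i' j' ω l)| ≤
        Real.exp (C * z) / 2 ^ min (D.g i j l) (D.g i' j' l) := ⟨_, rfl⟩
  have hP1 : Pb q (fun ω => ¬ Ev ω) ≤ η₁ := by
    rw [hEv]
    exact h1 J a₀ w₀ z M κ D q hz1 (hκ.trans (min_le_left _ _)) hO i j i' j'
      (max (i + (max j j' - j)) (i' + (max j j' - j'))) (max j j') (le_max_left _ _)
      (le_max_right _ _) (le_max_left _ _) (le_max_right _ _) (by omega) (by omega) (by omega)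
      (by omega)
  have hP2 : 1 - η₁ ≤ Pb q Ev := by
    have e1 : Pb q Ev + Pb q (fun ω => ¬ Ev ω) = 1 := by
      unfold Pool.BFL.Pb
      rw [← Finset.sum_add_distrib, ← hq.sum_one]
      refine Finset.sum_congr rfl fun ω _ => ?_
      by_cases h : Ev ω
      · rw [if_pos h, if_neg (not_not.2 h), add_zero]
      · rw [if_neg h, if_pos h, zero_add]
    linarith
  have tr : ∀ i j ω, Tr K (D.Ψ i j ω) := fun i j ω => ⟨hO.G_tri _ _ _, hO.G_deg _ _ _⟩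
  have tr' : ∀ i j ω, Tr K (D.Φ i j ω) := fun i j ω => ⟨hO.P_tri _ _ _, hO.P_deg _ _ _⟩
  -- the line sides at the exact time
  have nex : ∀ ω, 0 < q ω → Ev ω → Nr B₁ z (Et (D.X ω 0)) (D.g i j) (D.g i' j') (D.Φ i j ω)
      (D.Φ i' j' ω) (n + 1) := by
    intro ω hω hev
    have z0 : |D.X ω 0 - D.X ω 0| = 0 := by rw [sub_self, abs_zero]
    refine hB₁ C' z (Et (D.X ω 0)) _ _ (D.Ψ i j ω) (D.Φ i j ω) (D.Ψ i' j' ω) (D.Φ i' j' ω) hC'
      hd' hCz (tr _ _ _) (tr' _ _ _) (tr _ _ _) (tr' _ _ _) (fun l l1 l2 => ?_)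
      (nr_agr hO (by omega) hjM hω (by rw [z0]; positivity))
      (nr_agr hO (by omega) hjM' hω (by rw [z0]; positivity)) ?_
    · have e1 := g2 l l1 (by omega)
      have e2 : S * z ≤ (c + S) * z := Nat.mul_le_mul_right z (Nat.le_add_left _ _)
      omega
    · intro l l1 l2 b hb
      rw [hEv] at hev
      have h3 := hev l l1 (by omega) b hb.1 (fun k k1 k2 => by
        rw [zero_mul, Real.exp_zero]
        exact hb.2 k k1 k2)
      rw [abs_sub_comm]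
      refine h3.trans ?_
      rw [div_le_div_iff₀ (by positivity) (by positivity)]
      have e1 := exp_two (z := z) hc
      have e2 : (2 : ℝ) ^ D.g i' j' l ≤ 2 ^ (S * z) * 2 ^ min (D.g i j l) (D.g i' j' l) := by
        rw [← pow_add]
        refine pow_le_pow_right₀ one_le_two ?_
        have := g2 l l1 (by omega)
        omega
      calc Real.exp (C * z) * 2 ^ D.g i' j' l ≤
            2 ^ (c * z) * (2 ^ (S * z) * 2 ^ min (D.g i j l) (D.g i' j' l)) :=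
            mul_le_mul e1 e2 (by positivity) (by positivity)
        _ = 2 ^ ((c + S) * z) * 2 ^ min (D.g i j l) (D.g i' j' l) := by
            rw [← mul_assoc, ← pow_add]
            congr 2
            ring
  -- all times
  obtain ⟨Bv, hb1, hb2, hb3⟩ := h2 n K J a₀ w₀ z M i lam gam κ κ' C₁ D q Ev (fun _ => D.g i j)
    (fun _ => D.Φ i j) (fun a ω => D.Φ i' j' ω (a + 1) - D.Φ i j ω (a + 1)) (fun a => a + 1)
    (fun a => 2 ^ (B₁ * z) / 2 ^ D.g i' j' (a + 1)) hz2 (hκ'.trans (min_le_right _ _)) (by omega)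
    hO hT (by linarith) (by
      intro _ ω ω' k1 k2 e
      have e1 := hO.c_wn i (by omega) j hjM ω ω' k1 k2 (wn_det (by omega) (by omega) ω ω' k1 k2 e)
      unfold NDat2.Φ
      rw [e1]) (by
      intro _ ω ω' k1 k2 e
      have e1 := hO.c_wn i (by omega) j hjM ω ω' k1 k2 (wn_det (by omega) (by omega) ω ω' k1 k2 e)
      have e2 := hO.c_wn i' (by omega) j' hjM' ω ω' k1 k2
        (wn_det (by omega) (by omega) ω ω' k1 k2 e)
      unfold NDat2.Φ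
      beta_reduce
      rw [e1, e2]) (fun _ ω _ => tr' _ _ ω)
    (fun _ ω _ => (totalDegree_sub _ _).trans (max_le ((tr' _ _ ω).deg _) ((tr' _ _ ω).deg _)))
    (fun _ ω _ => (vars_sub_subset _).trans (Finset.union_subset ((tr' _ _ ω).tri _)
      ((tr' _ _ ω).tri _)))
    (fun a => a.2) (fun _ => by positivity) (by
      intro a ω hω hev b hb
      have := nex ω hω hev (a + 1) (by omega) (by omega) b hb
      rw [map_sub]
      exact this)
  have hfin : ∀ ω, Bv ω → TA D n z (a₀ + i * z) i j i' j' B₂ ω := by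
    intro ω hω
    obtain ⟨hω0, hev⟩ := hb1 ω hω
    intro l l1 l2 b hb
    have ht : |b 0 - D.X ω 0| ≤ 1 / 2 ^ (a₀ + i * z) := hb.1
    have hii : i' * z ≤ i * z := Nat.mul_le_mul_right z hi
    have ht' : |b 0 - D.X ω 0| ≤ 1 / 2 ^ (a₀ + i' * z) :=
      ht.trans (one_div_le_one_div_of_le (by positivity)
        (pow_le_pow_right₀ (by norm_num) (by omega)))
    refine hB₂ C' z (Et (b 0)) _ _ (D.Ψ i j ω) (D.Φ i j ω) (D.Ψ i' j' ω) (D.Φ i' j' ω) hC'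
      hd' hCz (tr _ _ _) (tr' _ _ _) (tr _ _ _) (tr' _ _ _) (fun l l1 l2 => ?_)
      (nr_agr hO (by omega) hjM hω0 ht) (nr_agr hO (by omega) hjM' hω0 ht') ?_ l l1 l2 b
      ⟨rfl, hb.2⟩
    · have e1 := g2 l l1 (by omega)
      have e2 : S * z ≤ (B₁ + 3 + S) * z := Nat.mul_le_mul_right z (Nat.le_add_left _ _)
      omega
    · intro l l1 l2 b' hb'
      have h3 := hb3 ω hω (b 0) ht ⟨l - 1, by omega⟩ b' (by
        have e1 : l - 1 + 1 = l := by omega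
        simp only [e1]
        exact hb')
      have e1 : l - 1 + 1 = l := by omega
      simp only [e1] at h3
      rw [map_sub] at h3
      refine h3.trans ?_
      rw [← mul_div_assoc, ← pow_add]
      refine div_le_div_of_nonneg_right (pow_le_pow_right₀ (by norm_num) ?_) (by positivity)
      have : (B₁ + 3 + S) * z = 3 * z + B₁ * z + S * z := by ring
      omega
  have hP3 : 1 - η ≤ Pb q Bv := by linarith
  have hP4 : Pb q (fun ω => ¬ TA D n z (a₀ + i * z) i j i' j' B₂ ω) ≤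
      Pb q (fun ω => ¬ Bv ω) := by
    unfold Pool.BFL.Pb
    refine Finset.sum_le_sum fun ω _ => ?_
    by_cases h : Bv ω
    · rw [if_neg (not_not.2 (hfin ω h)), if_neg (not_not.2 h)]
    · rw [if_pos h]
      split_ifs
      · exact le_rfl
      · exact hq.nonneg ω
  have e1 : Pb q Bv + Pb q (fun ω => ¬ Bv ω) = 1 := by
    unfold Pool.BFL.Pb
    rw [← Finset.sum_add_distrib, ← hq.sum_one]
    refine Finset.sum_congr rfl fun ω _ => ?_
    by_cases h : Bv ω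
    · rw [if_pos h, if_neg (not_not.2 h), add_zero]
    · rw [if_neg h, if_pos h, zero_add]
  linarith

end Pool.GSD.Row
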