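import Pool.Agent.H24.GSD.Hul
import Pool.Agent.H24.GSD.TA

/-!
# The hull lemma for the labels of a cell

Two samples of a cell with the same exact time and the same labels at the places of `A`: on the good
event (neighbouring labels agree) the labels at a place of the convex hull of `A` agree, the radius
of the time included.
-/

set_option autoImplicit false

namespace Pool.GSD.Row

open Finset Real MvPolynomial
open Pool.Agent.H49.Ent Pool.Agent.H32.Dense Pool.STK Pool.STAT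
open Pool.BFL (Pb)
open Pool.STAT.Glu
open Pool.MIC.Frm Pool.FRM

/-- The good event: all neighbouring labels agree. -/
def GA (D : NDat2) (n z a₀ B N M : ℕ) (ω : D.Ω) : Prop :=
  ∀ i j i' j' : ℕ, i' ≤ i → i ≤ i' + N → j ≤ j' + N → j' ≤ j + N → i + N + 1 ≤ M → j ≤ M →
    j' ≤ M → TA D n z (a₀ + i * z) i j i' j' B ω

/-- The system with the exact time. -/
noncomputable def tS (x₀ : ℝ) (Φ : ℕ → PN) (l : ℕ) : PN := if l = 0 then C x₀ else Φ l

/-- The levels with the radius of the time. -/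
def tg (a : ℕ) (g : ℕ → ℕ) (l : ℕ) : ℕ := if l = 0 then a else g l

/-- The slopes with the time. -/
noncomputable def tl (x : ℝ) (lam : ℕ → ℝ) (l : ℕ) : ℝ := if l = 0 then x else lam l

theorem tS_zero (x₀ : ℝ) (Φ : ℕ → PN) : tS x₀ Φ 0 = C x₀ := if_pos rfl

theorem tS_pos (x₀ : ℝ) (Φ : ℕ → PN) {l : ℕ} (hl : 1 ≤ l) : tS x₀ Φ l = Φ l := if_neg (by omega)

theorem tg_zero (a : ℕ) (g : ℕ → ℕ) : tg a g 0 = a := if_pos rfl

theorem tg_pos (a : ℕ) (g : ℕ → ℕ) {l : ℕ} (hl : 1 ≤ l) : tg a g l = g l := if_neg (by omega)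

theorem tri_tS {Φ : ℕ → PN} (h : TriN Φ) (x₀ : ℝ) : TriN (tS x₀ Φ) := by
  intro l
  by_cases hl : l = 0
  · subst hl
    rw [tS_zero, vars_C]
    exact Finset.empty_subset _
  · rw [tS_pos x₀ Φ (by omega)]
    exact h l

theorem deg_tS {Φ : ℕ → PN} {K : ℕ} (h : ∀ l, (Φ l).totalDegree ≤ K) (x₀ : ℝ) (l : ℕ) :
    (tS x₀ Φ l).totalDegree ≤ K := by
  by_cases hl : l = 0
  · subst hl
    rw [tS_zero, totalDegree_C]
    exact Nat.zero_le _
  · rw [tS_pos x₀ Φ (by omega)]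
    exact h l

/-- The box of the system with the exact time. -/
theorem box_iff {D : NDat2} {i j a l : ℕ} {ω : D.Ω} {b : ℕ → ℝ} (hl : 1 ≤ l) :
    (∀ k < l, |nat (tg a (D.g i j)) (tS (D.X ω 0) (D.Ψ i j ω)) b k| ≤ 1) ↔
      D.NB i j a l ω b := by
  have key : ∀ (g : ℕ) (x : ℝ), |(2 : ℝ) ^ g * x| ≤ 1 ↔ |x| ≤ 1 / 2 ^ g := by
    intro g x
    rw [abs_mul, abs_of_pos (by positivity : (0 : ℝ) < 2 ^ g), le_div_iff₀ (by positivity),
      mul_comm]
  constructor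
  · intro h
    refine ⟨?_, fun k k1 k2 => ?_⟩
    · have h0 := h 0 (by omega)
      unfold nat at h0
      rw [tg_zero, tS_zero, eval_C, key] at h0
      exact h0
    · have h0 := h k k2
      unfold nat at h0
      rw [tg_pos a _ k1, tS_pos _ _ k1, key] at h0
      exact h0
  · intro h k hk
    unfold nat
    rcases Nat.eq_zero_or_pos k with rfl | k1
    · rw [tg_zero, tS_zero, eval_C, key]
      exact h.1
    · rw [tg_pos a _ k1, tS_pos _ _ k1, key]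
      exact h.2 k k1 hk

theorem bt_iff {D : NDat2} {i j a l : ℕ} {ω : D.Ω} {b : ℕ → ℝ} :
    Bt 1 (Rad D a ω) (D.g i j) (D.Ψ i j ω) l b ↔ D.NB i j a l ω b := Iff.rfl

section cell

variable {D : NDat2} {n K J a₀ w₀ z M : ℕ} {lam gam : ℕ → ℝ} {κ C₁ : ℝ} {q : D.Ω → ℝ}

/-- Levels of two neighbours. -/
theorem lev_near (hO : D.Ok2 n K J a₀ w₀ z M lam gam κ C₁ q) {L : ℝ}
    (hL : ∀ l ≤ n, lam l + gam l ≤ L) {N i j i' j' : ℕ} (hi : i ≤ i' + N) (hj : j ≤ j' + N)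
    (h1 : i ≤ M) (h2 : i' ≤ M) (h3 : j ≤ M) (h4 : j' ≤ M) {l : ℕ} (l1 : 1 ≤ l) (l2 : l ≤ n) :
    (D.g i j l : ℝ) ≤ D.g i' j' l + (L * N + 2 * C₁) * z := by
  have hz0 : (0 : ℝ) ≤ z := Nat.cast_nonneg z
  have e1 := abs_le.1 (hO.hom i h1 j h3 l l1 l2)
  have e2 := abs_le.1 (hO.hom i' h2 j' h4 l l1 l2)
  have hl1 := hO.lam_ge l
  have hl2 := hO.gam_ge l
  have f1 : (i : ℝ) ≤ i' + N := by exact_mod_cast hi
  have f2 : (j : ℝ) ≤ j' + N := by exact_mod_cast hj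
  have f3 : lam l * i ≤ lam l * (i' + N) := mul_le_mul_of_nonneg_left f1 (by linarith)
  have f4 : gam l * j ≤ gam l * (j' + N) := mul_le_mul_of_nonneg_left f2 hl2
  have f5 : (lam l + gam l) * N ≤ L * N := mul_le_mul_of_nonneg_right (hL l l2)
    (Nat.cast_nonneg _)
  have f6 : (lam l * i + gam l * j) * z ≤ (lam l * i' + gam l * j' + L * N) * z :=
    mul_le_mul_of_nonneg_right (by linarith) hz0
  linarith [e1.2, e2.1]

/-- **The grid of a good sample.** -/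
theorem grd (hO : D.Ok2 n K J a₀ w₀ z M lam gam κ C₁ q) (hC₁ : 0 ≤ C₁) {L : ℝ}
    (hL : ∀ l ≤ n, lam l + gam l ≤ L) (hL0 : 0 ≤ L) {B N M' : ℕ} (hN : 1 ≤ N)
    (hM : M' + N + 1 ≤ M) {ω : D.Ω} (hω : 0 < q ω) (hg : GA D n z a₀ B N M ω) :
    Grd n K M' z (tl 1 lam) (tl 0 gam) (B + L * N + 2 * C₁ + C₁)
      (fun i j => tS (D.X ω 0) (D.Ψ i j ω)) (fun i j => tg (a₀ + i * z) (D.g i j)) (D.X ω) := by
  have hz0 : (0 : ℝ) ≤ z := Nat.cast_nonneg z
  have hN0 : (0 : ℝ) ≤ N := Nat.cast_nonneg N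
  have hB0 : (0 : ℝ) ≤ B := Nat.cast_nonneg B
  have hLN : 0 ≤ L * N := by positivity
  have hadj : ∀ i j i' j' : ℕ, i' ≤ i → i ≤ i' + N → j ≤ j' + N → j' ≤ j + N → i ≤ M' → j ≤ M' →
      j' ≤ M' → ∀ l ≤ n, ∀ b : ℕ → ℝ,
      (∀ k < l, |nat (tg (a₀ + i * z) (D.g i j)) (tS (D.X ω 0) (D.Ψ i j ω)) b k| ≤ 1) →
      |eval b (tS (D.X ω 0) (D.Ψ i j ω) l) - eval b (tS (D.X ω 0) (D.Ψ i' j' ω) l)| ≤
        exp ((B + L * N + 2 * C₁ + C₁) * z) / 2 ^ tg (a₀ + i * z) (D.g i j) l := by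
    intro i j i' j' h1 h2 h3 h4 h5 h6 h7 l hl b hb
    rcases Nat.eq_zero_or_pos l with rfl | l1
    · rw [tS_zero, tS_zero, sub_self, abs_zero]
      positivity
    · rw [tS_pos _ _ l1, tS_pos _ _ l1, tg_pos _ _ l1]
      have e1 := hg i j i' j' h1 h2 h3 h4 (by omega) (by omega) (by omega) l l1 (by omega) b
        (bt_iff.2 ((box_iff l1).1 hb))
      rw [abs_sub_comm] at e1
      refine e1.trans ?_
      rw [div_le_div_iff₀ (by positivity) (by positivity)]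
      have e2 := lev_near hO hL (N := N) (i := i) (j := j) (i' := i') (j' := j') h2 h3 (by omega)
        (by omega) (by omega) (by omega) l1 hl
      have e3 : (2 : ℝ) ^ (B * z) ≤ exp (B * z) := by
        have : exp ((B : ℝ) * z) = exp 1 ^ (B * z) := by
          rw [← Real.exp_nat_mul]
          push_cast
          ring_nf
        rw [this]
        refine pow_le_pow_left₀ (by norm_num) ?_ _
        have := Real.add_one_le_exp (1 : ℝ)
        linarith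
      have e4 : (2 : ℝ) ^ D.g i j l ≤ exp ((L * N + 2 * C₁) * z) * 2 ^ D.g i' j' l := by
        rw [Pool.FRM.two_pow_exp, Pool.FRM.two_pow_exp, ← Real.exp_add]
        refine Real.exp_le_exp.2 ?_
        have h8 : Real.log 2 ≤ 1 := by linarith [Real.log_two_lt_d9]
        have h9 : 0 ≤ Real.log 2 := Real.log_nonneg (by norm_num)
        have h10 : (D.g i j l : ℝ) * Real.log 2 ≤
            (D.g i' j' l + (L * N + 2 * C₁) * z) * Real.log 2 :=
          mul_le_mul_of_nonneg_right e2 h9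
        have h11 : (L * N + 2 * C₁) * z * Real.log 2 ≤ (L * N + 2 * C₁) * z :=
          mul_le_of_le_one_right (by positivity) h8
        linarith
      have e5 : exp ((B + L * N + 2 * C₁ + C₁) * z) =
          exp (B * z) * exp ((L * N + 2 * C₁) * z) * exp (C₁ * z) := by
        rw [← Real.exp_add, ← Real.exp_add]
        congr 1
        ring
      have e6 : 1 ≤ exp (C₁ * z) := Real.one_le_exp (by positivity)
      rw [e5]
      calc (2 : ℝ) ^ (B * z) * 2 ^ D.g i j l ≤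
            exp (B * z) * (exp ((L * N + 2 * C₁) * z) * 2 ^ D.g i' j' l) :=
            mul_le_mul e3 e4 (by positivity) (by positivity)
        _ = exp (B * z) * exp ((L * N + 2 * C₁) * z) * 2 ^ D.g i' j' l := by ring
        _ ≤ exp (B * z) * exp ((L * N + 2 * C₁) * z) * exp (C₁ * z) * 2 ^ D.g i' j' l := by
            refine mul_le_mul_of_nonneg_right ?_ (by positivity)
            exact le_mul_of_one_le_right (by positivity) e6
  refine ⟨fun i j => tri_tS (hO.G_tri _ _ _) _, fun i j l => deg_tS (fun l => hO.G_deg _ _ _ _) _ l,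
    ?_, ?_, ?_, ?_⟩
  · intro i hi j hj l hl
    rcases Nat.eq_zero_or_pos l with rfl | l1
    · rw [tg_zero, tg_zero]
      unfold tl
      rw [if_pos rfl, if_pos rfl]
      push_cast
      have : (a₀ : ℝ) + i * z - (a₀ + 0 * z) - (1 * i + 0 * j) * z = 0 := by ring
      rw [this, abs_zero]
      positivity
    · rw [tg_pos _ _ l1, tg_pos _ _ l1]
      unfold tl
      rw [if_neg (by omega), if_neg (by omega)]
      refine (hO.hom i (by omega) j (by omega) l l1 hl).trans ?_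
      refine mul_le_mul_of_nonneg_right (by linarith) hz0
  · intro i hi j hj l hl
    rcases Nat.eq_zero_or_pos l with rfl | l1
    · rw [tS_zero, eval_C, sub_self, abs_zero]
      positivity
    · rw [tg_pos _ _ l1, tS_pos _ _ l1]
      exact hO.pos i (by omega) j (by omega) ω hω l l1 hl
  · intro i hi j hj l hl b hb
    exact hadj (i + 1) j i j (by omega) (by omega) (by omega) (by omega) (by omega) (by omega)
      (by omega) l hl b hb
  · intro i hi j hj l hl b hb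
    exact hadj (i + 1) (j + 1) i j (by omega) (by omega) (by omega) (by omega) (by omega)
      (by omega) (by omega) l hl b hb

end cell

/-- **The hull lemma for labels**: the places in the `R`-neighbourhood of the hull of `A`. -/
theorem hull_lab (n K B N : ℕ) (lam gam : ℕ → ℝ) (C₁ R : ℝ) (hC₁ : 0 ≤ C₁) (hR : 0 ≤ R)
    (hN : 1 ≤ N) (hlam : ∀ l, 1 ≤ lam l) (hgam : ∀ l, 0 ≤ gam l) : ∃ C : ℝ, 1 ≤ C ∧
    ∀ (J a₀ w₀ z M M' : ℕ) (κ : ℝ) (D : NDat2) (q : D.Ω → ℝ), 1 ≤ z → 1 ≤ M' → (M' : ℝ) ≤ exp z →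
      M' + N + 1 ≤ M → D.Ok2 n K J a₀ w₀ z M lam gam κ C₁ q → ∀ ω ω' : D.Ω, 0 < q ω → 0 < q ω' →
      GA D n z a₀ B N M ω → GA D n z a₀ B N M ω' → D.T ω = D.T ω' →
      ∀ (A : Set (ℕ × ℕ)) (i j : ℕ), i ≤ M' → j ≤ M' →
      (∀ a ∈ A, a.1 ≤ M' ∧ a.2 ≤ M' ∧ D.s a.1 a.2 ω = D.s a.1 a.2 ω') →
      (∀ u v : ℝ, ∃ a ∈ A, u * i + v * j ≤ u * a.1 + v * a.2 + R * (|u| + |v|)) →
      ∀ l, 1 ≤ l → l ≤ n → ∀ b : ℕ → ℝ, D.NB i j (a₀ + i * z) l ω b →
        |eval b (D.Ψ i j ω l) - eval b (D.Ψ i j ω' l)| ≤ exp (C * z) / 2 ^ D.g i j l := by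
  obtain ⟨L, hL⟩ : ∃ L : ℝ, L = ∑ l ∈ range (n + 1), (lam l + gam l) := ⟨_, rfl⟩
  have hLl : ∀ l ≤ n, lam l + gam l ≤ L := fun l hl => by
    rw [hL]
    exact Finset.single_le_sum (f := fun l => lam l + gam l)
      (fun i _ => by linarith [hlam i, hgam i]) (mem_range.2 (by omega))
  have hL0 : 0 ≤ L := by
    have := hLl 0 (Nat.zero_le _)
    linarith [hlam 0, hgam 0]
  obtain ⟨C₂, hC₂⟩ : ∃ C₂ : ℝ, C₂ = B + L * N + 2 * C₁ + C₁ := ⟨_, rfl⟩
  have hC₂0 : 0 ≤ C₂ := by rw [hC₂]; positivity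
  obtain ⟨K₁, C₃, hK₁, hC₃, hfr⟩ := frame n K (tl 1 lam) (tl 0 gam) C₂ hC₂0
  obtain ⟨C₄, D₄, hC₄, hff⟩ := fr_fr K₁ (n + 1)
  obtain ⟨C₅, D₅, hC₅, hld⟩ := lab_dif K₁ (n + 1)
  obtain ⟨K₂, hK₂⟩ : ∃ K₂, K₂ = K₁ * (K₁ + 1) ^ (n + 1) := ⟨_, rfl⟩
  obtain ⟨c, hc⟩ := exists_nat_ge (2 * ((n * K₂ + 1) * C₂) + R * (2 * ((n * K₂ + 1) * (L + 1))))
  obtain ⟨N₁, hN₁⟩ : ∃ N₁ : ℝ, N₁ = ((exs (n + 1) K₂).card : ℝ) := ⟨_, rfl⟩
  have hN₁1 : 1 ≤ N₁ := by
    rw [hN₁]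
    exact_mod_cast Finset.card_pos.2 ⟨0, zero_mem_exs (n + 1) K₂⟩
  obtain ⟨lg, hlg⟩ : ∃ lg : ℝ, lg = Real.log (C₅ * (N₁ * C₄) ^ D₅) := ⟨_, rfl⟩
  have hX1 : 1 ≤ C₅ * (N₁ * C₄) ^ D₅ := one_le_mul_of_one_le_of_one_le hC₅
    (one_le_pow₀ (one_le_mul_of_one_le_of_one_le hN₁1 hC₄))
  have hlg0 : 0 ≤ lg := by rw [hlg]; exact Real.log_nonneg hX1
  refine ⟨lg + (C₃ * D₄ + C₃ + c) * D₅ + 1, by
    have : 0 ≤ (C₃ * D₄ + C₃ + c) * D₅ := by positivity
    linarith, ?_⟩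
  intro J a₀ w₀ z M M' κ D q hz hM'1 hM' hMM hO ω ω' hω hω' g1 g2 hT A i j hi hj hA hh l l1 l2 b hb
  have hz1 : (1 : ℝ) ≤ z := by exact_mod_cast hz
  have hz0 : (0 : ℝ) ≤ z := by linarith
  have hX : D.X ω 0 = D.X ω' 0 := by rw [hO.X_zero, hO.X_zero, hT]
  have G1 := grd hO hC₁ hLl hL0 hN hMM hω g1
  have G2 := grd hO hC₁ hLl hL0 hN hMM hω' g2
  rw [← hC₂] at G1 G2
  obtain ⟨P, p1, p2, p3, p4⟩ := hfr M' z _ _ _ hM'1 hz hM' G1
  obtain ⟨P', p1', p2', p3', p4'⟩ := hfr M' z _ _ _ hM'1 hz hM' G2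
  obtain ⟨S, hS⟩ : ∃ S : ℝ, S = exp (C₃ * z) := ⟨_, rfl⟩
  have hS1 : 1 ≤ S := by rw [hS]; exact Real.one_le_exp (by positivity)
  have nP : ∀ i ≤ M', ∀ j ≤ M', Nc (tg (a₀ + i * z) (D.g i j)) (n + 1) P
      (tS (D.X ω 0) (D.Ψ i j ω)) S := by
    intro i hi j hj l hl
    rw [hS]
    exact p4 i hi j hj l (by omega)
  have nP' : ∀ i ≤ M', ∀ j ≤ M', Nc (tg (a₀ + i * z) (D.g i j)) (n + 1) P'
      (tS (D.X ω' 0) (D.Ψ i j ω')) S := by
    intro i hi j hj l hl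
    rw [hS]
    exact p4' i hi j hj l (by omega)
  have dΨ : ∀ i j (ω : D.Ω), ∀ k < n + 1, (tS (D.X ω 0) (D.Ψ i j ω) k).totalDegree ≤ K₁ :=
    fun i j ω k _ => (deg_tS (fun l => hO.G_deg _ _ _ _) _ k).trans hK₁
  have tΨ : ∀ i j (ω : D.Ω), TriN (tS (D.X ω 0) (D.Ψ i j ω)) := fun i j ω =>
    tri_tS (hO.G_tri _ _ _) _
  -- the two frames at the known places
  obtain ⟨S₁, hS₁⟩ : ∃ S₁ : ℝ, S₁ = C₄ * S ^ D₄ := ⟨_, rfl⟩
  have hS₁1 : 1 ≤ S₁ := by
    rw [hS₁]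
    exact one_le_mul_of_one_le_of_one_le hC₄ (one_le_pow₀ hS1)
  have key : ∀ a ∈ A, Nc (tg (a₀ + a.1 * z) (D.g a.1 a.2)) (n + 1) P P' S₁ := by
    intro a ha
    obtain ⟨a1, a2, a3⟩ := hA a ha
    have e1 : tS (D.X ω' 0) (D.Ψ a.1 a.2 ω') = tS (D.X ω 0) (D.Ψ a.1 a.2 ω) := by
      unfold NDat2.Ψ
      rw [hX, a3]
    have e2 := nP' a.1 a1 a.2 a2
    rw [e1] at e2
    rw [hS₁]
    exact hff _ P P' _ S p1 p1' (tΨ _ _ _) (fun k _ => p2 k) (fun k _ => p2' k) (dΨ _ _ _) hS1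
      (nP a.1 a1 a.2 a2) e2
  -- the hull
  have hw : ∀ l < n + 1, ∀ α ∈ exs l (K₁ * (K₁ + 1) ^ l), ∃ a ∈ A,
      Finsupp.weight (tg (a₀ + a.1 * z) (D.g a.1 a.2)) α + tg (a₀ + i * z) (D.g i j) l ≤
        Finsupp.weight (tg (a₀ + i * z) (D.g i j)) α + tg (a₀ + a.1 * z) (D.g a.1 a.2) l +
          c * z := by
    intro l hl α hα
    obtain ⟨a, ha, h1⟩ := hh (slp (tl 1 lam) l α) (slp (tl 0 gam) l α)
    refine ⟨a, ha, ?_⟩
    obtain ⟨a1, a2, _⟩ := hA a ha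
    have e1 := abs_le.1 (wt_hom G1 hC₂0 (by omega : l ≤ n) hα hi hj)
    have e2 := abs_le.1 (wt_hom G1 hC₂0 (by omega : l ≤ n) hα a1 a2)
    have hln : (l : ℝ) ≤ n := by exact_mod_cast (by omega : l ≤ n)
    have hKK : ((K₁ * (K₁ + 1) ^ l : ℕ) : ℝ) ≤ K₂ := by
      rw [hK₂]
      exact_mod_cast Nat.mul_le_mul_left _ (Nat.pow_le_pow_right (Nat.succ_pos _) hl.le)
    have e3 : ((l : ℝ) * ((K₁ * (K₁ + 1) ^ l : ℕ) : ℝ) + 1) * (C₂ * z) ≤
        (n * K₂ + 1) * C₂ * z := by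
      rw [mul_assoc]
      refine mul_le_mul_of_nonneg_right ?_ (by positivity)
      have := mul_le_mul hln hKK (by positivity) (Nat.cast_nonneg _)
      linarith
    have e4 : (slp (tl 1 lam) l α * i + slp (tl 0 gam) l α * j) * z ≤
        (slp (tl 1 lam) l α * a.1 + slp (tl 0 gam) l α * a.2 +
          R * (|slp (tl 1 lam) l α| + |slp (tl 0 gam) l α|)) * z :=
      mul_le_mul_of_nonneg_right h1 hz0
    have e5 : (2 * ((n * K₂ + 1) * C₂) + R * (2 * ((n * K₂ + 1) * (L + 1)))) * z ≤ c * z :=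
      mul_le_mul_of_nonneg_right hc hz0
    have s0 : ((l : ℝ) * ((K₁ * (K₁ + 1) ^ l : ℕ) : ℝ) + 1) ≤ n * K₂ + 1 := by
      have := mul_le_mul hln hKK (by positivity) (Nat.cast_nonneg _)
      linarith
    have s1 : |slp (tl 1 lam) l α| ≤ (n * K₂ + 1) * (L + 1) :=
      (slp_le (L := L + 1) (fun k hk => by
        unfold tl
        split_ifs
        · rw [abs_one]
          linarith
        · have := hLl k hk
          have := hlam k
          have := hgam k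
          rw [abs_of_nonneg (by linarith)]
          linarith) (by omega : l ≤ n) hα).trans
        (mul_le_mul_of_nonneg_right s0 (by linarith))
    have s2 : |slp (tl 0 gam) l α| ≤ (n * K₂ + 1) * (L + 1) :=
      (slp_le (L := L + 1) (fun k hk => by
        unfold tl
        split_ifs
        · rw [abs_zero]
          linarith
        · have := hLl k hk
          have := hlam k
          have := hgam k
          rw [abs_of_nonneg (by linarith)]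
          linarith) (by omega : l ≤ n) hα).trans
        (mul_le_mul_of_nonneg_right s0 (by linarith))
    have s3 : R * (|slp (tl 1 lam) l α| + |slp (tl 0 gam) l α|) * z ≤
        R * (2 * ((n * K₂ + 1) * (L + 1))) * z :=
      mul_le_mul_of_nonneg_right (mul_le_mul_of_nonneg_left (by linarith) hR) hz0
    have e6 : ((Finsupp.weight (tg (a₀ + a.1 * z) (D.g a.1 a.2)) α +
        tg (a₀ + i * z) (D.g i j) l : ℕ) : ℝ) ≤
        ((Finsupp.weight (tg (a₀ + i * z) (D.g i j)) α + tg (a₀ + a.1 * z) (D.g a.1 a.2) l +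
          c * z : ℕ) : ℝ) := by
      push_cast
      linarith [e1.1, e2.2]
    exact_mod_cast e6
  obtain ⟨S₂, hS₂⟩ : ∃ S₂ : ℝ, S₂ = N₁ * (S₁ * 2 ^ (c * z)) := ⟨_, rfl⟩
  have h2c : (1 : ℝ) ≤ 2 ^ (c * z) := one_le_pow₀ (by norm_num)
  have hS₂1 : S₁ ≤ S₂ := by
    rw [hS₂]
    calc S₁ ≤ S₁ * 2 ^ (c * z) := le_mul_of_one_le_right (by linarith) h2c
      _ ≤ N₁ * (S₁ * 2 ^ (c * z)) := le_mul_of_one_le_left (by positivity) hN₁1
  have nPP : Nc (tg (a₀ + i * z) (D.g i j)) (n + 1) P P' S₂ := by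
    rw [hS₂, hN₁, hK₂]
    exact hull (A := A) (ga := fun a => tg (a₀ + a.1 * z) (D.g a.1 a.2)) p1 p1' (fun k _ => p2 k)
      (fun k _ => p2' k) (by linarith) key hw
  -- the labels; the constant
  obtain ⟨S₃, hS₃⟩ : ∃ S₃ : ℝ, S₃ = S₂ * S := ⟨_, rfl⟩
  have hSS : S ≤ S₃ := by
    rw [hS₃]
    exact le_mul_of_one_le_left (by linarith) (by linarith)
  have hS23 : S₂ ≤ S₃ := by
    rw [hS₃]
    exact le_mul_of_one_le_right (by linarith) hS1
  have fin := hld (tg (a₀ + i * z) (D.g i j)) P P' (tS (D.X ω 0) (D.Ψ i j ω))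
    (tS (D.X ω' 0) (D.Ψ i j ω')) S₃ p1 p1' (tΨ _ _ _) (tΨ _ _ _) (fun k _ => p2 k)
    (fun k _ => p2' k) (dΨ _ _ _) (dΨ _ _ _) (by linarith)
    ((nP i hi j hj).mono le_rfl hSS) ((nP' i hi j hj).mono le_rfl hSS) (nPP.mono le_rfl hS23) l
    (by omega) b ((box_iff l1).2 hb)
  rw [tS_pos _ _ l1, tS_pos _ _ l1, tg_pos _ _ l1] at fin
  refine fin.trans (div_le_div_of_nonneg_right ?_ (by positivity))
  have f1 : S₃ = N₁ * C₄ * (S ^ (D₄ + 1) * 2 ^ (c * z)) := by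
    rw [hS₃, hS₂, hS₁, pow_succ]
    ring
  have f2 : S ^ (D₄ + 1) = exp ((C₃ * D₄ + C₃) * z) := by
    rw [hS, ← Real.exp_nat_mul]
    congr 1
    push_cast
    ring
  have f3 : (2 : ℝ) ^ (c * z) ≤ exp (c * z) := by
    have : exp ((c : ℝ) * z) = exp 1 ^ (c * z) := by
      rw [← Real.exp_nat_mul]
      push_cast
      ring_nf
    rw [this]
    refine pow_le_pow_left₀ (by norm_num) ?_ _
    have := Real.add_one_le_exp (1 : ℝ)
    linarith
  have f4 : S ^ (D₄ + 1) * 2 ^ (c * z) ≤ exp ((C₃ * D₄ + C₃ + c) * z) := by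
    rw [f2]
    calc exp ((C₃ * D₄ + C₃) * z) * 2 ^ (c * z) ≤ exp ((C₃ * D₄ + C₃) * z) * exp (c * z) :=
          mul_le_mul_of_nonneg_left f3 (by positivity)
      _ = exp ((C₃ * D₄ + C₃ + c) * z) := by
          rw [← Real.exp_add]
          congr 1
          ring
  have f5 : C₅ * S₃ ^ D₅ ≤ C₅ * (N₁ * C₄) ^ D₅ * exp ((C₃ * D₄ + C₃ + c) * z) ^ D₅ := by
    rw [f1, mul_pow, mul_assoc]
    refine mul_le_mul_of_nonneg_left ?_ (by linarith)
    exact mul_le_mul_of_nonneg_left (pow_le_pow_left₀ (by positivity) f4 _) (by positivity)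
  refine f5.trans ?_
  have f6 : C₅ * (N₁ * C₄) ^ D₅ = exp lg := by
    rw [hlg, Real.exp_log (by linarith)]
  rw [f6, ← Real.exp_nat_mul, ← Real.exp_add]
  refine Real.exp_le_exp.2 ?_
  have f7 : lg ≤ lg * z := le_mul_of_one_le_right hlg0 hz1
  have f8 : (lg + (C₃ * D₄ + C₃ + c) * D₅ + 1) * z =
      lg * z + D₅ * ((C₃ * D₄ + C₃ + c) * z) + z := by ring
  rw [f8]
  linarith

end Pool.GSD.Row
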