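import Pool.Agent.H35.UP.UpA
import Pool.Agent.H24.GSD.Row
import Pool.Agent.H88.TIE.Ic
import Pool.Agent.H24.GSD.DmF

/-!
# Few bits: labels near the hull of known labels

On the good event `G` (all neighbouring labels agree) a label has few bits given the exact time and
labels at places whose hull comes near to its place. `rc`: the records with two labels. The good
event has probability near `1`.
-/

set_option autoImplicit false

namespace Pool.GSD.Row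

open Finset Real MvPolynomial
open Pool.Agent.H49.Ent Pool.Agent.H32.Dense Pool.STK Pool.STAT
open Pool.BFL (Pb)
open Pool.MIC (ev_pos isLaw_ev)

section cell

variable {D : NDat2} {n K J a₀ w₀ z M : ℕ} {lam gam : ℕ → ℝ} {κ C₁ : ℝ} {q : D.Ω → ℝ}

open Classical in
/-- The net on an event. -/
theorem net_ev (hO : D.Ok2 n K J a₀ w₀ z M lam gam κ C₁ q) (G : D.Ω → Prop) (hG : 0 < Pb q G)
    {i j : ℕ} (hi : i ≤ M) (hj : j ≤ M) {C : ℝ} (hC : 0 ≤ C) {Y : Type} (y : D.Ω → Y)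
    (hT : Det (cond q G True) y D.T)
    (h : ∀ ω ω', 0 < q ω → 0 < q ω' → G ω → G ω' → y ω = y ω' → ∀ l, 1 ≤ l → l ≤ n →
      ∀ b : ℕ → ℝ, D.NB i j (a₀ + i * z) l ω b →
      |eval b (D.Ψ i j ω l) - eval b (D.Ψ i j ω' l)| ≤ exp (C * z) / 2 ^ D.g i j l) :
    CH (cond q G True) (D.s i j) y ≤ C₁ * (C + 1) * z / Pb q G := by
  obtain ⟨y2, hy2⟩ : ∃ y2 : D.Ω → ℕ × (Y ⊕ D.S), y2 = fun ω =>
      (D.T ω, if G ω then Sum.inl (y ω) else Sum.inr (D.s i j ω)) := ⟨_, rfl⟩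
  have h1 := hO.net i hi j hj C hC _ y2 (by
    intro ω ω' _ _ e
    rw [hy2] at e
    exact (Prod.ext_iff.1 e).1) (by
    intro ω ω' hω hω' e l l1 l2 b hb
    rw [hy2] at e
    have e2 := (Prod.ext_iff.1 e).2
    simp only at e2
    by_cases g1 : G ω <;> by_cases g2 : G ω'
    · rw [if_pos g1, if_pos g2] at e2
      exact h ω ω' hω hω' g1 g2 (Sum.inl.inj e2) l l1 l2 b hb
    · rw [if_pos g1, if_neg g2] at e2
      exact absurd e2 Sum.inl_ne_inr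
    · rw [if_neg g1, if_pos g2] at e2
      exact absurd e2 Sum.inr_ne_inl
    · rw [if_neg g1, if_neg g2] at e2
      have e3 : D.Ψ i j ω = D.Ψ i j ω' := by
        unfold NDat2.Ψ
        rw [Sum.inr.inj e2]
      rw [e3, sub_self, abs_zero]
      positivity)
  have h2 := Pool.TIE.CH_event hO.isLaw (D.s i j) y2 G hG
  refine le_trans (CH_mono_cond (isLaw_ev hO.isLaw G hG).nonneg ?_)
    (h2.trans (div_le_div_of_nonneg_right h1 hG.le))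
  intro ω ω' hω hω' e
  have p1 := ev_pos hO.isLaw.nonneg G hω
  have p2 := ev_pos hO.isLaw.nonneg G hω'
  have e1 := hT ω ω' hω hω' e
  rw [hy2]
  simp only
  rw [if_pos p1.2, if_pos p2.2, e1, e]

end cell

/-- **Few bits near the hull.** -/
theorem few_hull (n K B N : ℕ) (lam gam : ℕ → ℝ) (C₁ R : ℝ) (hC₁ : 0 ≤ C₁) (hR : 0 ≤ R)
    (hN : 1 ≤ N) (hlam : ∀ l, 1 ≤ lam l) (hgam : ∀ l, 0 ≤ gam l) : ∃ C : ℝ, 1 ≤ C ∧
    ∀ (J a₀ w₀ z M M' : ℕ) (κ : ℝ) (D : NDat2) (q : D.Ω → ℝ), 1 ≤ z → 1 ≤ M' → (M' : ℝ) ≤ exp z →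
      M' + N + 1 ≤ M → D.Ok2 n K J a₀ w₀ z M lam gam κ C₁ q →
      1 / 2 ≤ Pb q (GA D n z a₀ B N M) → ∀ (Y : Type) (y : D.Ω → Y),
      Det (cond q (GA D n z a₀ B N M) True) y D.T → ∀ (A : Set (ℕ × ℕ)) (i j : ℕ), i ≤ M' →
      j ≤ M' → (∀ a ∈ A, a.1 ≤ M' ∧ a.2 ≤ M' ∧
        Det (cond q (GA D n z a₀ B N M) True) y (D.s a.1 a.2)) →
      (∀ u v : ℝ, ∃ a ∈ A, u * i + v * j ≤ u * a.1 + v * a.2 + R * (|u| + |v|)) →
      CH (cond q (GA D n z a₀ B N M) True) (D.s i j) y ≤ C * z := by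
  obtain ⟨C, hC, h⟩ := hull_lab n K B N lam gam C₁ R hC₁ hR hN hlam hgam
  refine ⟨2 * (C₁ * (C + 1)) + 1, by
    have : 0 ≤ C₁ * (C + 1) := by positivity
    linarith, ?_⟩
  intro J a₀ w₀ z M M' κ D q hz hM'1 hM' hMM hO hP Y y hT A i j hi hj hA hh
  have hP0 : 0 < Pb q (GA D n z a₀ B N M) := by linarith
  have hz0 : (0 : ℝ) ≤ z := Nat.cast_nonneg z
  have h1 := net_ev hO (GA D n z a₀ B N M) hP0 (i := i) (j := j) (by omega) (by omega)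
    (C := C) (by linarith) y hT (by
      intro ω ω' hω hω' g1 g2 e l l1 l2 b hb
      have c1 : 0 < cond q (GA D n z a₀ B N M) True ω := by
        rw [cond_pos_iff hO.isLaw.nonneg]
        exact ⟨hω, eq_true g1⟩
      have c2 : 0 < cond q (GA D n z a₀ B N M) True ω' := by
        rw [cond_pos_iff hO.isLaw.nonneg]
        exact ⟨hω', eq_true g2⟩
      exact h J a₀ w₀ z M M' κ D q hz hM'1 hM' hMM hO ω ω' hω hω' g1 g2 (hT ω ω' c1 c2 e) A i j hi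
        hj (fun a ha => ⟨(hA a ha).1, (hA a ha).2.1, (hA a ha).2.2 ω ω' c1 c2 e⟩) hh l l1 l2 b hb)
  refine h1.trans ?_
  rw [div_le_iff₀ hP0]
  have e1 : 0 ≤ C₁ * (C + 1) * z := by positivity
  have e2 : C₁ * (C + 1) * z * 1 ≤ C₁ * (C + 1) * z * (2 * Pb q (GA D n z a₀ B N M)) :=
    mul_le_mul_of_nonneg_left (by linarith) e1
  have e3 : 0 ≤ (z : ℝ) * Pb q (GA D n z a₀ B N M) := by positivity
  have e4 : (2 * (C₁ * (C + 1)) + 1) * z * Pb q (GA D n z a₀ B N M) =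
      C₁ * (C + 1) * z * (2 * Pb q (GA D n z a₀ B N M)) + z * Pb q (GA D n z a₀ B N M) := by ring
  rw [e4]
  linarith

/-- **The good event.** -/
theorem good_ev (n K N : ℕ) (lam gam : ℕ → ℝ) (C₁ : ℝ) (hn : 1 ≤ n) (hC₁ : 1 ≤ C₁)
    (hlam : ∀ l, 1 ≤ lam l) (hgam : ∀ l, 0 ≤ gam l) : ∃ B : ℕ,
    ∀ (M : ℕ) (η : ℝ), 0 < η → ∃ (κ₀ : ℝ) (z₀ : ℕ), 0 < κ₀ ∧
    ∀ (J a₀ w₀ z : ℕ) (κ κ' : ℝ) (D : NDat2) (q : D.Ω → ℝ), z₀ ≤ z → κ ≤ κ₀ → κ' ≤ κ₀ →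
      D.Ok2 n K J a₀ w₀ z M lam gam κ C₁ q → D.TmU J w₀ z κ' q →
      Pb q (fun ω => ¬ GA D n z a₀ B N M ω) ≤ η := by
  classical
  obtain ⟨B, hB⟩ := ta n K N lam gam C₁ hn hC₁ hlam hgam
  refine ⟨B, fun M η hη => ?_⟩
  obtain ⟨κ₀, z₀, hκ₀, h⟩ := hB (η / (M + 1) ^ 4) (by positivity)
  refine ⟨κ₀, z₀, hκ₀, ?_⟩
  intro J a₀ w₀ z κ κ' D q hz hκ hκ' hO hT
  obtain ⟨Q, hQ⟩ : ∃ Q : Finset ((ℕ × ℕ) × (ℕ × ℕ)), Q =
      ((range (M + 1) ×ˢ range (M + 1)) ×ˢ (range (M + 1) ×ˢ range (M + 1))).filter fun x =>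
        x.2.1 ≤ x.1.1 ∧ x.1.1 ≤ x.2.1 + N ∧ x.1.2 ≤ x.2.2 + N ∧ x.2.2 ≤ x.1.2 + N ∧
          x.1.1 + N + 1 ≤ M := ⟨_, rfl⟩
  have h1 := Pool.UP35.Pb_union hO.isLaw.nonneg Q (fun x ω =>
    ¬ TA D n z (a₀ + x.1.1 * z) x.1.1 x.1.2 x.2.1 x.2.2 B ω) (η := η / (M + 1) ^ 4) (by
      intro x hx
      rw [hQ, mem_filter, mem_product, mem_product, mem_product] at hx
      obtain ⟨⟨⟨a1, a2⟩, a3, a4⟩, b1, b2, b3, b4, b5⟩ := hx
      rw [mem_range] at a1 a2 a3 a4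
      exact h J a₀ w₀ z M κ κ' D q hz hκ hκ' hO hT _ _ _ _ b1 b2 b3 b4 b5 (by omega) (by omega))
  have h2 : Pb q (fun ω => ¬ GA D n z a₀ B N M ω) ≤ Pb q (fun ω => ∃ x ∈ Q,
      ¬ TA D n z (a₀ + x.1.1 * z) x.1.1 x.1.2 x.2.1 x.2.2 B ω) := by
    refine Pool.MIC.Frm.Pb_supp hO.isLaw.nonneg fun ω _ hb => ?_
    unfold GA at hb
    push Not at hb
    obtain ⟨i, j, i', j', b1, b2, b3, b4, b5, b6, b7, b8⟩ := hb
    refine ⟨((i, j), (i', j')), ?_, b8⟩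
    rw [hQ, mem_filter, mem_product, mem_product, mem_product]
    simp only [mem_range]
    refine ⟨⟨⟨by omega, by omega⟩, by omega, by omega⟩, b1, b2, b3, b4, b5⟩
  refine h2.trans (h1.trans ?_)
  have h3 : (Q.card : ℝ) ≤ (M + 1) ^ 4 := by
    have h4 : Q.card ≤ (M + 1) * (M + 1) * ((M + 1) * (M + 1)) := by
      rw [hQ]
      refine (Finset.card_filter_le _ _).trans ?_
      rw [card_product, card_product, card_range]
    have h5 : (Q.card : ℝ) ≤ (((M + 1) * (M + 1) * ((M + 1) * (M + 1)) : ℕ) : ℝ) := by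
      exact_mod_cast h4
    refine h5.trans (le_of_eq ?_)
    push_cast
    ring
  calc (Q.card : ℝ) * (η / (M + 1) ^ 4) ≤ (M + 1) ^ 4 * (η / (M + 1) ^ 4) :=
        mul_le_mul_of_nonneg_right h3 (by positivity)
    _ = η := by field_simp

/-- **The records**: the label at the place and the label at the radius `0` of the same row. -/
def rc (D : NDat2) (p : ℤ × ℤ) (ω : D.Ω) : D.S × D.S :=
  (D.s p.1.toNat p.2.toNat ω, D.s 0 p.2.toNat ω)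

/-- **One step of the records.** -/
theorem rc_step (n K B N : ℕ) (lam gam : ℕ → ℝ) (C₁ : ℝ) (Nd : ℕ) (hC₁ : 0 ≤ C₁)
    (hN : 1 ≤ N) (hlam : ∀ l, 1 ≤ lam l) (hgam : ∀ l, 0 ≤ gam l) : ∃ C : ℝ, 1 ≤ C ∧
    ∀ (J a₀ w₀ z M M' : ℕ) (κ : ℝ) (D : NDat2) (q : D.Ω → ℝ), 1 ≤ z → 1 ≤ M' → (M' : ℝ) ≤ exp z →
      M' + N + 1 ≤ M → D.Ok2 n K J a₀ w₀ z M lam gam κ C₁ q →
      1 / 2 ≤ Pb q (GA D n z a₀ B N M) → ∀ p d : ℤ × ℤ, |d.1| ≤ Nd → |d.2| ≤ Nd →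
      0 ≤ p.1 → p.1 ≤ M' → 0 ≤ p.2 → p.2 ≤ M' → 0 ≤ p.1 + d.1 → p.1 + d.1 ≤ M' →
      0 ≤ p.2 + d.2 → p.2 + d.2 ≤ M' →
      CH (cond q (GA D n z a₀ B N M) True) (rc D (p + d)) (fun ω => (rc D p ω, D.T ω)) ≤
        C * z := by
  obtain ⟨C, hC, h⟩ := few_hull n K B N lam gam C₁ Nd hC₁ (Nat.cast_nonneg _) hN hlam hgam
  refine ⟨2 * C, by linarith, ?_⟩
  intro J a₀ w₀ z M M' κ D q hz hM'1 hM' hMM hO hP p d hd1 hd2 a1 a2 a3 a4 a5 a6 a7 a8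
  have hP0 : 0 < Pb q (GA D n z a₀ B N M) := by linarith
  have hq' := (isLaw_ev hO.isLaw _ hP0).nonneg
  have k1 : ((p.1.toNat : ℕ) : ℝ) = p.1 := by
    exact_mod_cast Int.toNat_of_nonneg a1
  have k2 : ((p.2.toNat : ℕ) : ℝ) = p.2 := by
    exact_mod_cast Int.toNat_of_nonneg a3
  have k3 : (((p + d).1.toNat : ℕ) : ℝ) = p.1 + d.1 := by
    rw [Prod.fst_add]
    exact_mod_cast Int.toNat_of_nonneg a5
  have k4 : (((p + d).2.toNat : ℕ) : ℝ) = p.2 + d.2 := by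
    rw [Prod.snd_add]
    exact_mod_cast Int.toNat_of_nonneg a7
  have hd1' : |(d.1 : ℝ)| ≤ Nd := by exact_mod_cast hd1
  have hd2' : |(d.2 : ℝ)| ≤ Nd := by exact_mod_cast hd2
  have key : ∀ u v x y : ℝ, |x| ≤ Nd → |y| ≤ Nd → u * x + v * y ≤ Nd * (|u| + |v|) := by
    intro u v x y hx hy
    have e1 : u * x ≤ |u| * |x| := by
      rw [← abs_mul]
      exact le_abs_self _
    have e2 : v * y ≤ |v| * |y| := by
      rw [← abs_mul]
      exact le_abs_self _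
    have e3 : |u| * |x| ≤ |u| * Nd := mul_le_mul_of_nonneg_left hx (abs_nonneg _)
    have e4 : |v| * |y| ≤ |v| * Nd := mul_le_mul_of_nonneg_left hy (abs_nonneg _)
    linarith
  have s1 := h J a₀ w₀ z M M' κ D q hz hM'1 hM' hMM hO hP _ (fun ω => (rc D p ω, D.T ω))
    (fun ω ω' _ _ e => (Prod.ext_iff.1 e).2) {(p.1.toNat, p.2.toNat)} (p + d).1.toNat
    (p + d).2.toNat (by rw [Prod.fst_add]; omega) (by rw [Prod.snd_add]; omega) (by
      intro a ha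
      rw [Set.mem_singleton_iff] at ha
      subst ha
      exact ⟨by simp only; omega, by simp only; omega, fun ω ω' _ _ e =>
        (Prod.ext_iff.1 (Prod.ext_iff.1 e).1).1⟩) (by
      intro u v
      refine ⟨_, Set.mem_singleton _, ?_⟩
      simp only
      rw [k1, k2, k3, k4]
      linarith [key u v d.1 d.2 hd1' hd2'])
  have s2 := h J a₀ w₀ z M M' κ D q hz hM'1 hM' hMM hO hP _ (fun ω => (rc D p ω, D.T ω))
    (fun ω ω' _ _ e => (Prod.ext_iff.1 e).2) {(0, p.2.toNat)} 0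
    (p + d).2.toNat (Nat.zero_le _) (by rw [Prod.snd_add]; omega) (by
      intro a ha
      rw [Set.mem_singleton_iff] at ha
      subst ha
      exact ⟨Nat.zero_le _, by simp only; omega, fun ω ω' _ _ e =>
        (Prod.ext_iff.1 (Prod.ext_iff.1 e).1).2⟩) (by
      intro u v
      refine ⟨_, Set.mem_singleton _, ?_⟩
      simp only
      rw [k2, k4]
      have := key u v 0 d.2 (by rw [abs_zero]; exact Nat.cast_nonneg _) hd2'
      push_cast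
      linarith)
  have s3 := CH_subadd hq' (D.s (p + d).1.toNat (p + d).2.toNat) (D.s 0 (p + d).2.toNat)
    (fun ω => (rc D p ω, D.T ω))
  have s4 : CH (cond q (GA D n z a₀ B N M) True) (rc D (p + d)) (fun ω => (rc D p ω, D.T ω)) =
      CH (cond q (GA D n z a₀ B N M) True)
        (fun ω => (D.s (p + d).1.toNat (p + d).2.toNat ω, D.s 0 (p + d).2.toNat ω))
        (fun ω => (rc D p ω, D.T ω)) := rfl
  rw [s4]
  linarith

end Pool.GSD.Row
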