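import Pool.Agent.H24.GSD.Cls

/-!
# The nested cuts of a cell: the theorem
-/

set_option autoImplicit false

namespace Pool.GSD.Cls

open Finset Real MvPolynomial
open Pool.Agent.H49.Ent Pool.Agent.H32.Dense Pool.STK Pool.STAT
open Pool.BFL (Pb Pl)
open Pool.GSD.Row

theorem UpF.mono {D : NDat2} {n M : ℕ} {lam gam : ℕ → ℝ} {Nd Nr : ℕ} {q : D.Ω → ℝ} {C C' η : ℝ}
    {z : ℕ} (h : UpF D n M lam gam Nd Nr q C z η z) (hC : C ≤ C') :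
    UpF D n M lam gam Nd Nr q C' z η z := by
  intro b d r m X Y y a1 a2 a3 a4 a5 a6 a7 a8 a9 a10
  refine (h b d r m X Y y a1 a2 a3 a4 a5 a6 a7 a8 a9 a10).trans ?_
  have : C * (z : ℝ) ≤ C' * z := mul_le_mul_of_nonneg_right hC (Nat.cast_nonneg _)
  linarith

theorem HtF.mono {D : NDat2} {n K M z : ℕ} {q : D.Ω → ℝ} {C C' η : ℝ}
    (h : HtF D n K M z q C η) (hC : C ≤ C') (hη : 0 ≤ η) : HtF D n K M z q C' η := by
  intro i j i₁ j₁ i₂ j₂ X bb c S a1 a2 a3 a4 a5 a6 a7 a8 a9 a10 a11 a12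
  have e1 : C * (z : ℝ) ≤ C' * z := mul_le_mul_of_nonneg_right hC (Nat.cast_nonneg _)
  obtain ⟨h1, h2⟩ := h i j i₁ j₁ i₂ j₂ X bb c S a1 a2 a3 a4 a5 a6 a7 (e1.trans a8) a9 a10 a11 a12
  have e2 : η * (X + bb + C) ≤ η * (X + bb + C') := mul_le_mul_of_nonneg_left (by linarith) hη
  refine ⟨h1, fun Y y b1 b2 b3 b4 => ?_⟩
  obtain ⟨h3, h4⟩ := h2 Y y b1 b2 b3 b4
  refine ⟨fun Γ' zz pr l h₀ c1 c2 => (h3 Γ' zz pr l h₀ c1 c2).trans (by linarith),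
    fun Γ' zz s h h₀ c1 c2 c3 => (h4 Γ' zz s h h₀ c1 c2 c3).trans (by linarith)⟩

theorem RowF.mono {D : NDat2} {Q : D.Ω → ℝ} {M' : ℕ} {C C' z : ℝ} (h : RowF D Q M' C z)
    (hC : C ≤ C') (hz : 0 ≤ z) : RowF D Q M' C' z :=
  fun Y y p p' a1 a2 a3 a4 a5 a6 a7 a8 => (h Y y p p' a1 a2 a3 a4 a5 a6 a7 a8).trans
    (mul_le_mul_of_nonneg_right hC hz)

theorem RowF.le {D : NDat2} {Q : D.Ω → ℝ} {M' M'' : ℕ} {C z : ℝ} (h : RowF D Q M'' C z)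
    (hM : M' ≤ M'') : RowF D Q M' C z :=
  fun Y y p p' a1 a2 a3 a4 a5 a6 a7 a8 => h Y y p p' a1 a2 (by omega) a4 (by omega) a6 a7 a8

section num

variable {C₁ Cm Cr Ct C n N z L L' Λ η e s : ℝ}

/-- The numbers. -/
structure Nm (C₁ Cm Cr Ct C n N z L L' Λ η : ℝ) : Prop where
  C_eq : C = 8 * C₁ + 8 + (4 * Cm + 6 * n + 4 + 4 * ((N + 1) * Cm)) +
      (4 * Cm + 4 + 2 * Cr) + (6 * Ct + 4 * (Ct * C₁) + 4) + (4 * n + 8)
  C1 : 1 ≤ C₁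
  Cm1 : 1 ≤ Cm
  Cr0 : 0 ≤ Cr
  Ct1 : 1 ≤ Ct
  n0 : 0 ≤ n
  N0 : 0 ≤ N
  z1 : 1 ≤ z
  L0 : 0 ≤ L
  L1 : 0 ≤ L'
  La : 1 ≤ Λ
  e0 : 0 ≤ η

namespace Nm

variable (h : Nm C₁ Cm Cr Ct C n N z L L' Λ η)
include h

theorem le : 1 ≤ C ∧ Cm ≤ C ∧ Ct ≤ C ∧ 8 * C₁ + 8 ≤ C := by
  have h1 := h.C1
  have h2 := h.Cm1
  have h3 := h.Cr0
  have h4 := h.Ct1
  have h5 := h.n0
  have h6 := h.N0
  have k1 : 0 ≤ (N + 1) * Cm := by positivity
  have k2 : 0 ≤ Ct * C₁ := by positivity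
  have h0 := h.C_eq
  refine ⟨?_, ?_, ?_, ?_⟩ <;> linarith only [h0, h1, h2, h3, h4, h5, k1, k2]

theorem big : (8 * C₁ + 8) * z + (4 * Cm * z + 6 * n * z + 4 * z + 4 * ((N + 1) * Cm * z)) +
    (4 * Cm * z + 4 * z + 2 * Cr * z) + (6 * Ct * z + 4 * (Ct * C₁ * z) + 4 * z) +
    (4 * n + 8) * z + (4 * (n * (η * L')) + 8 * (η * L')) ≤ C * z + C * η * L' := by
  have h1 := h.C1
  have h2 := h.Cm1
  have h3 := h.Cr0
  have h4 := h.Ct1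
  have h5 := h.n0
  have h6 := h.N0
  have h7 := h.L1
  have h8 := h.e0
  have k0 : 0 ≤ η * L' := by positivity
  have k1 : 0 ≤ (N + 1) * Cm := by positivity
  have k2 : 0 ≤ Ct * C₁ := by positivity
  have e1 : C * z = (8 * C₁ + 8) * z + (4 * Cm * z + 6 * n * z + 4 * z + 4 * ((N + 1) * Cm * z)) +
    (4 * Cm * z + 4 * z + 2 * Cr * z) + (6 * Ct * z + 4 * (Ct * C₁ * z) + 4 * z) +
    (4 * n + 8) * z := by
    rw [h.C_eq]
    ring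
  have e2 : 4 * n + 8 ≤ C := by
    have h0 := h.C_eq
    linarith only [h0, h1, h2, h3, h4, h5, k1, k2]
  have e3 := mul_le_mul_of_nonneg_right e2 k0
  have e4 : (4 * n + 8) * (η * L') = 4 * (n * (η * L')) + 8 * (η * L') := by ring
  have e5 : C * (η * L') = C * η * L' := by ring
  linarith only [e1, e3, e4, e5]

theorem pos : 0 ≤ C₁ * z ∧ 0 ≤ Cm * z ∧ 0 ≤ n * z ∧ 0 ≤ (N + 1) * Cm * z ∧ 0 ≤ Cr * z ∧
    0 ≤ Ct * z ∧ 0 ≤ Ct * C₁ * z ∧ 0 ≤ Ct * (Λ * L) ∧ 0 ≤ Ct * L ∧ 0 ≤ n * (η * L') ∧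
    0 ≤ η * L' ∧ Cm ≤ Cm * z ∧ Cr ≤ Cr * z ∧ Ct ≤ Ct * z := by
  have h1 := h.C1
  have h2 := h.Cm1
  have h3 := h.Cr0
  have h4 := h.Ct1
  have h5 := h.n0
  have h6 := h.N0
  have h7 := h.L1
  have h8 := h.e0
  have h9 := h.z1
  have h10 := h.L0
  have h11 := h.La
  refine ⟨by positivity, by positivity, by positivity, by positivity, by positivity, by positivity,
    by positivity, by positivity, by positivity, by positivity, by positivity,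
    le_mul_of_one_le_right (by linarith) h9, le_mul_of_one_le_right h3 h9,
    le_mul_of_one_le_right (by linarith) h9⟩

theorem n1 : 2 * (2 * (Cm * z) + (2 * n + 2) * η * L') + (6 * n + 4) * z +
    (e + 2 * ((N + 1) * (2 * (Cm * z)))) ≤
    e + C * z + 4 * Ct * (1 + Λ) * L + C * η * L' := by
  have hb := h.big
  have hz := h.z1
  obtain ⟨k1, k2, k3, k4, k5, k6, k7, k8, k9, k10, k11, k12, k13, k14⟩ := h.pos
  have e0 : 2 * (2 * (Cm * z) + (2 * n + 2) * η * L') + (6 * n + 4) * z +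
    (e + 2 * ((N + 1) * (2 * (Cm * z)))) = 4 * (Cm * z) + 4 * (n * (η * L')) + 4 * (η * L') +
      6 * (n * z) + 4 * z + e + 4 * ((N + 1) * Cm * z) := by ring
  have e1 : 4 * Ct * (1 + Λ) * L = 4 * (Ct * L) + 4 * (Ct * (Λ * L)) := by ring
  rw [e0, e1]
  linarith only [hb, hz, k1, k2, k3, k4, k5, k6, k7, k8, k9, k10, k11]

theorem n2 (he : 0 ≤ e) : 2 * (Cm * z + (2 * η * L' + 2 * z + Cm) + Cr) ≤
    e + C * z + 4 * Ct * (1 + Λ) * L + C * η * L' := by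
  have hb := h.big
  have hz := h.z1
  obtain ⟨k1, k2, k3, k4, k5, k6, k7, k8, k9, k10, k11, k12, k13, k14⟩ := h.pos
  have e1 : 4 * Ct * (1 + Λ) * L = 4 * (Ct * L) + 4 * (Ct * (Λ * L)) := by ring
  rw [e1]
  linarith only [hb, hz, k1, k2, k3, k4, k5, k6, k7, k8, k9, k10, k11, k12, k13, he]

theorem n3 (he : 0 ≤ e) (hs : s ≤ 2 * Λ * L + 2 * C₁ * z + 1) :
    2 * (Ct * (z + s) + (2 * η * L' + 2 * z + Ct)) ≤
    e + C * z + 4 * Ct * (1 + Λ) * L + C * η * L' := by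
  have hb := h.big
  have hz := h.z1
  have hCt := h.Ct1
  obtain ⟨k1, k2, k3, k4, k5, k6, k7, k8, k9, k10, k11, k12, k13, k14⟩ := h.pos
  have e1 : 4 * Ct * (1 + Λ) * L = 4 * (Ct * L) + 4 * (Ct * (Λ * L)) := by ring
  have e2 : Ct * s ≤ 2 * (Ct * (Λ * L)) + 2 * (Ct * C₁ * z) + Ct := by
    have e3 := mul_le_mul_of_nonneg_left hs (by linarith only [hCt] : 0 ≤ Ct)
    have e4 : Ct * (2 * Λ * L + 2 * C₁ * z + 1) = 2 * (Ct * (Λ * L)) + 2 * (Ct * C₁ * z) + Ct := by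
      ring
    linarith only [e3, e4]
  have e5 : Ct * (z + s) = Ct * z + Ct * s := by ring
  rw [e1, e5]
  linarith only [hb, hz, k1, k2, k3, k4, k5, k6, k7, k8, k9, k10, k11, k14, he, e2]

end Nm

end num

/-- **The nested cuts of a cell.** -/
theorem cls : ClsStmt := by
  intro n K lam gam C₁ hn hC₁ hlam hgam
  obtain ⟨Ct, hCt, hta⟩ := Pool.TA35.ta_all n K lam gam C₁ hC₁
  refine ⟨4 * Ct, by linarith, ?_⟩
  intro Λ u N v Wd x a hΛ hd hx hv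
  have hC₁0 : 0 ≤ C₁ := by linarith
  have hΛ1 : 1 ≤ Λ := (hlam n).trans (hΛ n hn le_rfl)
  obtain ⟨B, hB⟩ := good_ev n K 1 lam gam C₁ hn hC₁ hlam hgam
  obtain ⟨Cw, hCw, hrow⟩ := row_few n K B lam gam C₁ hC₁0 hlam hgam
  obtain ⟨Cs, hCs, hst⟩ := rc_step n K B 1 lam gam C₁ Wd hC₁0 le_rfl hlam hgam
  obtain ⟨Cu, hCu, hup⟩ := Pool.UP35.up_lab n K Wd lam gam C₁ 1 hC₁ hlam hgam one_pos
  obtain ⟨Ch, hCh, hht⟩ := ht_all n K lam gam C₁ hC₁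
  obtain ⟨Cr, hCr, hrd⟩ := ht_rnd n K
  obtain ⟨Cm, hCm⟩ : ∃ Cm : ℝ, Cm = Cw + Cs + Cu + Ch := ⟨_, rfl⟩
  obtain ⟨C, hC⟩ : ∃ C : ℝ, C = 8 * C₁ + 8 + (4 * Cm + 6 * n + 4 + 4 * ((N + 1) * Cm)) +
      (4 * Cm + 4 + 2 * Cr) + (6 * Ct + 4 * (Ct * C₁) + 4) + (4 * n + 8) := ⟨_, rfl⟩
  -- the range is positive
  have hW1 : 1 ≤ Wd := by
    by_contra hc
    have h0 : Wd = 0 := by omega
    have hv0 : v = 0 := by omega
    have hx0 : x 0 = 0 := by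
      have := hx 0 (Nat.zero_le _)
      rw [h0, Nat.cast_zero] at this
      exact abs_nonpos_iff.1 this
    rcases Nat.lt_or_ge (a n) 0 with h | h
    · omega
    · have := hd.p2 0 (Nat.zero_le _) n hn le_rfl h
      rw [hv0, hx0] at this
      push_cast at this
      linarith [hlam n]
  have hCm1 : 1 ≤ Cm := by linarith only [hCm, hCw, hCs, hCu, hCh]
  obtain ⟨q1, q2, q3, q4⟩ := (Nm.mk (z := 1) (L := 0) (L' := 0) (Λ := 1) (η := 0) hC hC₁ hCm1 hCr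
    hCt (Nat.cast_nonneg n) (Nat.cast_nonneg N) le_rfl le_rfl le_rfl le_rfl le_rfl).le
  refine ⟨C, B, Wd + 4, q1, ?_⟩
  intro M M' η hη hη2 hMM
  obtain ⟨κ₁, z₁, hκ₁, f1⟩ := hB M η hη
  obtain ⟨κ₂, z₂, hκ₂, f2⟩ := hup M' η hη
  obtain ⟨κ₃, z₃, hκ₃, f3⟩ := hht M η (by omega) hη
  obtain ⟨κ₄, z₄, hκ₄, f4⟩ := hta M η (by omega) hη
  refine ⟨min (min κ₁ κ₂) (min κ₃ (min κ₄ 1)), max (max z₁ z₂) (max z₃ (max z₄ (M' + 1))),
    lt_min (lt_min hκ₁ hκ₂) (lt_min hκ₃ (lt_min hκ₄ one_pos)), ?_⟩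
  intro J a₀ w₀ z κ κ' D q hz hκ hκ' hO hTm
  have y1 : z₁ ≤ z := (le_max_left _ _).trans ((le_max_left _ _).trans hz)
  have y2 : z₂ ≤ z := (le_max_right _ _).trans ((le_max_left _ _).trans hz)
  have y3 : z₃ ≤ z := (le_max_left _ _).trans ((le_max_right _ _).trans hz)
  have y4 : z₄ ≤ z :=
    (le_max_left _ _).trans ((le_max_right _ _).trans ((le_max_right _ _).trans hz))
  have y5 : M' + 1 ≤ z :=
    (le_max_right _ _).trans ((le_max_right _ _).trans ((le_max_right _ _).trans hz))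
  have x1 : κ ≤ κ₁ := hκ.trans ((min_le_left _ _).trans (min_le_left _ _))
  have x1' : κ' ≤ κ₁ := hκ'.trans ((min_le_left _ _).trans (min_le_left _ _))
  have x2 : κ ≤ κ₂ := hκ.trans ((min_le_left _ _).trans (min_le_right _ _))
  have x3 : κ ≤ κ₃ := hκ.trans ((min_le_right _ _).trans (min_le_left _ _))
  have x4 : κ ≤ κ₄ := hκ.trans ((min_le_right _ _).trans ((min_le_right _ _).trans
    (min_le_left _ _)))
  have x5 : κ ≤ 1 := hκ.trans ((min_le_right _ _).trans ((min_le_right _ _).trans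
    (min_le_right _ _)))
  have hz1 : 1 ≤ z := by omega
  have hzR : (1 : ℝ) ≤ z := by exact_mod_cast hz1
  have hz0 : (0 : ℝ) ≤ z := by linarith
  have hexp : (((M' + 1 : ℕ) : ℝ)) ≤ exp z := by
    have e1 : (((M' + 1 : ℕ) : ℝ)) ≤ z := by exact_mod_cast y5
    have e2 := Real.add_one_le_exp (z : ℝ)
    linarith
  have hbad := f1 J a₀ w₀ z κ κ' D q y1 x1 x1' hO hTm
  have hG : 1 - η ≤ Pb q (GA D n z a₀ B 1 M) := by
    have := Pool.MIC.Pb_not hO.isLaw.sum_one (GA D n z a₀ B 1 M)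
    linarith
  have hG2 : 1 / 2 ≤ Pb q (GA D n z a₀ B 1 M) := by linarith
  have hstep := hst J a₀ w₀ z M (M' + 1) κ D q hz1 (by omega) hexp (by omega) hO hG2
  refine ⟨hbad, ?_, ?_⟩
  · intro p d b1 b2 b3 b4 b5 b6 b7 b8 b9 b10
    refine (hstep p d b1 b2 b3 (by push_cast; linarith) b5 (by push_cast; linarith) b7
      (by push_cast; linarith) b9 (by push_cast; linarith)).trans ?_
    refine mul_le_mul_of_nonneg_right ?_ hz0
    linarith only [q2, hCm, hCw, hCu, hCh]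
  intro l i j h₀ bb e hul hCl h1 h2 h3 h4 hh hb1 hb2 hmi
  have hrow' : RowF D (cond q (GA D n z a₀ B 1 M) True) M' Cm z :=
    ((hrow J a₀ w₀ z M (M' + 1) κ D q hz1 (by omega) hexp (by omega) hO hG2).le
      (Nat.le_succ _)).mono (by rw [hCm]; linarith) hz0
  have h2l : 2 ^ l ≤ M' := by
    have : 2 ^ l ≤ Wd * 2 ^ l := Nat.le_mul_of_pos_left _ hW1
    omega
  have hU : UpF D n M lam gam Wd (2 ^ l) q Cm z η z := by
    refine UpF.mono (C := Cu) ?_ (by rw [hCm]; linarith)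
    intro b d r m X Y y b1 b2 b3 b4 b5 b6 b7 b8 b9 b10
    exact f2 J a₀ w₀ z M κ D q b d r m X Y y y2 x2 hO b1 (b2.trans h2l) b3 b4 b5 b6 b7 b8 b9 b10
  have hH : HtF D n K M z q Cm η := by
    refine HtF.mono (C := Ch) ?_ (by rw [hCm]; linarith) hη.le
    exact f3 J a₀ w₀ z κ D q y3 x3 hO
  have hT : TaF D n K M z q Ct η := f4 J a₀ w₀ z κ D q y4 x4 hO
  -- the loss at the near places
  obtain ⟨L, hL⟩ : ∃ L : ℝ, L = 2 ^ (l - u) * z := ⟨_, rfl⟩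
  obtain ⟨L', hL'⟩ : ∃ L' : ℝ, L' = 2 ^ l * z := ⟨_, rfl⟩
  have hL0 : 0 ≤ L := by rw [hL]; positivity
  have hL'0 : 0 ≤ L' := by rw [hL']; positivity
  have hηL : 0 ≤ η * L' := by positivity
  obtain ⟨s, hs⟩ : ∃ s : ℕ, s = ⌈2 * Λ * L + 2 * C₁ * z⌉₊ := ⟨_, rfl⟩
  have s1 : 2 * Λ * L + 2 * C₁ * z ≤ s := by
    rw [hs]
    exact Nat.le_ceil _
  have s2 : (s : ℝ) ≤ 2 * Λ * L + 2 * C₁ * z + 1 := by
    rw [hs]
    exact (Nat.ceil_lt_add_one (by positivity)).le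
  have hN : Nu C₁ Λ z l u (cX z l) s := by
    refine ⟨hz1, hul, ?_, hC₁, by linarith, rfl, by rw [← hL]; exact s1, by rw [← hL]; exact s2⟩
    exact q4.trans hCl
  have hCmC : Cm * z ≤ C * z := mul_le_mul_of_nonneg_right q2 hz0
  have hCtC' : Ct * z ≤ C * z := mul_le_mul_of_nonneg_right q3 hz0
  have hnm : Nm C₁ Cm Cr Ct C n N z L L' Λ η := ⟨hC, hC₁, hCm1, hCr, hCt, Nat.cast_nonneg n,
    Nat.cast_nonneg N, hzR, hL0, hL'0, hΛ1, hη.le⟩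
  have he : 0 ≤ e := (Pool.DM.mi_nonneg (Pool.MIC.isLaw_ev hO.isLaw _
    (by linarith only [hG2])).nonneg _ _ _).trans (hmi 0 (Nat.zero_le _))
  rw [← hL, ← hL']
  refine out_of hO hn hU hH hT (by linarith only [hCt]) hrd hCr (by omega) hd hΛ hN hx hv h1 h2 h3
    h4 hW1 (GA D n z a₀ B 1 M) hη.le hη2 (by linarith only [hCm1]) hG hrow' x5 hh (hCmC.trans hb1)
    (hCtC'.trans hb1) hb2 hmi ?_ ?_ ?_
  · rw [← hL']
    exact hnm.n1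
  · rw [← hL']
    exact hnm.n2 he
  · rw [← hL']
    exact hnm.n3 he s2

end Pool.GSD.Cls
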