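import Pool.Agent.H24.GN.Plank
import Pool.Agent.H1.TIE.Mono

/-!
# STEP V, class side: from nested cuts to the hypotheses

`A k`, `B k` are the contexts at the two ends of the cut `k`, `a c` is the last cut before the ratio
of the coordinate `c`, `aN` the last cut before the ratio of the target. The coordinate `c` is thin
at `A k` iff `a c < k`, and thin at `B k` iff `k ≤ a c`. The cuts are nested. The sheet of `c` is
known at the end where `c` is thin; its shape has few bits given the other side of the ratio and the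
heights of the tied coordinates before `c` (`tie`). From almost independence of `A k` and `B k`
given the context, the fullness of the base and upper bounds for the base given one end: the
hypotheses of STEP V, for the true joint law.
-/

set_option autoImplicit false

namespace Pool.GSD

open Finset Real MvPolynomial
open Pool.Agent.H49.Ent Pool.Agent.H32.Dense Pool.STK Pool.BFL Pool.TIE
open Pool.LIVE20 (mi mi_nonneg)
open Pool.L12

section pure

variable {Ω S T U W : Type} [Fintype Ω] {p : Ω → ℝ}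

/-- Putting a common function into the condition. -/
theorem mi_joint (hp : ∀ ω, 0 ≤ p ω) (A : Ω → S) (B : Ω → T) (V : Ω → U) (C : Ω → W) :
    mi p A B (fun ω => (V ω, C ω)) ≤
      mi p A B C + CH p V (fun ω => (A ω, C ω)) - (CH p V C - CH p V (fun ω => (B ω, C ω))) := by
  have h1 := mi_pr hp B A V C
  have h2 := mi_pr hp B V A C
  have h3 : mi p B (fun ω => (A ω, V ω)) C = mi p B (fun ω => (V ω, A ω)) C := by
    refine le_antisymm ?_ ?_ <;>
    · refine mi_mono hp (fun _ _ _ _ h => (Prod.ext_iff.mp h).1) ?_ (fun _ _ _ _ h => h)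
        (fun _ _ _ _ h => h)
      intro ω ω' _ _ h
      simp only [Prod.mk.injEq] at h ⊢
      tauto
  have h4 := mi_symm hp A B (fun ω => (V ω, C ω))
  have h5 := mi_symm hp A B C
  have h6 := mi_symm hp B V (fun ω => (A ω, C ω))
  have h7 := mi_symm hp B V C
  have h8 : mi p V B (fun ω => (A ω, C ω)) ≤ CH p V (fun ω => (A ω, C ω)) := by
    unfold mi
    have := CH_nonneg hp V (fun ω => (B ω, (A ω, C ω)))
    linarith
  have h9 : mi p V B C = CH p V C - CH p V (fun ω => (B ω, C ω)) := rfl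
  linarith

/-- A variable of few values. -/
theorem mi_few (hp : ∀ ω, 0 ≤ p ω) (A : Ω → S) (B : Ω → T) (N : Ω → U) (C : Ω → W) :
    mi p N A C ≤ mi p A B C + CH p N (fun ω => (B ω, C ω)) := by
  have h1 := mi_symm hp N A C
  have h2 : mi p A N C ≤ mi p A (fun ω => (B ω, N ω)) C := by
    refine mi_mono hp (fun _ _ _ _ h => (Prod.ext_iff.mp h).1) ?_ (fun _ _ _ _ h => h)
      (fun _ _ _ _ h => h)
    intro ω ω' _ _ h
    exact (Prod.ext_iff.mp (Prod.ext_iff.mp h).1).2
  have h3 := mi_pr hp A B N C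
  have h4 := mi_symm hp A N (fun ω => (B ω, C ω))
  have h5 : mi p N A (fun ω => (B ω, C ω)) ≤ CH p N (fun ω => (B ω, C ω)) := by
    unfold mi
    have := CH_nonneg hp N (fun ω => (A ω, (B ω, C ω)))
    linarith
  linarith

/-- A variable of few values in the condition. -/
theorem CH_drop (hp : ∀ ω, 0 ≤ p ω) (V : Ω → S) (H : Ω → T) (C : Ω → U) :
    CH p V C - CH p H C ≤ CH p V (fun ω => (H ω, C ω)) := by
  have := CH_le_add hp V H C
  linarith

/-- Families. -/
theorem CH_ite_le {m : ℕ} (hp : ∀ ω, 0 ≤ p ω) (s : Finset (Fin m)) (F : Ω → Fin m → S)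
    (C : Ω → T) : CH p (fun ω c => if c ∈ s then some (F ω c) else none) C ≤
      ∑ c ∈ s, CH p (fun ω => F ω c) C := by
  classical
  induction s using Finset.induction_on with
  | empty =>
    have h : CH p (fun ω (c : Fin m) => if c ∈ (∅ : Finset (Fin m)) then some (F ω c) else none) C
        = 0 := CH_eq_zero hp fun ω ω' _ _ _ => by
      funext c
      rw [if_neg (Finset.notMem_empty c), if_neg (Finset.notMem_empty c)]
    rw [h, Finset.sum_empty]
  | insert b s hb ih =>
    rw [Finset.sum_insert hb]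
    have h1 := CH_subadd hp (fun ω => F ω b)
      (fun ω (c : Fin m) => if c ∈ s then some (F ω c) else none) C
    have h2 : CH p (fun ω c => if c ∈ insert b s then some (F ω c) else none) C ≤
        CH p (fun ω => (F ω b, fun c : Fin m => if c ∈ s then some (F ω c) else none)) C := by
      refine CH_mono_left hp fun ω ω' _ _ h => ?_
      have h3 := Prod.ext_iff.1 (Prod.ext_iff.1 h).1
      funext c
      have h4 := congrFun h3.2 c
      by_cases hc : c = b
      · subst hc
        rw [if_pos (Finset.mem_insert_self _ _), if_pos (Finset.mem_insert_self _ _)]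
        exact congrArg some h3.1
      · by_cases hs : c ∈ s
        · rw [if_pos (Finset.mem_insert_of_mem hs), if_pos (Finset.mem_insert_of_mem hs)]
          simp only [if_pos hs] at h4
          exact h4
        · have : c ∉ insert b s := fun h5 => (Finset.mem_insert.1 h5).elim hc hs
          rw [if_neg this, if_neg this]
    linarith

end pure

/-- The heights of the tied coordinates before `c`. -/
noncomputable def tie {m : ℕ} (D : Dat m) (a : Fin m → ℕ) (c : Fin m) (ω : D.Ω) :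
    Fin m → Option ℤ := fun l => if a l = a c ∧ l < c then some (D.ht l ω) else none

/-- **Nested cuts.** -/
structure Cuts {m : ℕ} (D : Dat m) {Γ : Type} (N : ℕ) (A B : ℕ → D.Ω → Γ) (a : Fin m → ℕ)
    (aN : ℕ) (e : ℝ) : Prop where
  isLaw : IsLaw D.p
  e0 : 0 ≤ e
  a_lt : ∀ c, a c < N
  aN_lt : aN < N
  hne : ∀ c, a c ≠ aN
  s_vars : ∀ ω c, ∀ c' ∈ (D.s ω c).vars, c' < c
  V_lt : ∀ ω c, 0 ≤ D.V ω c ∧ D.V ω c < 2 ^ D.X
  Am : ∀ k l, k ≤ l → l ≤ N → Det D.p (A l) (A k)
  Bm : ∀ k l, k ≤ l → l ≤ N → Det D.p (B k) (B l)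
  ind : ∀ k ≤ N, mi D.p (A k) (B k) D.z ≤ e
  VC : m * (D.X * Real.log 2) - e ≤ CH D.p D.V D.z
  VA : ∀ k ≤ N, CH D.p D.V (fun ω => (A k ω, D.z ω)) ≤
    (univ.filter fun c => k ≤ a c).card * (D.X * Real.log 2) + e
  VB : ∀ k ≤ N, CH D.p D.V (fun ω => (B k ω, D.z ω)) ≤
    (univ.filter fun c => a c < k).card * (D.X * Real.log 2) + e
  nA : ∀ k, aN < k → k ≤ N → CH D.p D.nu (fun ω => (A k ω, (D.V ω, D.z ω))) ≤ e
  nB : ∀ k ≤ aN, CH D.p D.nu (fun ω => (B k ω, (D.V ω, D.z ω))) ≤ e
  sA : ∀ c, a c < aN → Det D.p (fun ω => (A (a c + 1) ω, D.z ω)) (fun ω => D.s ω c)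
  tA : ∀ c, a c < aN →
    CH D.p (fun ω => D.s ω c) (fun ω => (tie D a c ω, (A (a c) ω, D.z ω))) ≤ e
  hA : ∀ c, a c < aN → CH D.p (D.ht c) (fun ω => (A (a c + 1) ω, D.z ω)) ≤ e
  sB : ∀ c, aN < a c → Det D.p (fun ω => (B (a c) ω, D.z ω)) (fun ω => D.s ω c)
  tB : ∀ c, aN < a c →
    CH D.p (fun ω => D.s ω c) (fun ω => (tie D a c ω, (B (a c + 1) ω, D.z ω))) ≤ e
  hB : ∀ c, aN < a c → CH D.p (D.ht c) (fun ω => (B (a c) ω, D.z ω)) ≤ e

section cuts

variable {m : ℕ} {D : Dat m} {Γ : Type} {N : ℕ} {A B : ℕ → D.Ω → Γ} {a : Fin m → ℕ} {aN : ℕ}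
  {e : ℝ}

theorem card_add (a : Fin m → ℕ) (k : ℕ) :
    (univ.filter fun c => k ≤ a c).card + (univ.filter fun c => a c < k).card = m := by
  have h := Finset.card_filter_add_card_filter_not (s := (univ : Finset (Fin m)))
    (fun c => k ≤ a c)
  have e1 : (univ.filter fun c => ¬ k ≤ a c) = univ.filter fun c => a c < k := by
    ext c
    simp
  rw [e1, Finset.card_univ, Fintype.card_fin] at h
  exact h

theorem card_mid (a : Fin m → ℕ) {k l : ℕ} (hkl : k ≤ l) :
    (univ.filter fun c => k ≤ a c).card + (univ.filter fun c => a c < l).card =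
      m + (univ.filter fun c => k ≤ a c ∧ a c < l).card := by
  classical
  have h1 := card_add a k
  have h2 : (univ.filter fun c => a c < l).card = (univ.filter fun c => a c < k).card +
      (univ.filter fun c => k ≤ a c ∧ a c < l).card := by
    rw [← Finset.card_union_of_disjoint]
    · congr 1
      ext c
      simp only [mem_filter, mem_univ, true_and, mem_union]
      omega
    · rw [Finset.disjoint_filter]
      intro c _ h
      omega
  omega

namespace Cuts

section incl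

variable (H : Cuts D N A B a aN e)

include H

/-- The two ends are almost independent given the base. -/
theorem joint {k : ℕ} (hk : k ≤ N) :
    mi D.p (A k) (B k) (fun ω => (D.V ω, D.z ω)) ≤ 4 * e := by
  have h1 := mi_joint H.isLaw.nonneg (A k) (B k) D.V D.z
  have h2 := H.ind k hk
  have h3 := H.VC
  have h4 := H.VA k hk
  have h5 := H.VB k hk
  have h6 : (((univ.filter fun c => k ≤ a c).card + (univ.filter fun c => a c < k).card : ℕ) : ℝ) =
      m := by
    rw [card_add]
  push_cast at h6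
  have h7 : (m : ℝ) * (D.X * Real.log 2) = (univ.filter fun c => k ≤ a c).card *
      (D.X * Real.log 2) + (univ.filter fun c => a c < k).card * (D.X * Real.log 2) := by
    rw [← h6]
    ring
  linarith

theorem joint' {k l : ℕ} (hkl : k ≤ l) (hl : l ≤ N) :
    mi D.p (A k) (B l) (fun ω => (D.V ω, D.z ω)) ≤ 4 * e := by
  refine le_trans ?_ (H.joint hl)
  refine mi_mono H.isLaw.nonneg ?_ (fun _ _ _ _ h => (Prod.ext_iff.mp h).1)
    (fun _ _ _ _ h => h) (fun _ _ _ _ h => h)
  exact fun ω ω' p1 p2 h => H.Am k l hkl hl ω ω' p1 p2 (Prod.ext_iff.mp h).1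

/-- The base given one end. -/
theorem lowA {k : ℕ} (hk : k ≤ N) :
    (univ.filter fun c => k ≤ a c).card * (D.X * Real.log 2) - 3 * e ≤
      CH D.p D.V (fun ω => (A k ω, D.z ω)) := by
  have h1 := plank H.isLaw.nonneg D.V (B k) (A k) D.z
  have h2 := H.ind k hk
  have h2' := mi_symm H.isLaw.nonneg (A k) (B k) D.z
  have h3 := H.VC
  have h5 := H.VB k hk
  have h6 : (((univ.filter fun c => k ≤ a c).card + (univ.filter fun c => a c < k).card : ℕ) : ℝ) =
      m := by
    rw [card_add]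
  push_cast at h6
  have h7 : (m : ℝ) * (D.X * Real.log 2) = (univ.filter fun c => k ≤ a c).card *
      (D.X * Real.log 2) + (univ.filter fun c => a c < k).card * (D.X * Real.log 2) := by
    rw [← h6]
    ring
  linarith

theorem lowB {k : ℕ} (hk : k ≤ N) :
    (univ.filter fun c => a c < k).card * (D.X * Real.log 2) - 3 * e ≤
      CH D.p D.V (fun ω => (B k ω, D.z ω)) := by
  have h1 := plank H.isLaw.nonneg D.V (A k) (B k) D.z
  have h2 := H.ind k hk
  have h3 := H.VC
  have h5 := H.VA k hk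
  have h6 : (((univ.filter fun c => k ≤ a c).card + (univ.filter fun c => a c < k).card : ℕ) : ℝ) =
      m := by
    rw [card_add]
  push_cast at h6
  have h7 : (m : ℝ) * (D.X * Real.log 2) = (univ.filter fun c => k ≤ a c).card *
      (D.X * Real.log 2) + (univ.filter fun c => a c < k).card * (D.X * Real.log 2) := by
    rw [← h6]
    ring
  linarith

theorem V_le {T : Type} (Y : D.Ω → T) : CH D.p D.V Y ≤ m * (D.X * Real.log 2) := by
  have h1 := on_le D H.V_lt univ H.isLaw (f := id) Y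
  rw [Finset.card_univ, Fintype.card_fin] at h1
  refine le_trans (CH_mono_left H.isLaw.nonneg fun ω ω' _ _ h => ?_) h1
  have h2 := (Prod.ext_iff.1 h).1
  funext c
  have h3 := congrFun h2 c
  unfold Dat.on at h3
  simp only [id, if_pos (mem_univ c)] at h3
  exact h3

/-- The base given both ends. -/
theorem lowAB {k l : ℕ} (hkl : k ≤ l) (hl : l ≤ N) :
    (univ.filter fun c => k ≤ a c ∧ a c < l).card * (D.X * Real.log 2) - 10 * e ≤
      CH D.p D.V (fun ω => ((A k ω, B l ω), D.z ω)) := by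
  have h1 := ful2 H.isLaw.nonneg D.V (A k) (B l) D.z
  have h2 := H.joint' hkl hl
  have h3 := H.lowA (hkl.trans hl)
  have h4 := H.lowB hl
  have h5 := H.V_le D.z
  have h6 := card_mid a hkl
  have h6' : (((univ.filter fun c => k ≤ a c).card + (univ.filter fun c => a c < l).card : ℕ) : ℝ) =
      ((m + (univ.filter fun c => k ≤ a c ∧ a c < l).card : ℕ) : ℝ) := by
    rw [h6]
  push_cast at h6'
  have h7 : ((univ.filter fun c => k ≤ a c).card : ℝ) * (D.X * Real.log 2) +
      (univ.filter fun c => a c < l).card * (D.X * Real.log 2) = m * (D.X * Real.log 2) +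
      (univ.filter fun c => k ≤ a c ∧ a c < l).card * (D.X * Real.log 2) := by
    rw [← add_mul, h6', add_mul]
  linarith

/-! ### The height -/

theorem nuA_le {k : ℕ} (hk : k ≤ aN) :
    mi D.p D.nu (A k) (fun ω => (D.V ω, D.z ω)) ≤ 5 * e := by
  have hN := H.aN_lt
  have h1 := mi_few H.isLaw.nonneg (A k) (B k) D.nu (fun ω => (D.V ω, D.z ω))
  have h2 := H.joint (k := k) (by omega)
  have h3 := H.nB k hk
  linarith

theorem nuB_le {l : ℕ} (hl : aN < l) (hlN : l ≤ N) :
    mi D.p D.nu (B l) (fun ω => (D.V ω, D.z ω)) ≤ 5 * e := by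
  have h1 := mi_few H.isLaw.nonneg (B l) (A l) D.nu (fun ω => (D.V ω, D.z ω))
  have h2 := H.joint hlN
  have h2' := mi_symm H.isLaw.nonneg (A l) (B l) (fun ω => (D.V ω, D.z ω))
  have h3 := H.nA l hl hlN
  linarith

theorem nuAB_le : mi D.p D.nu (fun ω => (A aN ω, B (aN + 1) ω)) (fun ω => (D.V ω, D.z ω)) ≤
    10 * e := by
  have hp := H.isLaw.nonneg
  have hN := H.aN_lt
  have h1 := mi_pr hp D.nu (A aN) (B (aN + 1)) (fun ω => (D.V ω, D.z ω))
  have h2 := H.nuA_le le_rfl
  have h3 := mi_cond_le' hp D.nu (A aN) (B (aN + 1)) (fun ω => (D.V ω, D.z ω))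
  have h4 : mi D.p (fun ω => (D.nu ω, A aN ω)) (B (aN + 1)) (fun ω => (D.V ω, D.z ω)) ≤
      mi D.p (fun ω => (A (aN + 1) ω, D.nu ω)) (B (aN + 1)) (fun ω => (D.V ω, D.z ω)) := by
    refine mi_mono hp ?_ (fun _ _ _ _ h => (Prod.ext_iff.mp h).1) (fun _ _ _ _ h => h)
      (fun _ _ _ _ h => h)
    intro ω ω' p1 p2 h
    have h5 := Prod.ext_iff.1 (Prod.ext_iff.1 h).1
    exact Prod.ext h5.2 (H.Am aN (aN + 1) (Nat.le_succ _) (by omega) ω ω' p1 p2 h5.1)
  have h5 := mi_symm hp (fun ω => (A (aN + 1) ω, D.nu ω)) (B (aN + 1))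
    (fun ω => (D.V ω, D.z ω))
  have h6 := mi_pr hp (B (aN + 1)) (A (aN + 1)) D.nu (fun ω => (D.V ω, D.z ω))
  have h7 := mi_symm hp (B (aN + 1)) (A (aN + 1)) (fun ω => (D.V ω, D.z ω))
  have h8 := H.joint (k := aN + 1) (by omega)
  have h9 : mi D.p (B (aN + 1)) D.nu (fun ω => (A (aN + 1) ω, (D.V ω, D.z ω))) ≤ e := by
    rw [mi_symm hp]
    unfold mi
    have h10 := CH_nonneg hp D.nu (fun ω => (B (aN + 1) ω, (A (aN + 1) ω, (D.V ω, D.z ω))))
    have h11 := H.nA (aN + 1) (Nat.lt_succ_self _) (by omega)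
    linarith
  linarith

/-- The sheets are known at the ends next to the ratio of the target. -/
theorem s_det : Det D.p (fun ω => ((A aN ω, B (aN + 1) ω), D.z ω)) D.s := by
  have hN := H.aN_lt
  intro ω ω' p1 p2 h
  have h1 := Prod.ext_iff.1 h
  have h2 := Prod.ext_iff.1 h1.1
  funext c
  rcases lt_or_gt_of_ne (H.hne c) with hc | hc
  · exact H.sA c hc ω ω' p1 p2
      (Prod.ext (H.Am (a c + 1) aN hc hN.le ω ω' p1 p2 h2.1) h1.2)
  · have := H.a_lt c
    exact H.sB c hc ω ω' p1 p2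
      (Prod.ext (H.Bm (aN + 1) (a c) hc (by omega) ω ω' p1 p2 h2.2) h1.2)

/-- **The height is independent of the sheets.** -/
theorem nu_s : CH D.p D.nu (fun ω => (D.V ω, D.z ω)) ≤
    CH D.p D.nu (fun ω => (D.s ω, (D.V ω, D.z ω))) + 10 * e := by
  have hp := H.isLaw.nonneg
  have h1 : mi D.p D.nu D.s (fun ω => (D.V ω, D.z ω)) ≤
      mi D.p D.nu (fun ω => (A aN ω, B (aN + 1) ω)) (fun ω => (D.V ω, D.z ω)) := by
    refine mi_mono hp (fun _ _ _ _ h => (Prod.ext_iff.mp h).1) ?_ (fun _ _ _ _ h => h)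
      (fun _ _ _ _ h => h)
    intro ω ω' p1 p2 h
    have h2 := Prod.ext_iff.1 h
    exact H.s_det ω ω' p1 p2 (Prod.ext h2.1 (Prod.ext_iff.1 h2.2).2)
  have h2 := H.nuAB_le
  unfold mi at h1 h2
  linarith

/-- **The hypotheses of STEP V.** -/
theorem hyp {K : ℕ} {b : ℝ} (h_le : 2 * D.h₀ ≤ D.X)
    (s_deg : ∀ ω c, (D.s ω c).totalDegree ≤ K)
    (s_cf : ∀ ω c α, |coeff α (D.s ω c)| ≤ (2 : ℝ) ^ b)
    (nr_le : ∀ ω, |D.nr ω| ≤ (2 : ℝ) ^ b) : Hyp D K b (10 * e) :=
  ⟨H.isLaw, H.V_lt, h_le, s_deg, s_cf, H.s_vars, nr_le, H.nu_s⟩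

/-! ### The sets `M` -/

/-- The base from the coordinates of `M` and the sheets outside. -/
theorem V_on {T : Type} (M : Finset (Fin m)) (Y : D.Ω → T) (hY : Det D.p Y (D.out M)) :
    CH D.p D.V Y ≤ CH D.p (D.on M) Y := by
  refine CH_mono_left H.isLaw.nonneg fun ω ω' p1 p2 h => ?_
  have h1 := Prod.ext_iff.1 h
  exact D.V_det_out H.s_vars (hY ω ω' p1 p2 h1.2) h1.1

/-- Adding the heights outside `M` to the condition. -/
theorem V_hout {T : Type} (M : Finset (Fin m)) (Y : D.Ω → T) (w : Fin m → ℝ)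
    (hw : ∀ c ∉ M, CH D.p (D.ht c) Y ≤ w c) :
    CH D.p D.V Y - ∑ c ∈ univ.filter (fun c => c ∉ M), w c ≤ CH D.p D.V (fun ω =>
      ((fun c : Fin m => if c ∈ univ.filter (fun c => c ∉ M) then some (D.ht c ω) else none),
        Y ω)) := by
  classical
  have h1 := CH_ite_le H.isLaw.nonneg (univ.filter fun c => c ∉ M) (fun ω c => D.ht c ω) Y
  have h2 := CH_drop H.isLaw.nonneg D.V
    (fun ω (c : Fin m) => if c ∈ univ.filter (fun c => c ∉ M) then some (D.ht c ω) else none) Y
  have h3 : ∑ c ∈ univ.filter (fun c => c ∉ M), CH D.p (fun ω => D.ht c ω) Y ≤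
      ∑ c ∈ univ.filter (fun c => c ∉ M), w c :=
    Finset.sum_le_sum fun c hc => hw c (mem_filter.1 hc).2
  linarith

omit H in
/-- The sheets outside `M` from their heights and shapes. -/
theorem out_det {M : Finset (Fin m)} {ω ω' : D.Ω}
    (h : (fun c : Fin m => if c ∈ univ.filter (fun c => c ∉ M) then some (D.ht c ω) else none) =
      fun c : Fin m => if c ∈ univ.filter (fun c => c ∉ M) then some (D.ht c ω') else none)
    (hs : ∀ c ∉ M, D.s ω c = D.s ω' c) : D.out M ω = D.out M ω' := by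
  funext c
  unfold Dat.out
  by_cases hc : c ∈ M
  · rw [if_pos hc, if_pos hc]
  · rw [if_neg hc, if_neg hc]
    have h1 := congrFun h c
    have h2 : c ∈ univ.filter (fun c => c ∉ M) := mem_filter.2 ⟨mem_univ _, hc⟩
    simp only [if_pos h2] at h1
    rw [Option.some.inj h1, hs c hc]

end incl

/-- The coordinates outside `M` are beyond the cuts `k`, `l` or tied: the heights of their sheets
given both ends. -/
theorem ht_out (H : Cuts D N A B a aN e) {k l : ℕ} (hk : k ≤ aN) (hl : aN < l) (hlN : l ≤ N)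
    {c : Fin m} (hc : a c < k ∨ l ≤ a c) :
    CH D.p (D.ht c) (fun ω => ((A k ω, B l ω), D.z ω)) ≤ e := by
  rcases hc with hc | hc
  · refine le_trans (CH_mono_cond H.isLaw.nonneg fun ω ω' p1 p2 h => ?_)
      (H.hA c (lt_of_lt_of_le hc hk))
    have h1 := Prod.ext_iff.1 h
    exact Prod.ext (H.Am (a c + 1) k (by omega) (by omega) ω ω' p1 p2
      (Prod.ext_iff.1 h1.1).1) h1.2
  · have h3 := H.a_lt c
    refine le_trans (CH_mono_cond H.isLaw.nonneg fun ω ω' p1 p2 h => ?_)
      (H.hB c (lt_of_lt_of_le hl hc))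
    have h1 := Prod.ext_iff.1 h
    exact Prod.ext (H.Bm l (a c) hc (by omega) ω ω' p1 p2 (Prod.ext_iff.1 h1.1).2) h1.2

/-- **Fullness of the sets `M`.** -/
theorem ful (m K : ℕ) : ∃ C : ℝ, 1 ≤ C ∧ ∀ (D : Dat m) {Γ : Type} (N : ℕ) (A B : ℕ → D.Ω → Γ)
    (a : Fin m → ℕ) (aN : ℕ) (e b : ℝ), Cuts D N A B a aN e → 0 ≤ b → Hyp D K b (10 * e) →
    ∀ (M : Finset (Fin m)) (c c' : Fin m), a c < aN → aN < a c' →
      (∀ x ∉ M, a x ≤ a c ∨ a c' ≤ a x) → (∀ x ∈ M, a c ≤ a x ∧ a x ≤ a c') →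
      (∀ x l, a l = a x → l < x → l ∈ M → x ∈ M ∧ x ≠ c ∧ x ≠ c') →
      FulM D M c c' (C * (e + b + 1)) := by
  classical
  obtain ⟨C, hC, hht⟩ := ht_le m K
  refine ⟨10 + m * (C + 2), by
    have : (0 : ℝ) ≤ m * (C + 2) := by positivity
    linarith, ?_⟩
  intro D Γ N A B a aN e b H hb hH M c c' hc hc' hout hin hT
  have hp := H.isLaw.nonneg
  have he := H.e0
  have hX0 : 0 ≤ (D.X : ℝ) * Real.log 2 :=
    mul_nonneg (Nat.cast_nonneg _) (Real.log_nonneg one_le_two)
  have hlN := H.a_lt c'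
  have hm0 : (0 : ℝ) ≤ m := Nat.cast_nonneg m
  obtain ⟨Y, hY⟩ : ∃ Y : D.Ω → (Γ × Γ) × D.Γ, Y = fun ω => ((A (a c) ω, B (a c' + 1) ω), D.z ω) :=
    ⟨_, rfl⟩
  obtain ⟨Ho, hHo⟩ : ∃ Ho : D.Ω → Fin m → Option ℤ, Ho = fun ω (x : Fin m) =>
      if x ∈ univ.filter (fun x => x ∉ M) then some (D.ht x ω) else none := ⟨_, rfl⟩
  obtain ⟨Q, hQ⟩ : ∃ Q : Finset (Fin m), Q = univ.filter fun x =>
      (x ∉ M ∨ x = c ∨ x = c') ∧ (a x = a c ∨ a x = a c') := ⟨_, rfl⟩
  obtain ⟨So, hSo⟩ : ∃ So : D.Ω → Fin m → Option (Pl m), So = fun ω (x : Fin m) =>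
      if x ∈ Q then some (D.s ω x) else none := ⟨_, rfl⟩
  -- the condition
  have h1 : CH D.p D.V (fun ω => (So ω, (Ho ω, Y ω))) ≤
      CH D.p (D.on M) (fun ω => ((D.s ω c, D.s ω c'), (D.out M ω, D.z ω))) := by
    refine le_trans ?_ (H.V_on M _ fun ω ω' _ _ h => (Prod.ext_iff.1 (Prod.ext_iff.1 h).2).1)
    refine CH_mono_cond hp fun ω ω' p1 p2 h => ?_
    have e1 := Prod.ext_iff.1 h
    have e2 := Prod.ext_iff.1 e1.2
    have e3 := e2.2
    have e4 : So ω = So ω' := e1.1
    have e5 : Ho ω = Ho ω' := e2.1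
    simp only [hY] at e3
    have e6 := Prod.ext_iff.1 e3
    have e7 := Prod.ext_iff.1 e6.1
    have sQ : ∀ x ∈ Q, D.s ω x = D.s ω' x := fun x hx => by
      have h5 := congrFun e4 x
      rw [hSo] at h5
      simp only [if_pos hx] at h5
      exact Option.some.inj h5
    have hcQ : c ∈ Q := by
      rw [hQ]
      exact mem_filter.2 ⟨mem_univ _, Or.inr (Or.inl rfl), Or.inl rfl⟩
    have hcQ' : c' ∈ Q := by
      rw [hQ]
      exact mem_filter.2 ⟨mem_univ _, Or.inr (Or.inr rfl), Or.inr rfl⟩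
    refine Prod.ext (Prod.ext (sQ c hcQ) (sQ c' hcQ')) (Prod.ext ?_ e6.2)
    refine out_det (by rw [hHo] at e5; exact e5) fun x hx => ?_
    by_cases hxQ : x ∈ Q
    · exact sQ x hxQ
    · have h6 : ¬ (a x = a c ∨ a x = a c') := fun h7 => hxQ (by
        rw [hQ]
        exact mem_filter.2 ⟨mem_univ _, Or.inl hx, h7⟩)
      have h8 := hout x hx
      rcases lt_or_gt_of_ne (H.hne x) with h9 | h9
      · exact H.sA x h9 ω ω' p1 p2
          (Prod.ext (H.Am (a x + 1) (a c) (by omega) (by omega) ω ω' p1 p2 e7.1) e6.2)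
      · have := H.a_lt x
        exact H.sB x h9 ω ω' p1 p2
          (Prod.ext (H.Bm (a c' + 1) (a x) (by omega) (by omega) ω ω' p1 p2 e7.2) e6.2)
  -- the heights
  obtain ⟨w, hw⟩ : ∃ w : Fin m → ℝ, w = fun x => (if a c ≤ a x ∧ a x < a c' + 1 then
    D.X * Real.log 2 else 0) + (e + C * (b + 1)) := ⟨_, rfl⟩
  have h2 := H.V_hout M Y w (fun x hx => by
    rw [hw]
    simp only
    by_cases h5 : a c ≤ a x ∧ a x < a c' + 1
    · rw [if_pos h5]
      have := hht D b (10 * e) hb hH x Y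
      linarith
    · rw [if_neg h5, hY]
      have := ht_out H (k := a c) (l := a c' + 1) hc.le (by omega) (by omega) (c := x) (by omega)
      have h6 : 0 ≤ C * (b + 1) := by positivity
      linarith)
  -- the shapes
  have h2' : CH D.p So (fun ω => (Ho ω, Y ω)) ≤ m * e := by
    have g1 := CH_ite_le hp Q (fun ω x => D.s ω x) (fun ω => (Ho ω, Y ω))
    rw [hSo]
    refine g1.trans ?_
    have g2 : ∀ x ∈ Q, CH D.p (fun ω => D.s ω x) (fun ω => (Ho ω, Y ω)) ≤ e := by
      intro x hx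
      rw [hQ, mem_filter] at hx
      obtain ⟨-, hx1, hx2⟩ := hx
      have tiex : ∀ {ω ω' : D.Ω}, Ho ω = Ho ω' → tie D a x ω = tie D a x ω' := by
        intro ω ω' h5
        funext l
        unfold tie
        by_cases h6 : a l = a x ∧ l < x
        · rw [if_pos h6, if_pos h6]
          have h7 : l ∉ M := fun h8 => by
            obtain ⟨i1, i2, i3⟩ := hT x l h6.1 h6.2 h8
            rcases hx1 with h9 | h9 | h9
            · exact h9 i1
            · exact i2 h9
            · exact i3 h9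
          have h8 := congrFun h5 l
          rw [hHo] at h8
          have h9 : l ∈ univ.filter (fun x => x ∉ M) := mem_filter.2 ⟨mem_univ _, h7⟩
          simp only [if_pos h9] at h8
          exact h8
        · rw [if_neg h6, if_neg h6]
      rcases hx2 with h5 | h5
      · refine le_trans (CH_mono_cond hp fun ω ω' p1 p2 h => ?_) (H.tA x (by omega))
        have e1 := Prod.ext_iff.1 h
        have e2 := e1.2
        simp only [hY] at e2
        have e3 := Prod.ext_iff.1 e2
        refine Prod.ext (tiex e1.1) (Prod.ext ?_ e3.2)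
        simp only [h5]
        exact (Prod.ext_iff.1 e3.1).1
      · refine le_trans (CH_mono_cond hp fun ω ω' p1 p2 h => ?_) (H.tB x (by omega))
        have e1 := Prod.ext_iff.1 h
        have e2 := e1.2
        simp only [hY] at e2
        have e3 := Prod.ext_iff.1 e2
        refine Prod.ext (tiex e1.1) (Prod.ext ?_ e3.2)
        simp only [h5]
        exact (Prod.ext_iff.1 e3.1).2
    refine (Finset.sum_le_sum g2).trans ?_
    rw [Finset.sum_const, nsmul_eq_mul]
    refine mul_le_mul_of_nonneg_right ?_ he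
    have := Finset.card_le_univ Q
    rw [Fintype.card_fin] at this
    exact_mod_cast this
  have h2'' := CH_drop hp D.V So (fun ω => (Ho ω, Y ω))
  have h3 := H.lowAB (k := a c) (l := a c' + 1) (by omega) (by omega)
  rw [← hY] at h3
  -- the count
  have hMs : M ⊆ univ.filter fun x => a c ≤ a x ∧ a x < a c' + 1 := by
    intro x hx
    have := hin x hx
    exact mem_filter.2 ⟨mem_univ _, by omega⟩
  have h4 : ∑ x ∈ univ.filter (fun x => x ∉ M), w x ≤
      ((univ.filter fun x => a c ≤ a x ∧ a x < a c' + 1).card - M.card) * (D.X * Real.log 2) +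
        m * (e + C * (b + 1)) := by
    rw [hw, Finset.sum_add_distrib, Finset.sum_const, nsmul_eq_mul]
    have h5 : ((univ.filter fun x => x ∉ M).card : ℝ) ≤ m := by
      have := Finset.card_le_univ (univ.filter fun x : Fin m => x ∉ M)
      rw [Fintype.card_fin] at this
      exact_mod_cast this
    have h6 : ∑ x ∈ univ.filter (fun x => x ∉ M), (if a c ≤ a x ∧ a x < a c' + 1 then
        D.X * Real.log 2 else 0) =
        ((univ.filter fun x => a c ≤ a x ∧ a x < a c' + 1).card - M.card) *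
          (D.X * Real.log 2) := by
      rw [← Finset.sum_filter, Finset.sum_const, nsmul_eq_mul]
      congr 1
      have e1 : (univ.filter fun x => x ∉ M).filter (fun x => a c ≤ a x ∧ a x < a c' + 1) =
          (univ.filter fun x => a c ≤ a x ∧ a x < a c' + 1) \ M := by
        ext x
        simp only [mem_filter, mem_univ, true_and, mem_sdiff]
        tauto
      rw [e1, Finset.card_sdiff_of_subset hMs, Nat.cast_sub (Finset.card_le_card hMs)]
    rw [h6]
    have h7 : 0 ≤ e + C * (b + 1) := by positivity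
    have := mul_le_mul_of_nonneg_right h5 h7
    linarith
  unfold FulM
  have h8 : ((univ.filter fun x => a c ≤ a x ∧ a x < a c' + 1).card - (M.card : ℝ)) *
      (D.X * Real.log 2) = (univ.filter fun x => a c ≤ a x ∧ a x < a c' + 1).card *
        (D.X * Real.log 2) - M.card * (D.X * Real.log 2) := by ring
  have h9 : m * (e + C * (b + 1)) + m * e ≤ m * (C + 2) * (e + b + 1) := by
    have h10 : (e + C * (b + 1)) + e ≤ (C + 2) * (e + b + 1) := by nlinarith
    have := mul_le_mul_of_nonneg_left h10 hm0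
    linarith
  have h10 : 10 * e ≤ 10 * (e + b + 1) := by linarith
  have h11 : (10 + m * (C + 2)) * (e + b + 1) = 10 * (e + b + 1) + m * (C + 2) * (e + b + 1) := by
    ring
  have h12 : CH D.p D.V Y - ∑ x ∈ univ.filter (fun x => x ∉ M), w x ≤
      CH D.p D.V (fun ω => (Ho ω, Y ω)) := by
    rw [hHo]
    exact h2
  rw [h11]
  linarith

/-! ### The own leaves -/

/-- Entropies given `kap` and the sheets outside `M`, from the condition `Y`. -/
theorem on_low (H : Cuts D N A B a aN e) (M : Finset (Fin m)) {T S : Type} (Y : D.Ω → T)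
    (Q : D.Ω → S) (hQ : CH D.p Q Y ≤ e) (kap : D.Ω → Pl m) (hk : CH D.p kap Y ≤ e)
    (hz : Det D.p Y D.z) (hs : ∀ x ∉ M, Det D.p Y (fun ω => D.s ω x))
    (hh : ∀ x ∉ M, CH D.p (D.ht x) Y ≤ e) :
    CH D.p D.V Y - (m + 2) * e ≤
      CH D.p (D.on M) (fun ω => (Q ω, (kap ω, (D.out M ω, D.z ω)))) := by
  classical
  have hp := H.isLaw.nonneg
  have he := H.e0
  obtain ⟨Ho, hHo⟩ : ∃ Ho : D.Ω → Fin m → Option ℤ, Ho = fun ω (x : Fin m) =>
      if x ∈ univ.filter (fun x => x ∉ M) then some (D.ht x ω) else none := ⟨_, rfl⟩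
  have h1 : CH D.p D.V (fun ω => (Q ω, (kap ω, (Ho ω, Y ω)))) ≤
      CH D.p (D.on M) (fun ω => (Q ω, (kap ω, (D.out M ω, D.z ω)))) := by
    refine le_trans ?_ (H.V_on M _ fun ω ω' _ _ h =>
      (Prod.ext_iff.1 (Prod.ext_iff.1 (Prod.ext_iff.1 h).2).2).1)
    refine CH_mono_cond hp fun ω ω' p1 p2 h => ?_
    have e1 := Prod.ext_iff.1 h
    have e2 := Prod.ext_iff.1 e1.2
    have e3 := Prod.ext_iff.1 e2.2
    have e4 : Ho ω = Ho ω' := e3.1
    rw [hHo] at e4
    exact Prod.ext e1.1 (Prod.ext e2.1 (Prod.ext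
      (out_det e4 fun x hx => hs x hx ω ω' p1 p2 e3.2) (hz ω ω' p1 p2 e3.2)))
  have h2 := H.V_hout M Y (fun _ => e) hh
  have h2' : CH D.p D.V Y - ∑ c ∈ univ.filter (fun c => c ∉ M), e ≤
      CH D.p D.V (fun ω => (Ho ω, Y ω)) := by
    rw [hHo]
    exact h2
  have h3 := CH_drop hp D.V kap (fun ω => (Ho ω, Y ω))
  have h4 : CH D.p kap (fun ω => (Ho ω, Y ω)) ≤ CH D.p kap Y :=
    CH_mono_cond hp fun ω ω' _ _ h => (Prod.ext_iff.1 h).2
  have h3' := CH_drop hp D.V Q (fun ω => (kap ω, (Ho ω, Y ω)))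
  have h4' : CH D.p Q (fun ω => (kap ω, (Ho ω, Y ω))) ≤ CH D.p Q Y :=
    CH_mono_cond hp fun ω ω' _ _ h => (Prod.ext_iff.1 (Prod.ext_iff.1 h).2).2
  rw [Finset.sum_const, nsmul_eq_mul] at h2'
  have h5 : ((univ.filter fun x => x ∉ M).card : ℝ) ≤ m := by
    have := Finset.card_le_univ (univ.filter fun x : Fin m => x ∉ M)
    rw [Fintype.card_fin] at this
    exact_mod_cast this
  have h6 := mul_le_mul_of_nonneg_right h5 he
  linarith

/-- The own shape is almost independent of the height and of the base. -/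
theorem kap_ind (H : Cuts D N A B a aN e) (M : Finset (Fin m)) {T : Type} (Y : D.Ω → T)
    (kap : D.Ω → Pl m) (hk : CH D.p kap (fun ω => (Y ω, D.z ω)) ≤ e)
    (hs : ∀ x ∉ M, Det D.p (fun ω => (Y ω, D.z ω)) (fun ω => D.s ω x))
    (hh : ∀ x ∉ M, CH D.p (D.ht x) (fun ω => (Y ω, D.z ω)) ≤ e)
    (hV : M.card * (D.X * Real.log 2) - 3 * e ≤ CH D.p D.V (fun ω => (Y ω, D.z ω)))
    (hn : mi D.p D.nu Y (fun ω => (D.V ω, D.z ω)) ≤ 5 * e) :
    CH D.p kap (fun ω => (D.out M ω, D.z ω)) ≤
      CH D.p kap (fun ω => (D.nu ω, (D.on M ω, (D.out M ω, D.z ω)))) + (m + 11) * e := by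
  classical
  have hp := H.isLaw.nonneg
  have he := H.e0
  -- the base
  have a1 := on_low H M (fun ω => (Y ω, D.z ω)) (fun _ => ())
    (by
      rw [CH_eq_zero hp fun _ _ _ _ _ => rfl]
      exact he) kap hk (fun _ _ _ _ h => (Prod.ext_iff.1 h).2) hs hh
  have a2 : CH D.p (D.on M) (fun ω => ((), (kap ω, (D.out M ω, D.z ω)))) ≤
      CH D.p (D.on M) (fun ω => (kap ω, (D.out M ω, D.z ω))) :=
    CH_mono_cond hp fun _ _ _ _ h => (Prod.ext_iff.1 h).2
  have a3 := on_le D H.V_lt M H.isLaw (f := id) (fun ω => (D.out M ω, D.z ω))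
  have a4 : CH D.p (fun ω => D.on M (id ω)) (fun ω => (D.out M ω, D.z ω)) =
      CH D.p (D.on M) (fun ω => (D.out M ω, D.z ω)) := rfl
  rw [a4] at a3
  have a5 : mi D.p (D.on M) kap (fun ω => (D.out M ω, D.z ω)) ≤ (m + 5) * e := by
    unfold mi
    linarith
  -- the height
  have b1 : mi D.p kap D.nu (fun ω => (D.on M ω, (D.out M ω, D.z ω))) ≤ 6 * e := by
    have c1 : mi D.p kap D.nu (fun ω => (D.on M ω, (D.out M ω, D.z ω))) ≤
        mi D.p kap D.nu (fun ω => ((fun x : Fin m => if x ∈ M then none else some (D.s ω x)),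
          (D.V ω, D.z ω))) := by
      refine mi_mono hp (fun _ _ _ _ h => (Prod.ext_iff.mp h).1)
        (fun _ _ _ _ h => (Prod.ext_iff.mp h).1) ?_ ?_
      · intro ω ω' _ _ h
        have e1 := Prod.ext_iff.1 h
        have e2 := Prod.ext_iff.1 e1.2
        have e3 : D.V ω = D.V ω' := e2.1
        refine Prod.ext ?_ (Prod.ext ?_ e2.2)
        · funext x
          simp only [Dat.on, e3]
        · funext x
          have e4 := congrFun e1.1 x
          simp only [Dat.out]
          by_cases hx : x ∈ M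
          · rw [if_pos hx, if_pos hx]
          · rw [if_neg hx, if_neg hx]
            simp only [if_neg hx] at e4
            have e5 : D.s ω x = D.s ω' x := Option.some.inj e4
            have e6 : D.v ω = D.v ω' := by
              funext y
              simp only [Dat.v, e3]
            simp only [Dat.ht, e5, e6]
      · intro ω ω' _ _ h
        have e1 := Prod.ext_iff.1 h
        have e2 := Prod.ext_iff.1 e1.2
        refine Prod.ext ?_ (Prod.ext (D.V_det_out H.s_vars e2.1 e1.1) e2.2)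
        funext x
        by_cases hx : x ∈ M
        · simp only [if_pos hx]
        · simp only [if_neg hx]
          rw [(D.out_some e2.1 hx).2]
    have c2 := mi_cond_le' hp kap (fun ω (x : Fin m) => if x ∈ M then none else some (D.s ω x))
      D.nu (fun ω => (D.V ω, D.z ω))
    have c3 : mi D.p (fun ω => (kap ω, fun x : Fin m => if x ∈ M then none else some (D.s ω x)))
        D.nu (fun ω => (D.V ω, D.z ω)) ≤
        mi D.p (fun ω => (Y ω, kap ω)) D.nu (fun ω => (D.V ω, D.z ω)) := by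
      refine mi_mono hp ?_ (fun _ _ _ _ h => (Prod.ext_iff.mp h).1) (fun _ _ _ _ h => h)
        (fun _ _ _ _ h => h)
      intro ω ω' p1 p2 h
      have e1 := Prod.ext_iff.1 h
      have e3 := Prod.ext_iff.1 e1.1
      have e2 : (fun ω => (Y ω, D.z ω)) ω = (fun ω => (Y ω, D.z ω)) ω' :=
        Prod.ext e3.1 (Prod.ext_iff.1 e1.2).2
      refine Prod.ext e3.2 ?_
      funext x
      by_cases hx : x ∈ M
      · simp only [if_pos hx]
      · simp only [if_neg hx]
        exact congrArg some (hs x hx ω ω' p1 p2 e2)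
    have c4 := mi_symm hp (fun ω => (Y ω, kap ω)) D.nu (fun ω => (D.V ω, D.z ω))
    have c5 := mi_pr hp D.nu Y kap (fun ω => (D.V ω, D.z ω))
    have c6 : mi D.p D.nu kap (fun ω => (Y ω, (D.V ω, D.z ω))) ≤ e := by
      rw [mi_symm hp]
      unfold mi
      have d1 := CH_nonneg hp kap (fun ω => (D.nu ω, (Y ω, (D.V ω, D.z ω))))
      have d2 : CH D.p kap (fun ω => (Y ω, (D.V ω, D.z ω))) ≤
          CH D.p kap (fun ω => (Y ω, D.z ω)) := by
        refine CH_mono_cond hp fun ω ω' _ _ h => ?_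
        have e1 := Prod.ext_iff.1 h
        exact Prod.ext e1.1 (Prod.ext_iff.1 e1.2).2
      linarith
    linarith
  -- together
  have d1 := mi_pr hp kap (D.on M) D.nu (fun ω => (D.out M ω, D.z ω))
  have d2 := mi_symm hp kap (D.on M) (fun ω => (D.out M ω, D.z ω))
  have d3 : CH D.p kap (fun ω => ((D.on M ω, D.nu ω), (D.out M ω, D.z ω))) =
      CH D.p kap (fun ω => (D.nu ω, (D.on M ω, (D.out M ω, D.z ω)))) := by
    refine CH_congr hp (fun _ _ _ _ h => (Prod.ext_iff.mp h).1)
      (fun _ _ _ _ h => (Prod.ext_iff.mp h).1) ?_ ?_ <;>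
    · intro ω ω' _ _ h
      simp only [Prod.mk.injEq] at h ⊢
      tauto
  have d4 : mi D.p kap (fun ω => (D.on M ω, D.nu ω)) (fun ω => (D.out M ω, D.z ω)) =
      CH D.p kap (fun ω => (D.out M ω, D.z ω)) -
        CH D.p kap (fun ω => ((D.on M ω, D.nu ω), (D.out M ω, D.z ω))) := rfl
  rw [d3] at d4
  linarith

/-- **The own leaf over the coordinates of larger ratio.** -/
theorem preA (H : Cuts D N A B a aN e) (M : Finset (Fin m)) (hM : ∀ x, x ∈ M ↔ aN < a x)
    (kap : D.Ω → Pl m) (h : ℕ) (hk : CH D.p kap (fun ω => (A aN ω, D.z ω)) ≤ e)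
    (hF : CH D.p (D.hF h kap) (fun ω => (A (aN + 1) ω, D.z ω)) ≤ e) :
    CH D.p kap (fun ω => (D.out M ω, D.z ω)) ≤
        CH D.p kap (fun ω => (D.nu ω, (D.on M ω, (D.out M ω, D.z ω)))) + (m + 11) * e ∧
      M.card * (D.X * Real.log 2) - (m + 11) * e ≤
        CH D.p (D.on M) (fun ω => (D.hF h kap ω, (kap ω, (D.out M ω, D.z ω)))) := by
  have hp := H.isLaw.nonneg
  have he := H.e0
  have hN := H.aN_lt
  have hx : ∀ x ∉ M, a x < aN := fun x hx => by
    have h1 := (hM x).not.1 hx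
    have h2 := H.hne x
    omega
  have s1 : ∀ x ∉ M, Det D.p (fun ω => (A aN ω, D.z ω)) (fun ω => D.s ω x) := by
    intro x hx' ω ω' p1 p2 h1
    have e1 := Prod.ext_iff.1 h1
    exact H.sA x (hx x hx') ω ω' p1 p2
      (Prod.ext (H.Am (a x + 1) aN (hx x hx') hN.le ω ω' p1 p2 e1.1) e1.2)
  have s2 : ∀ x ∉ M, CH D.p (D.ht x) (fun ω => (A aN ω, D.z ω)) ≤ e := by
    intro x hx'
    refine le_trans (CH_mono_cond hp fun ω ω' p1 p2 h1 => ?_) (H.hA x (hx x hx'))
    have e1 := Prod.ext_iff.1 h1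
    exact Prod.ext (H.Am (a x + 1) aN (hx x hx') hN.le ω ω' p1 p2 e1.1) e1.2
  have mono : Det D.p (fun ω => (A (aN + 1) ω, D.z ω)) (fun ω => (A aN ω, D.z ω)) := by
    intro ω ω' p1 p2 h1
    have e1 := Prod.ext_iff.1 h1
    exact Prod.ext (H.Am aN (aN + 1) (Nat.le_succ _) hN ω ω' p1 p2 e1.1) e1.2
  have c1 : (univ.filter fun x => aN ≤ a x) = M := by
    ext x
    have := H.hne x
    rw [mem_filter, hM x]
    simp only [mem_univ, true_and]
    omega
  have c2 : (univ.filter fun x => aN + 1 ≤ a x) = M := by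
    ext x
    rw [mem_filter, hM x]
    simp only [mem_univ, true_and]
    omega
  have v1 := H.lowA (k := aN) hN.le
  have v2 := H.lowA (k := aN + 1) hN
  rw [c1] at v1
  rw [c2] at v2
  refine ⟨kap_ind H M (A aN) kap hk s1 s2 v1 (H.nuA_le le_rfl), ?_⟩
  have h1 := on_low H M (fun ω => (A (aN + 1) ω, D.z ω)) (D.hF h kap) hF kap
    ((CH_mono_cond hp mono).trans hk)
    (fun _ _ _ _ h2 => (Prod.ext_iff.1 h2).2)
    (fun x hx' ω ω' p1 p2 h2 => s1 x hx' ω ω' p1 p2 (mono ω ω' p1 p2 h2))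
    (fun x hx' => (CH_mono_cond hp mono).trans (s2 x hx'))
  linarith

/-- **The own leaf over the coordinates of smaller ratio.** -/
theorem preB (H : Cuts D N A B a aN e) (M : Finset (Fin m)) (hM : ∀ x, x ∈ M ↔ a x < aN)
    (kap : D.Ω → Pl m) (h : ℕ) (hk : CH D.p kap (fun ω => (B (aN + 1) ω, D.z ω)) ≤ e)
    (hF : CH D.p (D.hF h kap) (fun ω => (B aN ω, D.z ω)) ≤ e) :
    CH D.p kap (fun ω => (D.out M ω, D.z ω)) ≤
        CH D.p kap (fun ω => (D.nu ω, (D.on M ω, (D.out M ω, D.z ω)))) + (m + 11) * e ∧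
      M.card * (D.X * Real.log 2) - (m + 11) * e ≤
        CH D.p (D.on M) (fun ω => (D.hF h kap ω, (kap ω, (D.out M ω, D.z ω)))) := by
  have hp := H.isLaw.nonneg
  have he := H.e0
  have hN := H.aN_lt
  have hx : ∀ x ∉ M, aN < a x := fun x hx => by
    have h1 := (hM x).not.1 hx
    have h2 := H.hne x
    omega
  have s1 : ∀ x ∉ M, Det D.p (fun ω => (B (aN + 1) ω, D.z ω)) (fun ω => D.s ω x) := by
    intro x hx' ω ω' p1 p2 h1
    have e1 := Prod.ext_iff.1 h1
    have h3 := hx x hx'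
    have h4 := H.a_lt x
    exact H.sB x h3 ω ω' p1 p2
      (Prod.ext (H.Bm (aN + 1) (a x) (by omega) (by omega) ω ω' p1 p2 e1.1) e1.2)
  have s2 : ∀ x ∉ M, CH D.p (D.ht x) (fun ω => (B (aN + 1) ω, D.z ω)) ≤ e := by
    intro x hx'
    have h3 := hx x hx'
    have h4 := H.a_lt x
    refine le_trans (CH_mono_cond hp fun ω ω' p1 p2 h1 => ?_) (H.hB x h3)
    have e1 := Prod.ext_iff.1 h1
    exact Prod.ext (H.Bm (aN + 1) (a x) (by omega) (by omega) ω ω' p1 p2 e1.1) e1.2
  have mono : Det D.p (fun ω => (B aN ω, D.z ω)) (fun ω => (B (aN + 1) ω, D.z ω)) := by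
    intro ω ω' p1 p2 h1
    have e1 := Prod.ext_iff.1 h1
    exact Prod.ext (H.Bm aN (aN + 1) (Nat.le_succ _) hN ω ω' p1 p2 e1.1) e1.2
  have c1 : (univ.filter fun x => a x < aN) = M := by
    ext x
    rw [mem_filter, hM x]
    simp only [mem_univ, true_and]
  have c2 : (univ.filter fun x => a x < aN + 1) = M := by
    ext x
    have := H.hne x
    rw [mem_filter, hM x]
    simp only [mem_univ, true_and]
    omega
  have v1 := H.lowB (k := aN + 1) hN
  have v2 := H.lowB (k := aN) hN.le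
  rw [c2] at v1
  rw [c1] at v2
  refine ⟨kap_ind H M (B (aN + 1)) kap hk s1 s2 v1 (H.nuB_le (Nat.lt_succ_self _) hN), ?_⟩
  have h1 := on_low H M (fun ω => (B aN ω, D.z ω)) (D.hF h kap) hF kap
    ((CH_mono_cond hp mono).trans hk)
    (fun _ _ _ _ h2 => (Prod.ext_iff.1 h2).2)
    (fun x hx' ω ω' p1 p2 h2 => s1 x hx' ω ω' p1 p2 (mono ω ω' p1 p2 h2))
    (fun x hx' => (CH_mono_cond hp mono).trans (s2 x hx'))
  linarith

/-! ### The ranks -/

/-- The side: smaller ratio than the target. -/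
def sdc (a : Fin m → ℕ) (aN : ℕ) (c : Fin m) : Bool := decide (a c < aN)

/-- The coordinate `x` is closer to the target than `c`: nearer ratio, or the same ratio and a
larger index. -/
def clo (a : Fin m → ℕ) (aN : ℕ) (c x : Fin m) : Prop :=
  (a c < aN ∧ a x < aN ∧ (a c < a x ∨ a x = a c ∧ c < x)) ∨
    (aN ≤ a c ∧ aN ≤ a x ∧ (a x < a c ∨ a x = a c ∧ c < x))

open Classical in
/-- The rank. -/
noncomputable def rkc (a : Fin m → ℕ) (aN : ℕ) (c : Fin m) : ℕ :=
  (univ.filter fun x => clo a aN c x).card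

theorem rkc_lt {a : Fin m → ℕ} {aN : ℕ} {c x : Fin m} (h : clo a aN c x) :
    rkc a aN x < rkc a aN c := by
  classical
  unfold rkc
  refine Finset.card_lt_card (Finset.ssubset_iff_subset_ne.2 ⟨?_, ?_⟩)
  · intro y hy
    rw [mem_filter] at hy ⊢
    refine ⟨mem_univ _, ?_⟩
    have h1 := hy.2
    unfold clo at h h1 ⊢
    omega
  · intro h1
    have h2 : x ∈ univ.filter fun y => clo a aN c y := mem_filter.2 ⟨mem_univ _, h⟩
    rw [← h1, mem_filter] at h2
    have h3 := h2.2
    unfold clo at h3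
    omega

theorem clo_tri {a : Fin m → ℕ} {aN : ℕ} {c x : Fin m} (h : sdc a aN c = sdc a aN x)
    (hne : c ≠ x) : clo a aN c x ∨ clo a aN x c := by
  unfold sdc at h
  have h1 : (a c < aN ↔ a x < aN) := by
    by_cases h2 : a c < aN <;> by_cases h3 : a x < aN <;> simp [h2, h3] at h ⊢
  have h4 : (c : ℕ) ≠ x := fun h5 => hne (Fin.ext h5)
  unfold clo
  simp only [Fin.lt_def]
  omega

theorem rkc_inj {a : Fin m → ℕ} {aN : ℕ} {c x : Fin m} (h : rkc a aN c = rkc a aN x)
    (hs : sdc a aN c = sdc a aN x) : c = x := by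
  by_contra hne
  rcases clo_tri hs hne with h1 | h1
  · have := rkc_lt h1
    omega
  · have := rkc_lt h1
    omega

/-- The rank determines the order. -/
theorem clo_of_lt {a : Fin m → ℕ} {aN : ℕ} {c x : Fin m} (h : rkc a aN x < rkc a aN c)
    (hs : sdc a aN c = sdc a aN x) : clo a aN c x := by
  have hne : c ≠ x := fun h1 => by
    subst h1
    omega
  rcases clo_tri hs hne with h1 | h1
  · exact h1
  · have := rkc_lt h1
    omega

/-- **Fullness in the form of STEP V.** -/
theorem ful_rk (m K : ℕ) : ∃ C : ℝ, 1 ≤ C ∧ ∀ (D : Dat m) {Γ : Type} (N : ℕ)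
    (A B : ℕ → D.Ω → Γ) (a : Fin m → ℕ) (aN : ℕ) (e b : ℝ), Cuts D N A B a aN e → 0 ≤ b →
    Hyp D K b (10 * e) → ∀ i j, ∀ c c', sdc a aN c = true → sdc a aN c' = false →
      rkc a aN c = i → rkc a aN c' = j →
      FulM D (univ.filter fun x => (sdc a aN x = true ∧ rkc a aN x ≤ i) ∨
        (sdc a aN x = false ∧ rkc a aN x ≤ j)) c c' (C * (e + b + 1)) := by
  classical
  obtain ⟨C, hC, h⟩ := ful m K
  refine ⟨C, hC, ?_⟩
  intro D Γ N A B a aN e b H hb hH i j c c' hc hc' hi hj
  have h1 : a c < aN := by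
    unfold sdc at hc
    simpa using hc
  have h2 : aN < a c' := by
    unfold sdc at hc'
    have h3 : ¬ a c' < aN := by simpa using hc'
    have := H.hne c'
    omega
  have sdt : ∀ x, sdc a aN x = true ↔ a x < aN := fun x => by
    unfold sdc
    simp
  have sdf : ∀ x, sdc a aN x = false ↔ aN < a x := fun x => by
    unfold sdc
    have := H.hne x
    simp only [decide_eq_false_iff_not, not_lt]
    omega
  refine h D N A B a aN e b H hb hH _ c c' h1 h2 ?_ ?_ ?_
  · intro x hx
    rw [mem_filter, not_and] at hx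
    have hx' := hx (mem_univ _)
    push Not at hx'
    rcases lt_or_gt_of_ne (H.hne x) with h3 | h3
    · left
      have h4 := hx'.1 ((sdt x).2 h3)
      have h5 := clo_of_lt (a := a) (aN := aN) (c := x) (x := c) (by omega)
        (((sdt x).2 h3).trans hc.symm)
      unfold clo at h5
      omega
    · right
      have h4 := hx'.2 ((sdf x).2 h3)
      have h5 := clo_of_lt (a := a) (aN := aN) (c := x) (x := c') (by omega)
        (((sdf x).2 h3).trans hc'.symm)
      unfold clo at h5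
      omega
  · intro x hx
    rw [mem_filter] at hx
    rcases hx.2 with ⟨h3, h4⟩ | ⟨h3, h4⟩
    · have h5 := (sdt x).1 h3
      refine ⟨?_, by omega⟩
      by_contra h6
      have h7 : clo a aN x c := by
        unfold clo
        omega
      have := rkc_lt h7
      omega
    · have h5 := (sdf x).1 h3
      refine ⟨by omega, ?_⟩
      by_contra h6
      have h7 : clo a aN x c' := by
        unfold clo
        omega
      have := rkc_lt h7
      omega
  · intro x l h3 h4 hl
    rw [mem_filter] at hl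
    have h5 : clo a aN l x := by
      have := H.hne l
      unfold clo
      omega
    have h6 := rkc_lt h5
    have h7 := H.hne l
    rw [mem_filter, sdt, sdf]
    have h8 := hl.2
    rw [sdt, sdf] at h8
    refine ⟨⟨mem_univ _, by omega⟩, ?_, ?_⟩
    · intro h9
      subst h9
      omega
    · intro h9
      subst h9
      omega

end Cuts

end cuts

end Pool.GSD
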