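import Mathlib

/-!
# The directions of the cuts

`n` coordinates with slopes `lam`, `gam`; ratios `gam l / lam l`. Directions `(-x k, v)`: on the
cut `k` the coordinates with `a l < k` get deeper, the others coarser, with large margins except at
the neighbouring ratio.
-/

set_option autoImplicit false

namespace Pool.GSD

open Finset

/-- The cuts. -/
structure Dirs (n : ℕ) (lam gam : ℕ → ℝ) (W : ℝ) (N v : ℕ) (x : ℕ → ℤ) (a : ℕ → ℕ) : Prop where
  a_lt : ∀ l, 1 ≤ l → l ≤ n → a l < N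
  ev : ∀ l, 2 ∣ a l
  ne : ∀ l, 1 ≤ l → l < n → a l ≠ a n
  anti : ∀ k k', k ≤ k' → k' ≤ N → x k' ≤ x k
  p1 : ∀ k ≤ N, ∀ l, 1 ≤ l → l ≤ n → a l < k → lam l ≤ gam l * v - lam l * x k
  p2 : ∀ k ≤ N, ∀ l, 1 ≤ l → l ≤ n → k ≤ a l → gam l * v - lam l * x k ≤ -lam l
  p3 : ∀ k ≤ N, ∀ l, 1 ≤ l → l ≤ n → a l + 2 ≤ k → W ≤ gam l * v - lam l * x k
  p4 : ∀ k ≤ N, ∀ l, 1 ≤ l → l ≤ n → k < a l → gam l * v - lam l * x k ≤ -W
  p5 : ∀ l, 1 ≤ l → l ≤ n → -(2 * lam l) ≤ gam l * v - lam l * x (a l)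
  p6 : ∀ l, 1 ≤ l → l ≤ n → gam l * v - lam l * x (a l + 1) ≤ 2 * lam l

theorem gap (I : Finset ℝ) : ∃ δ : ℝ, 0 < δ ∧ ∀ y ∈ I, ∀ y' ∈ I, y < y' → y + δ ≤ y' := by
  classical
  by_cases h : ((I ×ˢ I).filter fun p : ℝ × ℝ => p.1 < p.2).Nonempty
  · obtain ⟨p, hp, hm⟩ := exists_min_image _ (fun p : ℝ × ℝ => p.2 - p.1) h
    rw [mem_filter] at hp
    refine ⟨p.2 - p.1, sub_pos.2 hp.2, fun y hy y' hy' hlt => ?_⟩
    have := hm (y, y') (mem_filter.2 ⟨mem_product.2 ⟨hy, hy'⟩, hlt⟩)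
    simp only at this
    linarith
  · refine ⟨1, one_pos, fun y hy y' hy' hlt => absurd ⟨(y, y'), ?_⟩ h⟩
    exact mem_filter.2 ⟨mem_product.2 ⟨hy, hy'⟩, hlt⟩

/-- The ranks. -/
theorem ranks (I : Finset ℝ) : ∃ (rk : ℝ → ℕ) (r : ℕ → ℝ), (∀ y ∈ I, rk y < I.card) ∧
    (∀ t < I.card, r t ∈ I ∧ rk (r t) = t) ∧ (∀ y ∈ I, ∀ y' ∈ I, y < y' → rk y' < rk y) := by
  classical
  obtain ⟨rk, hrk⟩ : ∃ rk : ℝ → ℕ, rk = fun y => (I.filter fun y' => y < y').card := ⟨_, rfl⟩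
  have h1 : ∀ y ∈ I, rk y < I.card := by
    intro y hy
    rw [hrk]
    refine card_lt_card (Finset.ssubset_iff_subset_ne.2 ⟨filter_subset _ _, fun h => ?_⟩)
    have : y ∈ I.filter fun y' => y < y' := by
      rw [h]
      exact hy
    exact lt_irrefl y (mem_filter.1 this).2
  have h3 : ∀ y ∈ I, ∀ y' ∈ I, y < y' → rk y' < rk y := by
    intro y _ y' hy' hlt
    rw [hrk]
    refine card_lt_card (Finset.ssubset_iff_subset_ne.2 ⟨fun w hw => ?_, fun h => ?_⟩)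
    · rw [mem_filter] at hw ⊢
      exact ⟨hw.1, hlt.trans hw.2⟩
    · have : y' ∈ I.filter fun w => y' < w := by
        rw [h]
        exact mem_filter.2 ⟨hy', hlt⟩
      exact lt_irrefl y' (mem_filter.1 this).2
  have hinj : Set.InjOn rk I := by
    intro y hy y' hy' h
    rcases lt_trichotomy y y' with h4 | h4 | h4
    · have := h3 y hy y' hy' h4
      omega
    · exact h4
    · have := h3 y' hy' y hy h4
      omega
  have himg : I.image rk = range I.card := by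
    refine eq_of_subset_of_card_le ?_ ?_
    · intro t ht
      obtain ⟨y, hy, rfl⟩ := mem_image.1 ht
      exact mem_range.2 (h1 y hy)
    · rw [card_range, card_image_of_injOn hinj]
  have hs : ∀ t, ∃ y, t < I.card → y ∈ I ∧ rk y = t := by
    intro t
    by_cases ht : t < I.card
    · have : t ∈ I.image rk := by
        rw [himg]
        exact mem_range.2 ht
      obtain ⟨y, hy, h⟩ := mem_image.1 this
      exact ⟨y, fun _ => ⟨hy, h⟩⟩
    · exact ⟨0, fun h => absurd h ht⟩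
  choose r hr using hs
  exact ⟨rk, r, h1, hr, h3⟩

/-- **The directions of the cuts.** -/
theorem dirs (n : ℕ) (lam gam : ℕ → ℝ) (W : ℝ) (hn : 1 ≤ n) (hlam : ∀ l, 1 ≤ lam l)
    (hno : ∀ l, 1 ≤ l → l < n → gam l * lam n ≠ gam n * lam l) :
    ∃ (N v : ℕ) (x : ℕ → ℤ) (a : ℕ → ℕ), Dirs n lam gam W N v x a := by
  classical
  obtain ⟨ρ, hρ⟩ : ∃ ρ : ℕ → ℝ, ρ = fun l => gam l / lam l := ⟨_, rfl⟩
  obtain ⟨I, hI⟩ : ∃ I : Finset ℝ, I = (Icc 1 n).image ρ := ⟨_, rfl⟩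
  obtain ⟨δ, hδ, hgap⟩ := gap I
  obtain ⟨rk, r, h1, h2, h3⟩ := ranks I
  obtain ⟨v, hv⟩ := exists_nat_ge ((|W| + 5) / δ)
  have hl0 : ∀ l, 0 < lam l := fun l => by linarith [hlam l]
  have hvδ : |W| + 5 ≤ v * δ := by
    rw [div_le_iff₀ hδ] at hv
    exact hv
  have hv0 : (0 : ℝ) ≤ v := Nat.cast_nonneg v
  have hWa : 0 ≤ |W| := abs_nonneg W
  have hWW : W ≤ |W| := le_abs_self W
  have hmem : ∀ l, 1 ≤ l → l ≤ n → ρ l ∈ I := fun l a b => by
    rw [hI]
    exact mem_image_of_mem _ (mem_Icc.2 ⟨a, b⟩)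
  have hpos : 0 < I.card := card_pos.2 ⟨_, hmem n hn le_rfl⟩
  obtain ⟨x, hx⟩ : ∃ x : ℕ → ℤ, x = fun k => if k % 2 = 0 then ⌊v * r (k / 2)⌋ + 2 else
      ⌈v * r (k / 2)⌉ - 2 := ⟨_, rfl⟩
  have xu : ∀ k, (x k : ℝ) ≤ v * r (k / 2) + 2 := by
    intro k
    rw [hx]
    simp only
    split_ifs
    · push_cast
      linarith [Int.floor_le ((v : ℝ) * r (k / 2))]
    · push_cast
      linarith [Int.ceil_lt_add_one ((v : ℝ) * r (k / 2))]
  have xl : ∀ k, (v : ℝ) * r (k / 2) - 2 ≤ x k := by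
    intro k
    rw [hx]
    simp only
    split_ifs
    · push_cast
      linarith [Int.lt_floor_add_one ((v : ℝ) * r (k / 2))]
    · push_cast
      linarith [Int.le_ceil ((v : ℝ) * r (k / 2))]
  have lt_of : ∀ y ∈ I, ∀ t < I.card, rk y < t → r t + δ ≤ y := by
    intro y hy t ht hlt
    refine hgap _ (h2 t ht).1 y hy ?_
    rcases lt_trichotomy (r t) y with h4 | h4 | h4
    · exact h4
    · rw [← h4, (h2 t ht).2] at hlt
      omega
    · have := h3 y hy _ (h2 t ht).1 h4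
      rw [(h2 t ht).2] at this
      omega
  have gt_of : ∀ y ∈ I, ∀ t < I.card, t < rk y → y + δ ≤ r t := by
    intro y hy t ht hlt
    refine hgap y hy _ (h2 t ht).1 ?_
    rcases lt_trichotomy (r t) y with h4 | h4 | h4
    · have := h3 _ (h2 t ht).1 y hy h4
      rw [(h2 t ht).2] at this
      omega
    · rw [← h4, (h2 t ht).2] at hlt
      omega
    · exact h4
  have eq_of : ∀ y ∈ I, r (rk y) = y := by
    intro y hy
    have ht := h1 y hy
    rcases lt_trichotomy (r (rk y)) y with h4 | h4 | h4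
    · have := h3 _ (h2 _ ht).1 y hy h4
      rw [(h2 _ ht).2] at this
      omega
    · exact h4
    · have := h3 y hy _ (h2 _ ht).1 h4
      rw [(h2 _ ht).2] at this
      omega
  have mul_v : ∀ y y' : ℝ, y + δ ≤ y' → v * y + (|W| + 5) ≤ v * y' := by
    intro y y' h
    have := mul_le_mul_of_nonneg_left h hv0
    rw [mul_add] at this
    linarith
  have hmu : ∀ l k, gam l * v - lam l * x k = lam l * (v * ρ l - x k) := by
    intro l k
    rw [hρ]
    simp only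
    have := (hl0 l).ne'
    field_simp
  have hev : ∀ l, (2 * rk (ρ l)) / 2 = rk (ρ l) := fun l => Nat.mul_div_cancel_left _ (by norm_num)
  -- the four cases
  have c1 : ∀ l, 1 ≤ l → l ≤ n → -2 ≤ v * ρ l - x (2 * rk (ρ l)) ∧
      v * ρ l - x (2 * rk (ρ l)) ≤ -1 := by
    intro l l1 l2
    have e : x (2 * rk (ρ l)) = ⌊v * ρ l⌋ + 2 := by
      rw [hx]
      simp only
      rw [if_pos (by omega), hev, eq_of _ (hmem l l1 l2)]
    rw [e]
    push_cast
    constructor <;> linarith [Int.floor_le ((v : ℝ) * ρ l), Int.lt_floor_add_one ((v : ℝ) * ρ l)]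
  have c2 : ∀ l, 1 ≤ l → l ≤ n → 1 ≤ v * ρ l - x (2 * rk (ρ l) + 1) ∧
      v * ρ l - x (2 * rk (ρ l) + 1) ≤ 2 := by
    intro l l1 l2
    have e : x (2 * rk (ρ l) + 1) = ⌈v * ρ l⌉ - 2 := by
      rw [hx]
      simp only
      rw [if_neg (by omega), show (2 * rk (ρ l) + 1) / 2 = rk (ρ l) by omega,
        eq_of _ (hmem l l1 l2)]
    rw [e]
    push_cast
    constructor <;> linarith [Int.le_ceil ((v : ℝ) * ρ l), Int.ceil_lt_add_one ((v : ℝ) * ρ l)]
  have c3 : ∀ k ≤ 2 * I.card - 1, ∀ l, 1 ≤ l → l ≤ n → 2 * rk (ρ l) + 2 ≤ k →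
      |W| + 3 ≤ v * ρ l - x k := by
    intro k hk l l1 l2 h
    have h5 := lt_of _ (hmem l l1 l2) (k / 2) (by omega) (by omega)
    have h6 := mul_v _ _ h5
    linarith [xu k]
  have c4 : ∀ k ≤ 2 * I.card - 1, ∀ l, 1 ≤ l → l ≤ n → k < 2 * rk (ρ l) →
      v * ρ l - x k ≤ -(|W| + 3) := by
    intro k hk l l1 l2 h
    have h5 := gt_of _ (hmem l l1 l2) (k / 2) (by omega) (by omega)
    have h6 := mul_v _ _ h5
    linarith [xl k]
  have hge : ∀ l (c : ℝ), 0 ≤ c → c ≤ lam l * c := fun l c hc => by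
    nlinarith [hlam l]
  refine ⟨2 * I.card - 1, v, x, fun l => 2 * rk (ρ l), ⟨?_, ?_, ?_, ?_, ?_, ?_, ?_, ?_, ?_, ?_⟩⟩
  · intro l l1 l2
    have := h1 _ (hmem l l1 l2)
    omega
  · intro l
    exact Dvd.intro _ rfl
  · intro l l1 l2 he
    have he' : rk (ρ l) = rk (ρ n) := by omega
    have e1 := eq_of _ (hmem l l1 l2.le)
    rw [he', eq_of _ (hmem n hn le_rfl), hρ] at e1
    simp only at e1
    rw [div_eq_div_iff (hl0 n).ne' (hl0 l).ne'] at e1
    exact hno l l1 l2 e1.symm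
  · intro k k' hk hk'
    rcases Nat.lt_or_ge (k / 2) (k' / 2) with h | h
    · have h5 : r (k' / 2) + δ ≤ r (k / 2) := by
        refine lt_of _ (h2 _ (by omega)).1 _ (by omega) ?_
        rw [(h2 _ (by omega)).2]
        exact h
      have h6 := mul_v _ _ h5
      have h7 : (x k' : ℝ) ≤ x k := by
        linarith [xu k', xl k]
      exact_mod_cast h7
    · have e : k' / 2 = k / 2 := by omega
      rw [hx]
      simp only
      rw [e]
      have h8 : ⌈(v : ℝ) * r (k / 2)⌉ ≤ ⌊(v : ℝ) * r (k / 2)⌋ + 1 := Int.ceil_le_floor_add_one _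
      have h9 : ⌊(v : ℝ) * r (k / 2)⌋ ≤ ⌈(v : ℝ) * r (k / 2)⌉ := Int.floor_le_ceil _
      by_cases p : k % 2 = 0 <;> by_cases p' : k' % 2 = 0
      · rw [if_pos p, if_pos p']
      · rw [if_pos p, if_neg p']
        omega
      · omega
      · rw [if_neg p, if_neg p']
  · intro k hk l l1 l2 h
    rw [hmu]
    rcases Nat.lt_or_ge k (2 * rk (ρ l) + 2) with h5 | h5
    · have e : k = 2 * rk (ρ l) + 1 := by omega
      rw [e]
      have := (c2 l l1 l2).1
      nlinarith [hlam l]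
    · have := c3 k hk l l1 l2 h5
      nlinarith [hlam l]
  · intro k hk l l1 l2 h
    rw [hmu]
    rcases Nat.lt_or_ge k (2 * rk (ρ l)) with h5 | h5
    · have := c4 k hk l l1 l2 h5
      nlinarith [hlam l]
    · have e : k = 2 * rk (ρ l) := by omega
      rw [e]
      have := (c1 l l1 l2).2
      nlinarith [hlam l]
  · intro k hk l l1 l2 h
    rw [hmu]
    have h5 := c3 k hk l l1 l2 h
    have h6 := hge l _ (show 0 ≤ v * ρ l - x k by linarith)
    linarith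
  · intro k hk l l1 l2 h
    rw [hmu]
    have h5 := c4 k hk l l1 l2 h
    have h6 := hge l _ (show 0 ≤ -(v * ρ l - x k) by linarith)
    linarith
  · intro l l1 l2
    rw [hmu]
    have := (c1 l l1 l2).1
    nlinarith [hlam l]
  · intro l l1 l2
    rw [hmu]
    have := (c2 l l1 l2).2
    nlinarith [hlam l]

end Pool.GSD
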