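import Mathlib

/-!
# Rounding of polynomials

`rnd X F`: all coefficients of `F` are rounded down to `X` digits.
-/

set_option autoImplicit false

namespace Pool.GSD

open Finset MvPolynomial

variable {σ : Type}

/-- The coefficients rounded down to `X` digits. -/
noncomputable def rnd (X : ℕ) (F : MvPolynomial σ ℝ) : MvPolynomial σ ℝ :=
  ∑ α ∈ F.support, monomial α ((⌊(2 : ℝ) ^ X * coeff α F⌋ : ℝ) / 2 ^ X)

theorem coeff_rnd (X : ℕ) (F : MvPolynomial σ ℝ) (α : σ →₀ ℕ) :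
    coeff α (rnd X F) = (⌊(2 : ℝ) ^ X * coeff α F⌋ : ℝ) / 2 ^ X := by
  classical
  unfold rnd
  rw [coeff_sum]
  simp_rw [coeff_monomial]
  by_cases h : α ∈ F.support
  · rw [Finset.sum_eq_single α (fun β _ hβ => if_neg hβ) (fun h' => absurd h h'), if_pos rfl]
  · rw [Finset.sum_eq_zero (fun β hβ => if_neg (by
      intro e
      rw [e] at hβ
      exact h hβ)), notMem_support_iff.1 h,
      mul_zero, Int.floor_zero, Int.cast_zero, zero_div]

theorem rnd_near (X : ℕ) (F : MvPolynomial σ ℝ) (α : σ →₀ ℕ) :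
    |coeff α (rnd X F) - coeff α F| ≤ 1 / 2 ^ X := by
  have hp : (0 : ℝ) < 2 ^ X := by positivity
  have h1 := Int.floor_le ((2 : ℝ) ^ X * coeff α F)
  have h2 := Int.lt_floor_add_one ((2 : ℝ) ^ X * coeff α F)
  rw [coeff_rnd]
  have e : (⌊(2 : ℝ) ^ X * coeff α F⌋ : ℝ) / 2 ^ X - coeff α F =
      ((⌊(2 : ℝ) ^ X * coeff α F⌋ : ℝ) - 2 ^ X * coeff α F) / 2 ^ X := by
    field_simp
  rw [e, abs_div, abs_of_pos hp]
  refine div_le_div_of_nonneg_right ?_ hp.le
  rw [abs_le]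
  constructor <;> linarith

theorem support_rnd (X : ℕ) (F : MvPolynomial σ ℝ) : (rnd X F).support ⊆ F.support := by
  intro α hα
  rw [mem_support_iff] at hα ⊢
  intro h
  refine hα ?_
  rw [coeff_rnd, h, mul_zero, Int.floor_zero, Int.cast_zero, zero_div]

theorem vars_rnd (X : ℕ) (F : MvPolynomial σ ℝ) : (rnd X F).vars ⊆ F.vars := by
  intro i hi
  rw [mem_vars_iff_mem_support] at hi ⊢
  obtain ⟨d, hd, h⟩ := hi
  exact ⟨d, support_rnd X F hd, h⟩

theorem deg_rnd (X : ℕ) (F : MvPolynomial σ ℝ) : (rnd X F).totalDegree ≤ F.totalDegree :=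
  totalDegree_le_of_support_subset (support_rnd X F)

theorem coeff_zero_rnd (X : ℕ) {F : MvPolynomial σ ℝ} (h : coeff 0 F = 0) :
    coeff 0 (rnd X F) = 0 := by
  rw [coeff_rnd, h, mul_zero, Int.floor_zero, Int.cast_zero, zero_div]

theorem cf_rnd {X bb : ℕ} {F : MvPolynomial σ ℝ} {α : σ →₀ ℕ} (h : |coeff α F| ≤ 2 ^ bb) :
    |coeff α (rnd X F)| ≤ 2 ^ (bb + 1) := by
  have h1 := rnd_near X F α
  have h2 : (1 : ℝ) / 2 ^ X ≤ 1 := by
    rw [div_le_one (by positivity)]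
    exact one_le_pow₀ (by norm_num)
  have h3 : (1 : ℝ) ≤ 2 ^ bb := one_le_pow₀ (by norm_num)
  have h4 : |coeff α (rnd X F)| ≤ |coeff α (rnd X F) - coeff α F| + |coeff α F| := by
    have := abs_add_le (coeff α (rnd X F) - coeff α F) (coeff α F)
    rwa [sub_add_cancel] at this
  rw [pow_succ]
  linarith

end Pool.GSD
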