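import Pool.Agent.H24.GSD.Few
import Pool.Agent.H24.GSD.Dir
import Pool.Agent.H24.GSD.Rnd
import Pool.Agent.H24.GSD.Asm
import Pool.Agent.H41.GSD.Shp
import Pool.Agent.H1.TIE.Sub

/-!
# The nested cuts of a cell: statement

The places of the cuts at `b = (i, j)`: far `b ± 2 ^ l • dk x v k`, near `b ± 2 ^ (l - u) • dk x v k`.
`AA`, `BB`: the records at these places. `cD`: the data of STEP V over the visible side of the label
at `b`, context `(rc D b, T)`, with rounded sheets; `cD1`: the same on the support of the law.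
`ClsStmt`: the nested cuts.
-/

set_option autoImplicit false

namespace Pool.GSD.Cls

open Finset Real MvPolynomial
open Pool.Agent.H49.Ent Pool.Agent.H32.Dense Pool.STK Pool.STAT
open Pool.BFL (Pb Pl)
open Pool.TIE (Dat)
open Pool.GSD.Row

/-- The direction of the cut `k`. -/
def dk (x : ℕ → ℤ) (v k : ℕ) : ℤ × ℤ := (-x k, (v : ℤ))

/-- The place. -/
def nt (p : ℤ × ℤ) : ℕ × ℕ := (p.1.toNat, p.2.toNat)

/-- The support. -/
def Sp {Ω : Type} (q : Ω → ℝ) : Type := {ω : Ω // 0 < q ω}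

open Classical in
noncomputable instance {Ω : Type} [Fintype Ω] (q : Ω → ℝ) : Fintype (Sp q) :=
  inferInstanceAs (Fintype {ω : Ω // 0 < q ω})

section objects

variable (D : NDat2) (n z N v : ℕ) (x : ℕ → ℤ) (a : ℕ → ℕ) (l u i j : ℕ)

/-- The far place of the cut `k`, right side. -/
def fR (k : ℕ) : ℤ × ℤ := ((i : ℤ), (j : ℤ)) + 2 ^ l • dk x v k

/-- The near place of the cut `k`, right side. -/
def nR (k : ℕ) : ℤ × ℤ := ((i : ℤ), (j : ℤ)) + 2 ^ (l - u) • dk x v k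

/-- The far place of the cut `k`, left side. -/
def fL (k : ℕ) : ℤ × ℤ := ((i : ℤ), (j : ℤ)) - 2 ^ l • dk x v k

/-- The near place of the cut `k`, left side. -/
def nL (k : ℕ) : ℤ × ℤ := ((i : ℤ), (j : ℤ)) - 2 ^ (l - u) • dk x v k

/-- The records of the right side, cuts up to `k`. -/
def AA (k : ℕ) (ω : D.Ω) (c : Fin (N + 1)) : Option ((D.S × D.S) × (D.S × D.S)) :=
  if c ∈ univ.filter (fun c : Fin (N + 1) => (c : ℕ) ≤ k) then
    some (rc D (fR v x l i j c) ω, rc D (nR v x l u i j c) ω) else none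

/-- The records of the left side, cuts from `k`. -/
def BB (k : ℕ) (ω : D.Ω) (c : Fin (N + 1)) : Option ((D.S × D.S) × (D.S × D.S)) :=
  if c ∈ univ.filter (fun c : Fin (N + 1) => k ≤ (c : ℕ)) then
    some (rc D (fL v x l i j c) ω, rc D (nL v x l u i j c) ω) else none

/-- The own place of the coordinate `m`. -/
def own (m : ℕ) : ℕ × ℕ :=
  if a m < a n then nt (fR v x l i j (a m + 1)) else nt (fL v x l i j (a m))

/-- The number of digits of the base. -/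
def cX : ℕ := (2 ^ (l - 1) + 1) * z + 2

variable (bb : ℕ)

/-- The sheets. -/
noncomputable def csh (ω : D.Ω) (c : Fin (n - 1)) : Pl (n - 1) :=
  rnd (cX z l) (shsS D n z i j bb (D.Ψ i j) (own n v x a l i j) ω c)

/-- The shape of the target, right side. -/
noncomputable def kR (ω : D.Ω) : Pl (n - 1) :=
  shpS D n z i j (nt (nR v x l u i j (a n))).1 (nt (nR v x l u i j (a n))).2 bb (D.Ψ i j) n ω

/-- The shape of the target, left side. -/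
noncomputable def kL (ω : D.Ω) : Pl (n - 1) :=
  shpS D n z i j (nt (nL v x l u i j (a n + 1))).1 (nt (nL v x l u i j (a n + 1))).2 bb
    (D.Ψ i j) n ω

variable (h₀ : ℕ) (q : D.Ω → ℝ)

/-- The data. -/
noncomputable def cD : Dat (n - 1) :=
  datS D n z i j (cX z l) h₀ (D.Ψ i j) (fun ω => (rc D ((i : ℤ), (j : ℤ)) ω, D.T ω)) q
    (csh D n z v x a l i j bb)

/-- The data on the support. -/
noncomputable def cD1 : Dat (n - 1) :=
  (cD D n z v x a l i j bb h₀ q).pull (fun w : Sp q => q w.1) (fun w : Sp q => w.1)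

/-- **The output**: nested cuts and the two shapes of the target. -/
structure Out (K : ℕ) (e : ℝ) : Prop where
  cuts : Cuts (cD1 D n z v x a l i j bb h₀ q) N (fun k w => AA D N v x l u i j k w.1)
    (fun k w => BB D N v x l u i j k w.1) (fun c => a (c + 1)) (a n) e
  s_deg : ∀ ω c, (csh D n z v x a l i j bb ω c).totalDegree ≤ dK n K
  s_cf : ∀ ω c α, |coeff α (csh D n z v x a l i j bb ω c)| ≤ 2 ^ (bb + 1)
  nr_le : ∀ w, |(cD1 D n z v x a l i j bb h₀ q).nr w| ≤ 2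
  R_vars : ∀ ω, ∀ c ∈ (kR D n z v x a l u i j bb ω).vars, a n < a (c + 1)
  R_deg : ∀ ω, (kR D n z v x a l u i j bb ω).totalDegree ≤ dK n K
  R_cf : ∀ ω α, |coeff α (kR D n z v x a l u i j bb ω)| ≤ 2 ^ bb
  R_few : CH (cD1 D n z v x a l i j bb h₀ q).p (fun w => kR D n z v x a l u i j bb w.1)
    (fun w => (AA D N v x l u i j (a n) w.1, (cD1 D n z v x a l i j bb h₀ q).z w)) ≤ e
  R_hF : CH (cD1 D n z v x a l i j bb h₀ q).p
    ((cD1 D n z v x a l i j bb h₀ q).hF h₀ fun w => kR D n z v x a l u i j bb w.1)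
    (fun w => (AA D N v x l u i j (a n + 1) w.1, (cD1 D n z v x a l i j bb h₀ q).z w)) ≤ e
  L_vars : ∀ ω, ∀ c ∈ (kL D n z v x a l u i j bb ω).vars, a (c + 1) < a n
  L_deg : ∀ ω, (kL D n z v x a l u i j bb ω).totalDegree ≤ dK n K
  L_cf : ∀ ω α, |coeff α (kL D n z v x a l u i j bb ω)| ≤ 2 ^ bb
  L_few : CH (cD1 D n z v x a l i j bb h₀ q).p (fun w => kL D n z v x a l u i j bb w.1)
    (fun w => (BB D N v x l u i j (a n + 1) w.1, (cD1 D n z v x a l i j bb h₀ q).z w)) ≤ e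
  L_hF : CH (cD1 D n z v x a l i j bb h₀ q).p
    ((cD1 D n z v x a l i j bb h₀ q).hF h₀ fun w => kL D n z v x a l u i j bb w.1)
    (fun w => (BB D N v x l u i j (a n) w.1, (cD1 D n z v x a l i j bb h₀ q).z w)) ≤ e

end objects

/-- The statement. -/
def ClsStmt : Prop := ∀ (n K : ℕ) (lam gam : ℕ → ℝ) (C₁ : ℝ), 1 ≤ n → 1 ≤ C₁ →
    (∀ l, 1 ≤ lam l) → (∀ l, 0 ≤ gam l) → ∃ C₀ : ℝ, 1 ≤ C₀ ∧
  ∀ (Λ : ℝ) (u N v Wd : ℕ) (x : ℕ → ℤ) (a : ℕ → ℕ), (∀ l, 1 ≤ l → l ≤ n → lam l ≤ Λ) →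
    Dirs n lam gam (2 ^ u + 2 * Λ + 8) N v x a → (∀ k ≤ N, |x k| ≤ Wd) → v ≤ Wd →
  ∃ (C : ℝ) (B E : ℕ), 1 ≤ C ∧ ∀ (M M' : ℕ) (η : ℝ), 0 < η → η ≤ 1 / 2 → M' + E ≤ M →
  ∃ (κ₀ : ℝ) (z₀ : ℕ), 0 < κ₀ ∧ ∀ (J a₀ w₀ z : ℕ) (κ κ' : ℝ) (D : NDat2) (q : D.Ω → ℝ),
    z₀ ≤ z → κ ≤ κ₀ → κ' ≤ κ₀ → D.Ok2 n K J a₀ w₀ z M lam gam κ C₁ q → D.TmU J w₀ z κ' q →
    Pb q (fun ω => ¬ GA D n z a₀ B 1 M ω) ≤ η ∧
    (∀ p d : ℤ × ℤ, |d.1| ≤ Wd → |d.2| ≤ Wd → 0 ≤ p.1 → p.1 ≤ M' → 0 ≤ p.2 → p.2 ≤ M' →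
      0 ≤ p.1 + d.1 → p.1 + d.1 ≤ M' → 0 ≤ p.2 + d.2 → p.2 + d.2 ≤ M' →
      CH (cond q (GA D n z a₀ B 1 M) True) (rc D (p + d)) (fun ω => (rc D p ω, D.T ω)) ≤
        C * z) ∧
    ∀ (l i j h₀ bb : ℕ) (e : ℝ), u + 1 ≤ l → C ≤ 2 ^ (l - u) → Wd * 2 ^ l ≤ i →
      i + Wd * 2 ^ l ≤ M' → Wd * 2 ^ l ≤ j → j + Wd * 2 ^ l ≤ M' → h₀ ≤ 2 ^ (l - 1) * z →
      C * z ≤ bb → bb ≤ 2 ^ l * z →
      (∀ k ≤ N, Pool.DM.mi (cond q (GA D n z a₀ B 1 M) True) D.T (rc D) (fL v x l i j k)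
        (dk x v k) (2 ^ l) ≤ e) →
      Out D n z N v x a l u i j bb h₀ (cond q (GA D n z a₀ B 1 M) True) K
        (e + C * z + C₀ * (1 + Λ) * (2 ^ (l - u) * z) + C * η * (2 ^ l * z))

end Pool.GSD.Cls
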