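import Pool.Agent.H24.GSD.Lvl

/-!
# The records of the two sides

Labels of one row are few bits given a label of larger radius index and the label at the radius `0`.
The records of a side are few bits given the records of the line of the cut; the two sides of a cut
are almost independent.
-/

set_option autoImplicit false

namespace Pool.GSD.Cls

open Finset Real MvPolynomial
open Pool.Agent.H49.Ent Pool.Agent.H32.Dense Pool.STK Pool.STAT
open Pool.BFL (Pb)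
open Pool.GSD.Row
open Pool.LIVE20 (mi)
open Pool.MIC (ev_pos isLaw_ev)

/-- The rows: a label of smaller radius index is few bits. -/
def RowF (D : NDat2) (Q : D.Ω → ℝ) (M' : ℕ) (C z : ℝ) : Prop :=
  ∀ (Y : Type) (y : D.Ω → Y) (p p' : ℤ × ℤ), 0 ≤ p'.1 → p'.1 ≤ p.1 → p.1 ≤ M' → 0 ≤ p.2 →
    p.2 ≤ M' → p'.2 = p.2 → Det Q y D.T → Det Q y (rc D p) → CH Q (rc D p') y ≤ C * z

theorem row_few (n K B : ℕ) (lam gam : ℕ → ℝ) (C₁ : ℝ) (hC₁ : 0 ≤ C₁)
    (hlam : ∀ l, 1 ≤ lam l) (hgam : ∀ l, 0 ≤ gam l) : ∃ C : ℝ, 1 ≤ C ∧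
    ∀ (J a₀ w₀ z M M' : ℕ) (κ : ℝ) (D : NDat2) (q : D.Ω → ℝ), 1 ≤ z → 1 ≤ M' → (M' : ℝ) ≤ exp z →
      M' + 2 ≤ M → D.Ok2 n K J a₀ w₀ z M lam gam κ C₁ q →
      1 / 2 ≤ Pb q (GA D n z a₀ B 1 M) →
      RowF D (cond q (GA D n z a₀ B 1 M) True) M' C z := by
  obtain ⟨C, hC, h⟩ := few_hull n K B 1 lam gam C₁ 0 hC₁ le_rfl le_rfl hlam hgam
  refine ⟨C, hC, ?_⟩
  intro J a₀ w₀ z M M' κ D q hz hM'1 hM' hMM hO hP Y y p p' a1 a2 a3 a4 a5 a6 dT dR
  have hP0 : 0 < Pb q (GA D n z a₀ B 1 M) := by linarith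
  have hq' := (isLaw_ev hO.isLaw _ hP0).nonneg
  have k1 : ((p.1.toNat : ℕ) : ℝ) = p.1 := by
    exact_mod_cast Int.toNat_of_nonneg (a1.trans a2)
  have k3 : ((p'.1.toNat : ℕ) : ℝ) = p'.1 := by
    exact_mod_cast Int.toNat_of_nonneg a1
  have hp12 : (p'.1 : ℝ) ≤ p.1 := by exact_mod_cast a2
  have hp0 : (0 : ℝ) ≤ p'.1 := by exact_mod_cast a1
  have s1 := h J a₀ w₀ z M M' κ D q hz hM'1 hM' hMM hO hP _ y dT
    ({(p.1.toNat, p.2.toNat), (0, p.2.toNat)} : Set (ℕ × ℕ)) p'.1.toNat p'.2.toNat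
    (by omega) (by omega) (by
      intro b hb
      rcases hb with hb | hb
      · rw [hb]
        exact ⟨by simp only; omega, by simp only; omega, fun ω ω' c c' e =>
          (Prod.ext_iff.1 (dR ω ω' c c' e)).1⟩
      · rw [Set.mem_singleton_iff] at hb
        rw [hb]
        exact ⟨Nat.zero_le _, by simp only; omega, fun ω ω' c c' e =>
          (Prod.ext_iff.1 (dR ω ω' c c' e)).2⟩) (by
      intro u w
      rcases le_total 0 u with hu | hu
      · refine ⟨_, Or.inl rfl, ?_⟩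
        simp only
        rw [a6, k1, k3]
        have := mul_le_mul_of_nonneg_left hp12 hu
        linarith
      · refine ⟨_, Or.inr rfl, ?_⟩
        simp only
        rw [a6, k3]
        have := mul_nonneg_of_nonpos_of_nonpos hu (neg_nonpos.2 hp0)
        push_cast
        linarith)
  have s2 : CH (cond q (GA D n z a₀ B 1 M) True) (rc D p')
      y ≤ CH (cond q (GA D n z a₀ B 1 M) True) (D.s p'.1.toNat p'.2.toNat) y := by
    refine CH_mono_left hq' ?_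
    intro ω ω' c c' e
    obtain ⟨e1, e2⟩ := Prod.ext_iff.1 e
    refine Prod.ext e1 ?_
    have e3 := (Prod.ext_iff.1 (dR ω ω' c c' e2)).2
    unfold rc at e3 ⊢
    simp only at e3 ⊢
    rw [a6]
    exact e3
  exact s2.trans s1

section fam

variable {D : NDat2} {N v l u i j Wd M' : ℕ} {x : ℕ → ℤ} {Q : D.Ω → ℝ} {C zr : ℝ}

theorem det_AA {Y : Type} {y : D.Ω → Y} {k c : ℕ} (hck : c ≤ k) (hc : c ≤ N)
    (hy : Det Q y (AA D N v x l u i j k)) :
    Det Q y (rc D (fR v x l i j c)) ∧ Det Q y (rc D (nR v x l u i j c)) := by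
  have key : Det Q y (fun ω => (rc D (fR v x l i j c) ω, rc D (nR v x l u i j c) ω)) := by
    intro ω ω' h h' e
    have e1 := congrFun (hy ω ω' h h' e) ⟨c, by omega⟩
    unfold AA at e1
    have hm : (⟨c, by omega⟩ : Fin (N + 1)) ∈ univ.filter (fun c : Fin (N + 1) => (c : ℕ) ≤ k) :=
      mem_filter.2 ⟨mem_univ _, hck⟩
    rw [if_pos hm, if_pos hm] at e1
    exact Option.some.inj e1
  exact ⟨fun ω ω' h h' e => (Prod.ext_iff.1 (key ω ω' h h' e)).1,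
    fun ω ω' h h' e => (Prod.ext_iff.1 (key ω ω' h h' e)).2⟩

theorem det_BB {Y : Type} {y : D.Ω → Y} {k c : ℕ} (hck : k ≤ c) (hc : c ≤ N)
    (hy : Det Q y (BB D N v x l u i j k)) :
    Det Q y (rc D (fL v x l i j c)) ∧ Det Q y (rc D (nL v x l u i j c)) := by
  have key : Det Q y (fun ω => (rc D (fL v x l i j c) ω, rc D (nL v x l u i j c) ω)) := by
    intro ω ω' h h' e
    have e1 := congrFun (hy ω ω' h h' e) ⟨c, by omega⟩
    unfold BB at e1
    have hm : (⟨c, by omega⟩ : Fin (N + 1)) ∈ univ.filter (fun c : Fin (N + 1) => k ≤ (c : ℕ)) :=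
      mem_filter.2 ⟨mem_univ _, hck⟩
    rw [if_pos hm, if_pos hm] at e1
    exact Option.some.inj e1
  exact ⟨fun ω ω' h h' e => (Prod.ext_iff.1 (key ω ω' h h' e)).1,
    fun ω ω' h h' e => (Prod.ext_iff.1 (key ω ω' h h' e)).2⟩

theorem AA_mono {k k' : ℕ} (hk : k ≤ k') :
    Det Q (AA D N v x l u i j k') (AA D N v x l u i j k) := by
  intro ω ω' h h' e
  funext c
  unfold AA
  by_cases hc : c ∈ univ.filter (fun c : Fin (N + 1) => (c : ℕ) ≤ k)
  · have hc' : (c : ℕ) ≤ k := (mem_filter.1 hc).2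
    obtain ⟨d1, d2⟩ := det_AA (D := D) (Q := Q) (y := AA D N v x l u i j k') (k := k') (c := c)
      (by omega) (by omega) (fun _ _ _ _ e => e)
    rw [if_pos hc, if_pos hc, d1 ω ω' h h' e, d2 ω ω' h h' e]
  · rw [if_neg hc, if_neg hc]

theorem BB_mono {k k' : ℕ} (hk : k ≤ k') :
    Det Q (BB D N v x l u i j k) (BB D N v x l u i j k') := by
  intro ω ω' h h' e
  funext c
  unfold BB
  by_cases hc : c ∈ univ.filter (fun c : Fin (N + 1) => k' ≤ (c : ℕ))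
  · have hc' : k' ≤ (c : ℕ) := (mem_filter.1 hc).2
    obtain ⟨d1, d2⟩ := det_BB (D := D) (Q := Q) (y := BB D N v x l u i j k) (k := k) (c := c)
      (by omega) (by omega) (fun _ _ _ _ e => e)
    rw [if_pos hc, if_pos hc, d1 ω ω' h h' e, d2 ω ω' h h' e]
  · rw [if_neg hc, if_neg hc]

/-- The records of a side are few bits given the line of the cut. -/
theorem AA_few (hq : ∀ ω, 0 ≤ Q ω) (hR : RowF D Q M' C zr) (hx : ∀ k ≤ N, |x k| ≤ Wd) (hv : v ≤ Wd)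
    (han : ∀ k k', k ≤ k' → k' ≤ N → x k' ≤ x k) (hC : 0 ≤ C * zr)
    (h1 : Wd * 2 ^ l ≤ i) (h2 : i + Wd * 2 ^ l ≤ M') (h3 : Wd * 2 ^ l ≤ j)
    (h4 : j + Wd * 2 ^ l ≤ M') {k : ℕ} (hk : k ≤ N) {Y : Type} (y : D.Ω → Y) (dT : Det Q y D.T)
    (df : Det Q y (rc D (fR v x l i j k))) (dn : Det Q y (rc D (nR v x l u i j k))) :
    CH Q (AA D N v x l u i j k) y ≤ (N + 1) * (2 * (C * zr)) := by
  have hr : 2 ^ (l - u) ≤ 2 ^ l := Nat.pow_le_pow_right (by norm_num) (Nat.sub_le _ _)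
  have a1 := CH_ite_le hq (univ.filter fun c : Fin (N + 1) => (c : ℕ) ≤ k)
    (fun ω c => (rc D (fR v x l i j c) ω, rc D (nR v x l u i j c) ω)) y
  have a2 : CH Q (AA D N v x l u i j k) y = CH Q (fun ω (c : Fin (N + 1)) =>
      if c ∈ univ.filter (fun c : Fin (N + 1) => (c : ℕ) ≤ k) then
        some (rc D (fR v x l i j c) ω, rc D (nR v x l u i j c) ω) else none) y := rfl
  rw [a2]
  refine a1.trans ?_
  have a3 : ∀ c ∈ univ.filter (fun c : Fin (N + 1) => (c : ℕ) ≤ k),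
      CH Q (fun ω => (rc D (fR v x l i j c) ω, rc D (nR v x l u i j c) ω)) y ≤
        2 * (C * zr) := by
    intro c hc
    have hck : (c : ℕ) ≤ k := (mem_filter.1 hc).2
    have hcx := han c k hck hk
    have b1 := CH_subadd hq (rc D (fR v x l i j c)) (rc D (nR v x l u i j c)) y
    obtain ⟨⟨c1, c2, c3, c4⟩, _⟩ := range_pl hx hv h1 h2 h3 h4 (hck.trans hk) (le_refl (2 ^ l))
    obtain ⟨⟨d1, d2, d3, d4⟩, _⟩ := range_pl hx hv h1 h2 h3 h4 hk (le_refl (2 ^ l))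
    obtain ⟨⟨c1', c2', c3', c4'⟩, _⟩ := range_pl hx hv h1 h2 h3 h4 (hck.trans hk) hr
    obtain ⟨⟨d1', d2', d3', d4'⟩, _⟩ := range_pl hx hv h1 h2 h3 h4 hk hr
    have cmp : ∀ r : ℕ, (((i : ℤ), (j : ℤ)) + r • dk x v c).1 ≤
        (((i : ℤ), (j : ℤ)) + r • dk x v k).1 := by
      intro r
      unfold dk
      simp only [Prod.fst_add, Prod.smul_fst]
      simp only [nsmul_eq_mul, mul_neg]
      have := mul_le_mul_of_nonneg_left hcx (Int.natCast_nonneg r)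
      linarith
    have b2 := hR _ y (fR v x l i j k) (fR v x l i j c) c1 (cmp _) d2 d3 d4 rfl dT df
    have b3 := hR _ y (nR v x l u i j k) (nR v x l u i j c) c1' (cmp _) d2' d3' d4' rfl dT dn
    linarith
  refine (Finset.sum_le_sum a3).trans ?_
  rw [sum_const, nsmul_eq_mul]
  refine mul_le_mul_of_nonneg_right ?_ (by linarith)
  have h5 : (univ.filter fun c : Fin (N + 1) => (c : ℕ) ≤ k).card ≤ N + 1 := by
    refine (Finset.card_filter_le _ _).trans ?_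
    rw [Finset.card_univ, Fintype.card_fin]
  exact_mod_cast h5

theorem BB_few (hq : ∀ ω, 0 ≤ Q ω) (hR : RowF D Q M' C zr) (hx : ∀ k ≤ N, |x k| ≤ Wd) (hv : v ≤ Wd)
    (han : ∀ k k', k ≤ k' → k' ≤ N → x k' ≤ x k) (hC : 0 ≤ C * zr)
    (h1 : Wd * 2 ^ l ≤ i) (h2 : i + Wd * 2 ^ l ≤ M') (h3 : Wd * 2 ^ l ≤ j)
    (h4 : j + Wd * 2 ^ l ≤ M') {k : ℕ} (hk : k ≤ N) {Y : Type} (y : D.Ω → Y) (dT : Det Q y D.T)
    (df : Det Q y (rc D (fL v x l i j k))) (dn : Det Q y (rc D (nL v x l u i j k))) :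
    CH Q (BB D N v x l u i j k) y ≤ (N + 1) * (2 * (C * zr)) := by
  have hr : 2 ^ (l - u) ≤ 2 ^ l := Nat.pow_le_pow_right (by norm_num) (Nat.sub_le _ _)
  have a1 := CH_ite_le hq (univ.filter fun c : Fin (N + 1) => k ≤ (c : ℕ))
    (fun ω c => (rc D (fL v x l i j c) ω, rc D (nL v x l u i j c) ω)) y
  have a2 : CH Q (BB D N v x l u i j k) y = CH Q (fun ω (c : Fin (N + 1)) =>
      if c ∈ univ.filter (fun c : Fin (N + 1) => k ≤ (c : ℕ)) then
        some (rc D (fL v x l i j c) ω, rc D (nL v x l u i j c) ω) else none) y := rfl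
  rw [a2]
  refine a1.trans ?_
  have a3 : ∀ c ∈ univ.filter (fun c : Fin (N + 1) => k ≤ (c : ℕ)),
      CH Q (fun ω => (rc D (fL v x l i j c) ω, rc D (nL v x l u i j c) ω)) y ≤
        2 * (C * zr) := by
    intro c hc
    have hck : k ≤ (c : ℕ) := (mem_filter.1 hc).2
    have hcN : (c : ℕ) ≤ N := by have := c.2; omega
    have hcx := han k c hck hcN
    have b1 := CH_subadd hq (rc D (fL v x l i j c)) (rc D (nL v x l u i j c)) y
    obtain ⟨_, c1, c2, c3, c4⟩ := range_pl hx hv h1 h2 h3 h4 hcN (le_refl (2 ^ l))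
    obtain ⟨_, d1, d2, d3, d4⟩ := range_pl hx hv h1 h2 h3 h4 hk (le_refl (2 ^ l))
    obtain ⟨_, c1', c2', c3', c4'⟩ := range_pl hx hv h1 h2 h3 h4 hcN hr
    obtain ⟨_, d1', d2', d3', d4'⟩ := range_pl hx hv h1 h2 h3 h4 hk hr
    have cmp : ∀ r : ℕ, (((i : ℤ), (j : ℤ)) - r • dk x v c).1 ≤
        (((i : ℤ), (j : ℤ)) - r • dk x v k).1 := by
      intro r
      unfold dk
      simp only [Prod.fst_sub, Prod.smul_fst]
      simp only [nsmul_eq_mul, mul_neg]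
      have := mul_le_mul_of_nonneg_left hcx (Int.natCast_nonneg r)
      linarith
    have b2 := hR _ y (fL v x l i j k) (fL v x l i j c) c1 (cmp _) d2 d3 d4 rfl dT df
    have b3 := hR _ y (nL v x l u i j k) (nL v x l u i j c) c1' (cmp _) d2' d3' d4' rfl dT dn
    linarith
  refine (Finset.sum_le_sum a3).trans ?_
  rw [sum_const, nsmul_eq_mul]
  refine mul_le_mul_of_nonneg_right ?_ (by linarith)
  have h5 : (univ.filter fun c : Fin (N + 1) => k ≤ (c : ℕ)).card ≤ N + 1 := by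
    refine (Finset.card_filter_le _ _).trans ?_
    rw [Finset.card_univ, Fintype.card_fin]
  exact_mod_cast h5

/-- **The two sides of a cut.** -/
theorem AB_ind (hq : ∀ ω, 0 ≤ Q ω) (hR : RowF D Q M' C zr) (hx : ∀ k ≤ N, |x k| ≤ Wd) (hv : v ≤ Wd)
    (han : ∀ k k', k ≤ k' → k' ≤ N → x k' ≤ x k) (hC : 0 ≤ C * zr)
    (h1 : Wd * 2 ^ l ≤ i) (h2 : i + Wd * 2 ^ l ≤ M') (h3 : Wd * 2 ^ l ≤ j)
    (h4 : j + Wd * 2 ^ l ≤ M') {k : ℕ} (hk : k ≤ N) {e : ℝ}
    (hm : Pool.DM.mi Q D.T (rc D) (fL v x l i j k) (dk x v k) (2 ^ l) ≤ e) :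
    mi Q (AA D N v x l u i j k) (BB D N v x l u i j k)
      (fun ω => (rc D ((i : ℤ), (j : ℤ)) ω, D.T ω)) ≤ e + 2 * ((N + 1) * (2 * (C * zr))) := by
  have hr : 2 ^ (l - u) ≤ 2 ^ l := Nat.pow_le_pow_right (by norm_num) (Nat.sub_le _ _)
  obtain ⟨zc, hzc⟩ : ∃ zc : D.Ω → (D.S × D.S) × ℕ,
      zc = fun ω => (rc D ((i : ℤ), (j : ℤ)) ω, D.T ω) := ⟨_, rfl⟩
  obtain ⟨xa, hxa⟩ : ∃ xa : D.Ω → (D.S × D.S) × (D.S × D.S),
      xa = fun ω => (rc D (fR v x l i j k) ω, rc D (nR v x l u i j k) ω) := ⟨_, rfl⟩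
  obtain ⟨xb, hxb⟩ : ∃ xb : D.Ω → (D.S × D.S) × (D.S × D.S),
      xb = fun ω => (rc D (fL v x l i j k) ω, rc D (nL v x l u i j k) ω) := ⟨_, rfl⟩
  have s1 : mi Q xa xb zc ≤ e := by
    refine le_trans ?_ hm
    rw [hzc]
    refine mi_sg hq D.T (rc D) ((i : ℤ), (j : ℤ)) (dk x v k) (2 ^ l) xa xb ?_ ?_
    · intro ω ω' c c' h
      rw [hxa]
      refine Prod.ext ?_ ?_
      · exact Pool.DM.sg_pt (R := rc D) ((i : ℤ), (j : ℤ)) (dk x v k) (r := 2 ^ l) (t := 2 ^ l)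
          le_rfl Q ω ω' c c' h
      · exact Pool.DM.sg_pt (R := rc D) ((i : ℤ), (j : ℤ)) (dk x v k) (r := 2 ^ l)
          (t := 2 ^ (l - u)) hr Q ω ω' c c' h
    · intro ω ω' c c' h
      have p1 := Pool.DM.sg_pt (R := rc D) (((i : ℤ), (j : ℤ)) - 2 ^ l • dk x v k) (dk x v k)
        (r := 2 ^ l) (t := 0) (Nat.zero_le _) Q ω ω' c c' h
      have p2 := Pool.DM.sg_pt (R := rc D) (((i : ℤ), (j : ℤ)) - 2 ^ l • dk x v k) (dk x v k)
        (r := 2 ^ l) (t := 2 ^ l - 2 ^ (l - u)) (Nat.sub_le _ _) Q ω ω' c c' h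
      rw [zero_smul, add_zero] at p1
      have e1 : ((i : ℤ), (j : ℤ)) - 2 ^ l • dk x v k + (2 ^ l - 2 ^ (l - u)) • dk x v k =
          nL v x l u i j k := by
        have hs : (2 ^ l - 2 ^ (l - u)) • dk x v k + 2 ^ (l - u) • dk x v k = 2 ^ l • dk x v k := by
          rw [← add_smul, Nat.sub_add_cancel hr]
        unfold nL
        rw [← hs]
        abel
      rw [e1] at p2
      rw [hxb]
      exact Prod.ext p1 p2
  have s2 : mi Q (AA D N v x l u i j k) xb zc ≤ mi Q xb xa zc +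
      CH Q (AA D N v x l u i j k) (fun ω => (xa ω, zc ω)) := mi_few hq xb xa _ zc
  have s3 : mi Q (BB D N v x l u i j k) (AA D N v x l u i j k) zc ≤
      mi Q (AA D N v x l u i j k) xb zc +
        CH Q (BB D N v x l u i j k) (fun ω => (xb ω, zc ω)) := mi_few hq _ xb _ zc
  have s4 := Pool.L12.mi_symm hq xb xa zc
  have s5 := Pool.L12.mi_symm hq (AA D N v x l u i j k) (BB D N v x l u i j k) zc
  have s6 := AA_few hq hR hx hv han hC h1 h2 h3 h4 hk (fun ω => (xa ω, zc ω))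
    (fun ω ω' _ _ h => by
      rw [hzc] at h
      exact (Prod.ext_iff.1 (Prod.ext_iff.1 h).2).2)
    (fun ω ω' _ _ h => by
      rw [hxa] at h
      exact (Prod.ext_iff.1 (Prod.ext_iff.1 h).1).1)
    (fun ω ω' _ _ h => by
      rw [hxa] at h
      exact (Prod.ext_iff.1 (Prod.ext_iff.1 h).1).2) (u := u)
  have s7 := BB_few hq hR hx hv han hC h1 h2 h3 h4 hk (fun ω => (xb ω, zc ω))
    (fun ω ω' _ _ h => by
      rw [hzc] at h
      exact (Prod.ext_iff.1 (Prod.ext_iff.1 h).2).2)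
    (fun ω ω' _ _ h => by
      rw [hxb] at h
      exact (Prod.ext_iff.1 (Prod.ext_iff.1 h).1).1)
    (fun ω ω' _ _ h => by
      rw [hxb] at h
      exact (Prod.ext_iff.1 (Prod.ext_iff.1 h).1).2) (u := u)
  rw [← hzc]
  linarith

end fam

end Pool.GSD.Cls
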