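import Pool.Agent.H24.GSD.Hfx

/-!
# The nested cuts of a cell
-/

set_option autoImplicit false

namespace Pool.GSD.Cls

open Finset Real MvPolynomial
open Pool.Agent.H49.Ent Pool.Agent.H32.Dense Pool.STK Pool.STAT
open Pool.BFL (Pb Pl)
open Pool.GSD.Row
open Pool.LIVE20 (mi)
open Pool.MIC (ev_pos isLaw_ev)
open Pool.TIE (Dat dg)
open Pool.TA35 (Lv3 Tid)

section sp

variable {Ω S T U : Type} [Fintype Ω] {Q : Ω → ℝ}

theorem sp_law (hQ : IsLaw Q) : IsLaw (fun w : Sp Q => Q w.1) := by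
  classical
  refine ⟨fun w => w.2.le, ?_⟩
  have h1 : ∑ w : Sp Q, Q w.1 = ∑ ω ∈ univ.filter (fun ω => 0 < Q ω), Q ω := by
    refine (Finset.sum_bij (fun (w : Sp Q) _ => w.1) ?_ ?_ ?_ ?_)
    · intro w _
      exact mem_filter.2 ⟨mem_univ _, w.2⟩
    · intro w _ w' _ h
      exact Subtype.ext h
    · intro ω hω
      exact ⟨⟨ω, (mem_filter.1 hω).2⟩, mem_univ _, rfl⟩
    · intro _ _
      rfl
  rw [h1, ← hQ.sum_one]
  refine Finset.sum_subset (filter_subset _ _) fun ω _ hω => ?_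
  have h2 : ¬ 0 < Q ω := fun h => hω (mem_filter.2 ⟨mem_univ _, h⟩)
  exact le_antisymm (not_lt.1 h2) (hQ.nonneg ω)

theorem sp_push (hQ : IsLaw Q) : law (fun w : Sp Q => Q w.1) (fun w : Sp Q => w.1) = Q := by
  classical
  funext ω
  unfold law
  by_cases h : 0 < Q ω
  · refine (Finset.sum_eq_single (⟨ω, h⟩ : Sp Q) ?_ ?_).trans ?_
    · intro w _ hw
      refine if_neg ?_
      intro h2
      exact hw (Subtype.ext h2)
    · intro h2
      exact absurd (mem_univ _) h2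
    · exact if_pos rfl
  · rw [le_antisymm (not_lt.1 h) (hQ.nonneg ω)]
    refine Finset.sum_eq_zero fun w _ => if_neg ?_
    intro h2
    exact h (by
      have h3 : w.1 = ω := h2
      rw [← h3]
      exact w.2)

theorem sp_CH (hQ : IsLaw Q) (f : Ω → S) (g : Ω → T) :
    CH (fun w : Sp Q => Q w.1) (fun w => f w.1) (fun w => g w.1) = CH Q f g := by
  have h1 := Pool.TIE.SubL.push (fun w : Sp Q => Q w.1) (fun w : Sp Q => w.1) f g
  rw [sp_push hQ] at h1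
  exact h1

theorem sp_mi (hQ : IsLaw Q) (f : Ω → S) (g : Ω → T) (h : Ω → U) :
    mi (fun w : Sp Q => Q w.1) (fun w => f w.1) (fun w => g w.1) (fun w => h w.1) =
      mi Q f g h := by
  unfold Pool.LIVE20.mi
  rw [sp_CH hQ f h]
  rw [sp_CH hQ f (fun ω => (g ω, h ω))]

omit [Fintype Ω] in
theorem sp_det {f : Ω → S} {g : Ω → T} (h : Det Q f g) :
    Det (fun w : Sp Q => Q w.1) (fun w => f w.1) (fun w => g w.1) :=
  fun w w' a b e => h w.1 w'.1 a b e

end sp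

section cell

variable {D : NDat2} {n K J a₀ w₀ z M : ℕ} {lam gam : ℕ → ℝ} {κ C₁ : ℝ} {q : D.Ω → ℝ}
  {Λ : ℝ} {N v Wd l u i j M' s : ℕ} {x : ℕ → ℤ} {a : ℕ → ℕ} {C Ct η Cr : ℝ}

theorem vars_csh (hO : D.Ok2 n K J a₀ w₀ z M lam gam κ C₁ q) {bb : ℕ} (ω : D.Ω) (c : Fin (n - 1))
    {c' : Fin (n - 1)} (h : c' ∈ (csh D n z v x a l i j bb ω c).vars) : c' < c := by
  unfold csh at h
  have h1 := vars_rnd _ _ h
  unfold shsS at h1
  have h2 := (vars_shpS (hO.G_tri _ _ _) (hO.G_tri _ _ _) (vars_C_mul_le h1)).2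
  rw [Fin.lt_def]
  omega

theorem deg_csh (hO : D.Ok2 n K J a₀ w₀ z M lam gam κ C₁ q) {bb : ℕ} (ω : D.Ω)
    (c : Fin (n - 1)) : (csh D n z v x a l i j bb ω c).totalDegree ≤ dK n K := by
  unfold csh
  refine (deg_rnd _ _).trans ?_
  unfold shsS
  exact (deg_C_mul _ _).trans (deg_shpS (hO.G_tri _ _ _) (hO.G_tri _ _ _) (fun _ => hO.G_deg _ _ _ _)
    (fun _ => hO.G_deg _ _ _ _) (by have := c.2; omega))

theorem cf_csh {bb : ℕ} (ω : D.Ω) (c : Fin (n - 1)) (α : Fin (n - 1) →₀ ℕ) :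
    |coeff α (csh D n z v x a l i j bb ω c)| ≤ 2 ^ (bb + 1) := by
  unfold csh
  refine cf_rnd ?_
  unfold shsS
  rw [coeff_C_mul, abs_mul]
  have h1 : |(1 : ℝ) / (4 * 2 ^ z)| ≤ 1 := by
    rw [abs_of_nonneg (by positivity), div_le_one (by positivity)]
    have : (1 : ℝ) ≤ 2 ^ z := one_le_pow₀ (by norm_num)
    linarith
  calc |(1 : ℝ) / (4 * 2 ^ z)| * |coeff α (shpS D n z i j (own n v x a l i j (c + 1)).1
        (own n v x a l i j (c + 1)).2 bb (D.Ψ i j) (c + 1) ω)| ≤ 1 * 2 ^ bb :=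
        mul_le_mul h1 (cf_shpS α) (abs_nonneg _) zero_le_one
    _ = 2 ^ bb := one_mul _

theorem nr_bd (hO : D.Ok2 n K J a₀ w₀ z M lam gam κ C₁ q) (hn : 1 ≤ n) (hi : i ≤ M) (hj : j ≤ M)
    {ω : D.Ω} (hω : 0 < q ω) (h₀ : ℕ) : |((nuS D n i j h₀ (D.Ψ i j) ω : ℤ) : ℝ) / 2 ^ h₀| ≤ 2 := by
  have h1 := zt_le hO hi hj hω hn le_rfl
  have h2 : (0 : ℝ) < 2 ^ h₀ := by positivity
  have h3 : (1 : ℝ) ≤ 2 ^ h₀ := one_le_pow₀ (by norm_num)
  unfold nuS
  have a1 := Int.floor_le ((2 : ℝ) ^ h₀ * ztS D i j (D.Ψ i j) ω n)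
  have a2 := Int.lt_floor_add_one ((2 : ℝ) ^ h₀ * ztS D i j (D.Ψ i j) ω n)
  have h4 : |(2 : ℝ) ^ h₀ * ztS D i j (D.Ψ i j) ω n| ≤ 2 ^ h₀ := by
    rw [abs_mul, abs_of_pos h2]
    nlinarith
  rw [abs_div, abs_of_pos h2, div_le_iff₀ h2]
  rw [abs_le] at h4 ⊢
  constructor <;> linarith [h4.1, h4.2]

/-- **The output, with the errors of the parts.** -/
theorem out_of (hO : D.Ok2 n K J a₀ w₀ z M lam gam κ C₁ q) (hn : 1 ≤ n)
    (hU : UpF D n M lam gam Wd (2 ^ l) q C z η z) (hH : HtF D n K M z q C η)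
    (hT : TaF D n K M z q Ct η) (hCt : 0 ≤ Ct)
    (hR : ∀ (D : NDat2) (z i j X bb h₀ : ℕ)
      (S : D.Ω → ℕ → PN) (Γ' : Type) (zz : D.Ω → Γ') (q : D.Ω → ℝ) (pr : ℕ → ℕ × ℕ)
      (l : Fin (n - 1)) (Y : Type) (y : D.Ω → Y), IsLaw q →
      (∀ i j x, TriN (D.G i j x)) → (∀ i j x l, (D.G i j x l).totalDegree ≤ K) →
      (∀ ω, 0 < q ω → Sd D n K i j S ω) →
      CH q ((datS D n z i j X h₀ S zz q
          (fun ω l => rnd X (shsS D n z i j bb S pr ω l))).ht l) y ≤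
        CH q ((datS D n z i j X h₀ S zz q (shsS D n z i j bb S pr)).ht l) y + Cr)
    (hCr : 0 ≤ Cr) (hM : M' + Wd + 1 ≤ M)
    (hd : Dirs n lam gam (2 ^ u + 2 * Λ + 8) N v x a) (hΛ : ∀ m, 1 ≤ m → m ≤ n → lam m ≤ Λ)
    (hN : Nu C₁ Λ z l u (cX z l) s) (hx : ∀ k ≤ N, |x k| ≤ Wd) (hv : v ≤ Wd)
    (h1 : Wd * 2 ^ l ≤ i) (h2 : i + Wd * 2 ^ l ≤ M') (h3 : Wd * 2 ^ l ≤ j)
    (h4 : j + Wd * 2 ^ l ≤ M') (hW1 : 1 ≤ Wd) (G : D.Ω → Prop) (hη0 : 0 ≤ η) (hη : η ≤ 1 / 2)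
    (hC : 0 ≤ C) (hG : 1 - η ≤ Pb q G) (hrow : RowF D (cond q G True) M' C z) (hκ : κ ≤ 1)
    {bb h₀ : ℕ} (hh : h₀ ≤ 2 ^ (l - 1) * z) (hb1 : C * z ≤ bb) (hb1' : Ct * z ≤ bb)
    (hb2 : bb ≤ 2 ^ l * z) {e E : ℝ}
    (hmi : ∀ k ≤ N, Pool.DM.mi (cond q G True) D.T (rc D) (fL v x l i j k) (dk x v k) (2 ^ l) ≤ e)
    (hE1 : 2 * (2 * (C * z) + (2 * n + 2) * η * (2 ^ l * z)) + (6 * n + 4) * z +
      (e + 2 * ((N + 1) * (2 * (C * z)))) ≤ E)
    (hE3 : 2 * (C * z + (2 * η * (2 ^ l * z) + 2 * z + C) + Cr) ≤ E)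
    (hE5 : 2 * (Ct * (z + s) + (2 * η * (2 ^ l * z) + 2 * z + Ct)) ≤ E) :
    Out D n z N v x a l u i j bb h₀ (cond q G True) K E := by
  have hG0 : 0 < Pb q G := by linarith
  have hG2 : 1 / 2 ≤ Pb q G := by linarith
  obtain ⟨Q, hQd⟩ : ∃ Q : D.Ω → ℝ, Q = cond q G True := ⟨_, rfl⟩
  have hQ : IsLaw Q := by
    rw [hQd]
    exact isLaw_ev hO.isLaw G hG0
  have hQ0 := hQ.nonneg
  have hQq : ∀ ω, 0 < Q ω → 0 < q ω := fun ω h => by
    rw [hQd] at h
    exact (ev_pos hO.isLaw.nonneg G h).1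
  have hpow : 2 ^ (l - 1) ≤ 2 ^ l := Nat.pow_le_pow_right (by norm_num) (Nat.sub_le _ _)
  have hWl : 2 ^ l ≤ Wd * 2 ^ l := Nat.le_mul_of_pos_left _ hW1
  have hi : i < M := by omega
  have hj : j < M := by omega
  have hz := hN.z1
  have hz0 : (0 : ℝ) ≤ z := Nat.cast_nonneg _
  have hs0 : (0 : ℝ) ≤ s := Nat.cast_nonneg _
  have hX1 : 1 ≤ cX z l := by rw [cX_eq]; omega
  have hlz : (0 : ℝ) ≤ 2 ^ l * z := by positivity
  have hCz : 0 ≤ C * z := by positivity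
  have hηl : 0 ≤ η * (2 ^ l * z) := by positivity
  have hηn : 0 ≤ (2 * n + 2) * η * (2 ^ l * z) := by positivity
  have hNC : 0 ≤ 2 * ((N + 1) * (2 * (C * z))) := by positivity
  have hnz : 0 ≤ (6 * n + 4) * (z : ℝ) := by positivity
  have he : 0 ≤ e := (Pool.DM.mi_nonneg (by rw [← hQd]; exact hQ0) _ _ _).trans (hmi 0 (Nat.zero_le _))
  have hE0 : 0 ≤ E := by linarith
  -- the places
  have hpR : ∀ k ≤ N, (nt (fR v x l i j k)).1 < M ∧ (nt (fR v x l i j k)).2 < M := by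
    intro k hk
    obtain ⟨⟨b1, b2, b3, b4⟩, _⟩ := range_pl hx hv h1 h2 h3 h4 hk (le_refl (2 ^ l))
    have e1 : (fR v x l i j k).1 ≤ M' := b2
    have e2 : (fR v x l i j k).2 ≤ M' := b4
    unfold nt
    constructor <;> simp only <;> omega
  have hpL : ∀ k ≤ N, (nt (fL v x l i j k)).1 < M ∧ (nt (fL v x l i j k)).2 < M := by
    intro k hk
    obtain ⟨_, b1, b2, b3, b4⟩ := range_pl hx hv h1 h2 h3 h4 hk (le_refl (2 ^ l))
    have e1 : (fL v x l i j k).1 ≤ M' := b2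
    have e2 : (fL v x l i j k).2 ≤ M' := b4
    unfold nt
    constructor <;> simp only <;> omega
  have hr : 2 ^ (l - u) ≤ 2 ^ l := Nat.pow_le_pow_right (by norm_num) (Nat.sub_le _ _)
  have hnR : ∀ k ≤ N, (nt (nR v x l u i j k)).1 < M ∧ (nt (nR v x l u i j k)).2 < M := by
    intro k hk
    obtain ⟨⟨b1, b2, b3, b4⟩, _⟩ := range_pl hx hv h1 h2 h3 h4 hk hr
    have e1 : (nR v x l u i j k).1 ≤ M' := b2
    have e2 : (nR v x l u i j k).2 ≤ M' := b4
    unfold nt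
    constructor <;> simp only <;> omega
  have hnL : ∀ k ≤ N, (nt (nL v x l u i j k)).1 < M ∧ (nt (nL v x l u i j k)).2 < M := by
    intro k hk
    obtain ⟨_, b1, b2, b3, b4⟩ := range_pl hx hv h1 h2 h3 h4 hk hr
    have e1 : (nL v x l u i j k).1 ≤ M' := b2
    have e2 : (nL v x l u i j k).2 ≤ M' := b4
    unfold nt
    constructor <;> simp only <;> omega
  have hM' : M' ≤ M := by omega
  have gfR : ∀ k ≤ N, Gf D n (cX z l) (i, j) (nt (fR v x l i j k)) (fun m => a m < k) :=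
    fun k hk => gf_R hO hM' hd hN hx hv h1 h2 h3 h4 hk
  have gfL : ∀ k ≤ N, Gf D n (cX z l) (i, j) (nt (fL v x l i j k)) (fun m => k ≤ a m) :=
    fun k hk => gf_L hO hM' hd hN hx hv h1 h2 h3 h4 hk
  have glR : ∀ k ≤ N, 2 ∣ k → Gl D n (cX z l) s (i, j) (nt (nR v x l u i j k)) (fun m => a m < k)
      (fun m => k < a m) :=
    fun k hk hk2 => gl_R hO hM' hd hΛ hN hx hv h1 h2 h3 h4 hk hk2
  have glL : ∀ k, k + 1 ≤ N → 2 ∣ k → Gl D n (cX z l) s (i, j) (nt (nL v x l u i j (k + 1)))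
      (fun m => k + 1 ≤ a m) (fun m => a m < k) :=
    fun k hk hk2 => gl_L hO hM' hd hΛ hN hx hv h1 h2 h3 h4 hk hk2
  have haN := hd.a_lt n hn le_rfl
  have hac : ∀ c : Fin (n - 1), a (c + 1) < N := fun c =>
    hd.a_lt (c + 1) (by omega) (by have := c.2; omega)
  have hane : ∀ c : Fin (n - 1), a (c + 1) ≠ a n := fun c =>
    hd.ne (c + 1) (by omega) (by have := c.2; omega)
  -- functions of the records
  obtain ⟨zc, hzc⟩ : ∃ zc : D.Ω → (D.S × D.S) × ℕ,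
      zc = fun ω => (rc D ((i : ℤ), (j : ℤ)) ω, D.T ω) := ⟨_, rfl⟩
  have dT : ∀ {Γ : Type} (P : D.Ω → ℝ) (A : D.Ω → Γ), Det P (fun ω => (A ω, zc ω)) D.T :=
    fun P A ω ω' _ _ h => by
      rw [hzc] at h
      exact (Prod.ext_iff.1 (Prod.ext_iff.1 h).2).2
  have db : ∀ {Γ : Type} (P : D.Ω → ℝ) (A : D.Ω → Γ),
      Det P (fun ω => (A ω, zc ω)) (rc D ((i : ℤ), (j : ℤ))) :=
    fun P A ω ω' _ _ h => by
      rw [hzc] at h
      exact (Prod.ext_iff.1 (Prod.ext_iff.1 h).2).1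
  have dAf : ∀ (P : D.Ω → ℝ) {k c : ℕ}, c ≤ k → c ≤ N →
      Det P (fun ω => (AA D N v x l u i j k ω, zc ω)) (rc D (fR v x l i j c)) ∧
      Det P (fun ω => (AA D N v x l u i j k ω, zc ω)) (rc D (nR v x l u i j c)) :=
    fun P k c h5 h6 => det_AA h5 h6 fun ω ω' _ _ h => (Prod.ext_iff.1 h).1
  have dBf : ∀ (P : D.Ω → ℝ) {k c : ℕ}, k ≤ c → c ≤ N →
      Det P (fun ω => (BB D N v x l u i j k ω, zc ω)) (rc D (fL v x l i j c)) ∧
      Det P (fun ω => (BB D N v x l u i j k ω, zc ω)) (rc D (nL v x l u i j c)) :=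
    fun P k c h5 h6 => det_BB h5 h6 fun ω ω' _ _ h => (Prod.ext_iff.1 h).1
  have dA1 : ∀ (P : D.Ω → ℝ) {k c : ℕ}, c ≤ k → c ≤ N →
      Det P (AA D N v x l u i j k) (rc D (fR v x l i j c)) ∧
      Det P (AA D N v x l u i j k) (rc D (nR v x l u i j c)) :=
    fun P k c h5 h6 => det_AA h5 h6 fun ω ω' _ _ h => h
  have dB1 : ∀ (P : D.Ω → ℝ) {k c : ℕ}, k ≤ c → c ≤ N →
      Det P (BB D N v x l u i j k) (rc D (fL v x l i j c)) ∧
      Det P (BB D N v x l u i j k) (rc D (nL v x l u i j c)) :=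
    fun P k c h5 h6 => det_BB h5 h6 fun ω ω' _ _ h => h
  -- the parts
  have p_ind : ∀ k ≤ N, mi Q (AA D N v x l u i j k) (BB D N v x l u i j k) zc ≤
      e + 2 * ((N + 1) * (2 * (C * z))) := by
    intro k hk
    rw [hzc, hQd]
    refine AB_ind (by rw [← hQd]; exact hQ0) hrow hx hv hd.anti hCz h1 h2 h3 h4 hk (hmi k hk)
  have p_VC : ((n - 1 : ℕ) : ℝ) * ((cX z l : ℝ) * Real.log 2) - (6 * n + 4) * z ≤
      CH Q (Vc D n z l i j) zc := by
    rw [hzc, hQd]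
    exact VC_ev hO (by omega) hj.le G hG2 hκ hz
  have p_VA : ∀ k ≤ N, CH Q (Vc D n z l i j) (fun ω => (AA D N v x l u i j k ω, zc ω)) ≤
      #(univ.filter fun c : Fin (n - 1) => k ≤ a (c + 1)) * ((cX z l : ℝ) * Real.log 2) +
        (2 * (C * z) + (2 * n + 2) * η * (2 ^ l * z)) := by
    intro k hk
    rw [hQd]
    exact VA_ev hO hU hd hM hx hv h1 h2 h3 h4 G hη0 hη hC hG hk _ (dT q _) (db q _)
      (dAf q le_rfl hk).1
  have p_VB : ∀ k ≤ N, CH Q (Vc D n z l i j) (fun ω => (BB D N v x l u i j k ω, zc ω)) ≤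
      #(univ.filter fun c : Fin (n - 1) => a (c + 1) < k) * ((cX z l : ℝ) * Real.log 2) +
        (2 * (C * z) + (2 * n + 2) * η * (2 ^ l * z)) := by
    intro k hk
    rw [hQd]
    exact VB_ev hO hU hd hM hx hv h1 h2 h3 h4 G hη0 hη hC hG hk _ (dT q _) (db q _)
      (dBf q le_rfl hk).1
  have p_nA : ∀ k, a n < k → k ≤ N → CH Q (nuS D n i j h₀ (D.Ψ i j))
      (fun ω => (AA D N v x l u i j k ω, (Vc D n z l i j ω, zc ω))) ≤ E := by
    intro k h5 hk
    have h6 := p_ind k hk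
    have h7 := p_VC
    rw [hzc, hQd] at h6 h7
    rw [hzc, hQd]
    exact (nA_ev hO hn hU hd hM hx hv h1 h2 h3 h4 G hη0 hη hC hG hk h5 hh _ _
      (dA1 q le_rfl hk).1 (dB1 q le_rfl hk).1 h6 h7).trans hE1
  have p_nB : ∀ k ≤ a n, CH Q (nuS D n i j h₀ (D.Ψ i j))
      (fun ω => (BB D N v x l u i j k ω, (Vc D n z l i j ω, zc ω))) ≤ E := by
    intro k h5
    have hk : k ≤ N := by omega
    have h6 := p_ind k hk
    have h7 := p_VC
    rw [hzc, hQd] at h6 h7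
    rw [hzc, hQd]
    exact (nB_ev hO hn hU hd hM hx hv h1 h2 h3 h4 G hη0 hη hC hG hk h5 hh _ _
      (dA1 q le_rfl hk).1 (dB1 q le_rfl hk).1 h6 h7).trans hE1
  have hE4 : 2 * (C * z + (2 * η * (2 ^ l * z) + 2 * z + C)) ≤ E := by linarith
  have ownR : ∀ c : Fin (n - 1), a (c + 1) < a n → own n v x a l i j (c + 1) =
      nt (fR v x l i j (a (c + 1) + 1)) := fun c hc => by
    unfold own
    rw [if_pos hc]
  have ownL : ∀ c : Fin (n - 1), a n < a (c + 1) → own n v x a l i j (c + 1) =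
      nt (fL v x l i j (a (c + 1))) := fun c hc => by
    unfold own
    rw [if_neg (by omega)]
  have p_hA : ∀ c : Fin (n - 1), a (c + 1) < a n →
      CH Q ((cD D n z v x a l i j bb h₀ Q).ht c)
        (fun ω => (AA D N v x l u i j (a (c + 1) + 1) ω, zc ω)) ≤ E := by
    intro c hc
    have hk : a (c + 1) + 1 ≤ N := hac c
    rw [hQd]
    exact (h_ev hO hH hR hCr hi hj (hpR _ hk).1 (hpR _ hk).2 hz hb1 hb2 hη hη0 hC (gfR _ hk)
      (Nat.lt_succ_self _) (ownR c hc) (dT q _) (db q _) (dAf q le_rfl hk).1 G hG2).trans hE3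
  have p_hB : ∀ c : Fin (n - 1), a n < a (c + 1) →
      CH Q ((cD D n z v x a l i j bb h₀ Q).ht c)
        (fun ω => (BB D N v x l u i j (a (c + 1)) ω, zc ω)) ≤ E := by
    intro c hc
    have hk : a (c + 1) ≤ N := (hac c).le
    rw [hQd]
    exact (h_ev hO hH hR hCr hi hj (hpL _ hk).1 (hpL _ hk).2 hz hb1 hb2 hη hη0 hC (gfL _ hk)
      le_rfl (ownL c hc) (dT q _) (db q _) (dBf q le_rfl hk).1 G hG2).trans hE3
  have p_tA : ∀ c : Fin (n - 1), a (c + 1) < a n →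
      CH Q (fun ω => csh D n z v x a l i j bb ω c)
        (fun ω => (tie (cD D n z v x a l i j bb h₀ Q) (fun c => a (c + 1)) c ω,
          (AA D N v x l u i j (a (c + 1)) ω, zc ω))) ≤ E := by
    intro c hc
    have hk : a (c + 1) + 1 ≤ N := hac c
    have hk' : a (c + 1) ≤ N := by omega
    rw [hQd, hzc]
    refine (t_ev hO hT hi hj (hpR _ hk).1 (hpR _ hk).2 (hnR _ hk').1 (hnR _ hk').2 hz hb1' hb2 hη
      hη0 hCt (s := s) (lv3_of (gfR _ hk) (glR _ hk' (hd.ev _)) (by omega)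
        (by have := c.2; omega) (Nat.lt_succ_self _) (lt_irrefl _) (lt_irrefl _)
        (fun m _ _ h5 => by omega)
        (fun m _ _ h5 => by omega))
      (fun l' _ h5 => by
        have h6 := tid_of (gfR _ hk) (glR _ hk' (hd.ev _)) hX1 (by omega)
          (by have := l'.2; omega) h5
        omega)
      (ownR c hc) (fun l' h5 => by
        rw [ownR l' (by rw [h5]; exact hc), h5])
      (dA1 q le_rfl hk').2 G hG2).trans hE5
  have p_tB : ∀ c : Fin (n - 1), a n < a (c + 1) →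
      CH Q (fun ω => csh D n z v x a l i j bb ω c)
        (fun ω => (tie (cD D n z v x a l i j bb h₀ Q) (fun c => a (c + 1)) c ω,
          (BB D N v x l u i j (a (c + 1) + 1) ω, zc ω))) ≤ E := by
    intro c hc
    have hk : a (c + 1) + 1 ≤ N := hac c
    have hk' : a (c + 1) ≤ N := by omega
    rw [hQd, hzc]
    refine (t_ev hO hT hi hj (hpL _ hk').1 (hpL _ hk').2 (hnL _ hk).1 (hnL _ hk).2 hz hb1' hb2 hη
      hη0 hCt (s := s) (lv3_of (gfL _ hk') (glL _ hk (hd.ev _)) (by omega)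
        (by have := c.2; omega) le_rfl (by omega) (lt_irrefl _)
        (fun m _ _ h5 => by omega)
        (fun m _ _ h5 => by omega))
      (fun l' _ h5 => by
        have h6 := tid_of (gfL _ hk') (glL _ hk (hd.ev _)) hX1 (by omega)
          (by have := l'.2; omega) h5
        omega)
      (ownL c hc) (fun l' h5 => by
        rw [ownL l' (by rw [h5]; exact hc), h5])
      (dB1 q le_rfl hk).2 G hG2).trans hE5
  have p_hFR : CH Q ((cD D n z v x a l i j bb h₀ Q).hF h₀ (kR D n z v x a l u i j bb))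
      (fun ω => (AA D N v x l u i j (a n + 1) ω, zc ω)) ≤ E := by
    have hk : a n + 1 ≤ N := haN
    rw [hQd]
    exact (hF_ev hO hH hn hi hj (hnR _ haN.le).1 (hnR _ haN.le).2 (hpR _ hk).1 (hpR _ hk).2 hz hh
      hb1 hb2 hη hη0 hC (lv_k (glR _ haN.le (hd.ev _)) (gfR _ hk) hn (Nat.lt_succ_self _)
        (lt_irrefl _) (lt_irrefl _) (fun m m1 m2 => by
          have := hd.ne m m1 m2
          omega)) (dT q _) (db q _) (dAf q (Nat.le_succ _) haN.le).2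
      (dAf q le_rfl hk).1 G hG2).trans hE4
  have p_hFL : CH Q ((cD D n z v x a l i j bb h₀ Q).hF h₀ (kL D n z v x a l u i j bb))
      (fun ω => (BB D N v x l u i j (a n) ω, zc ω)) ≤ E := by
    have hk : a n + 1 ≤ N := haN
    rw [hQd]
    exact (hF_ev hO hH hn hi hj (hnL _ hk).1 (hnL _ hk).2 (hpL _ haN.le).1 (hpL _ haN.le).2 hz hh
      hb1 hb2 hη hη0 hC (lv_k (glL _ hk (hd.ev _)) (gfL _ haN.le) hn le_rfl
        (by omega) (lt_irrefl _) (fun m m1 m2 => by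
          have := hd.ne m m1 m2
          omega)) (dT q _) (db q _) (dBf q (Nat.le_succ _) hk).2
      (dBf q le_rfl haN.le).1 G hG2).trans hE4
  rw [← hQd]
  refine ⟨⟨?_, hE0, ?_, haN, ?_, ?_, ?_, ?_, ?_, ?_, ?_, ?_, ?_, ?_, ?_, ?_, ?_, ?_, ?_, ?_, ?_⟩,
    ?_, ?_, ?_, ?_, ?_, ?_, ?_, ?_, ?_, ?_, ?_, ?_, ?_⟩
  · exact sp_law hQ
  · exact hac
  · exact hane
  · exact fun w c c' h => vars_csh hO w.1 c h
  · exact fun w c => Vc_lt hO hi.le hj.le (hQq _ w.2) c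
  · exact fun k k' h5 _ => sp_det (AA_mono h5)
  · exact fun k k' h5 _ => sp_det (BB_mono h5)
  · intro k hk
    refine le_trans (le_of_eq (sp_mi hQ _ _ (fun ω => (rc D ((i : ℤ), (j : ℤ)) ω, D.T ω)))) ?_
    have := p_ind k hk
    rw [hzc] at this
    linarith
  · refine le_trans ?_ (le_of_eq (sp_CH hQ (Vc D n z l i j)
      (fun ω => (rc D ((i : ℤ), (j : ℤ)) ω, D.T ω))).symm)
    have := p_VC
    rw [hzc] at this
    refine le_trans ?_ this
    have e1 : (cD1 D n z v x a l i j bb h₀ Q).X = cX z l := rfl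
    rw [e1]
    linarith
  · intro k hk
    refine le_trans (le_of_eq (sp_CH hQ (Vc D n z l i j)
      (fun ω => (AA D N v x l u i j k ω, (rc D ((i : ℤ), (j : ℤ)) ω, D.T ω))))) ?_
    have := p_VA k hk
    rw [hzc] at this
    refine this.trans ?_
    have e1 : (cD1 D n z v x a l i j bb h₀ Q).X = cX z l := rfl
    rw [e1]
    linarith
  · intro k hk
    refine le_trans (le_of_eq (sp_CH hQ (Vc D n z l i j)
      (fun ω => (BB D N v x l u i j k ω, (rc D ((i : ℤ), (j : ℤ)) ω, D.T ω))))) ?_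
    have := p_VB k hk
    rw [hzc] at this
    refine this.trans ?_
    have e1 : (cD1 D n z v x a l i j bb h₀ Q).X = cX z l := rfl
    rw [e1]
    linarith
  · intro k h5 hk
    refine le_trans (le_of_eq (sp_CH hQ (nuS D n i j h₀ (D.Ψ i j)) (fun ω =>
      (AA D N v x l u i j k ω, (Vc D n z l i j ω, (rc D ((i : ℤ), (j : ℤ)) ω, D.T ω)))))) ?_
    have := p_nA k h5 hk
    rw [hzc] at this
    exact this
  · intro k h5
    refine le_trans (le_of_eq (sp_CH hQ (nuS D n i j h₀ (D.Ψ i j)) (fun ω =>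
      (BB D N v x l u i j k ω, (Vc D n z l i j ω, (rc D ((i : ℤ), (j : ℤ)) ω, D.T ω)))))) ?_
    have := p_nB k h5
    rw [hzc] at this
    exact this
  · intro c hc
    have hk : a (c + 1) + 1 ≤ N := hac c
    have := det_csh (Q := Q) (bb := bb) hO (ownR c hc) (dT Q (AA D N v x l u i j (a (c + 1) + 1)))
      (db Q _) (dAf Q le_rfl hk).1
    rw [hzc] at this
    exact sp_det this
  · intro c hc
    refine le_trans (le_of_eq (sp_CH hQ (fun ω => csh D n z v x a l i j bb ω c)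
      (fun ω => (tie (cD D n z v x a l i j bb h₀ Q) (fun c => a (c + 1)) c ω,
          (AA D N v x l u i j (a (c + 1)) ω, (rc D ((i : ℤ), (j : ℤ)) ω, D.T ω)))))) ?_
    have := p_tA c hc
    rw [hzc] at this
    exact this
  · intro c hc
    refine le_trans (le_of_eq (sp_CH hQ ((cD D n z v x a l i j bb h₀ Q).ht c)
      (fun ω => (AA D N v x l u i j (a (c + 1) + 1) ω,
        (rc D ((i : ℤ), (j : ℤ)) ω, D.T ω))))) ?_
    have := p_hA c hc
    rw [hzc] at this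
    exact this
  · intro c hc
    have hk : a (c + 1) ≤ N := (hac c).le
    have := det_csh (Q := Q) (bb := bb) hO (ownL c hc) (dT Q (BB D N v x l u i j (a (c + 1))))
      (db Q _) (dBf Q le_rfl hk).1
    rw [hzc] at this
    exact sp_det this
  · intro c hc
    refine le_trans (le_of_eq (sp_CH hQ (fun ω => csh D n z v x a l i j bb ω c)
      (fun ω => (tie (cD D n z v x a l i j bb h₀ Q) (fun c => a (c + 1)) c ω,
          (BB D N v x l u i j (a (c + 1) + 1) ω, (rc D ((i : ℤ), (j : ℤ)) ω, D.T ω)))))) ?_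
    have := p_tB c hc
    rw [hzc] at this
    exact this
  · intro c hc
    refine le_trans (le_of_eq (sp_CH hQ ((cD D n z v x a l i j bb h₀ Q).ht c)
      (fun ω => (BB D N v x l u i j (a (c + 1)) ω,
        (rc D ((i : ℤ), (j : ℤ)) ω, D.T ω))))) ?_
    have := p_hB c hc
    rw [hzc] at this
    exact this
  · exact fun ω c => deg_csh hO ω c
  · exact fun ω c α => cf_csh ω c α
  · exact fun w => nr_bd hO hn hi.le hj.le (hQq _ w.2) h₀
  · intro ω c hc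
    unfold kR at hc
    have h5 := (vars_shpS (hO.G_tri _ _ _) (hO.G_tri _ _ _) hc).1.2.2
    by_contra h6
    have h7 := hane c
    have h8 := (glR _ haN.le (hd.ev _)).dp (c + 1) (by omega) (by have := c.2; omega)
      (show a (c + 1) < a n by omega)
    simp only at h8
    omega
  · intro ω
    exact deg_shpS (hO.G_tri _ _ _) (hO.G_tri _ _ _) (fun _ => hO.G_deg _ _ _ _)
      (fun _ => hO.G_deg _ _ _ _) le_rfl
  · exact fun ω α => cf_shpS α
  · refine le_trans (le_of_eq (sp_CH hQ (kR D n z v x a l u i j bb)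
      (fun ω => (AA D N v x l u i j (a n) ω, (rc D ((i : ℤ), (j : ℤ)) ω, D.T ω))))) ?_
    refine le_trans (le_of_eq (CH_eq_zero hQ0 ?_)) hE0
    have e1 := dT Q (AA D N v x l u i j (a n))
    have e2 := db Q (AA D N v x l u i j (a n))
    have e3 := (dAf Q (le_refl (a n)) haN.le).2
    rw [hzc] at e1 e2 e3
    exact det_shpS (fun ω _ => hO.G_tri _ _ _) (det_psi0 e2) (det_psi e3) (det_X0 hO e1)
  · refine le_trans (le_of_eq (sp_CH hQ ((cD D n z v x a l i j bb h₀ Q).hF h₀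
      (kR D n z v x a l u i j bb)) (fun ω => (AA D N v x l u i j (a n + 1) ω,
        (rc D ((i : ℤ), (j : ℤ)) ω, D.T ω))))) ?_
    have := p_hFR
    rw [hzc] at this
    exact this
  · intro ω c hc
    unfold kL at hc
    have h5 := (vars_shpS (hO.G_tri _ _ _) (hO.G_tri _ _ _) hc).1.2.2
    by_contra h6
    have h7 := hane c
    have h8 := (glL _ haN (hd.ev _)).dp (c + 1) (by omega) (by have := c.2; omega)
      (show a n + 1 ≤ a (c + 1) by omega)
    simp only at h8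
    omega
  · intro ω
    exact deg_shpS (hO.G_tri _ _ _) (hO.G_tri _ _ _) (fun _ => hO.G_deg _ _ _ _)
      (fun _ => hO.G_deg _ _ _ _) le_rfl
  · exact fun ω α => cf_shpS α
  · refine le_trans (le_of_eq (sp_CH hQ (kL D n z v x a l u i j bb)
      (fun ω => (BB D N v x l u i j (a n + 1) ω, (rc D ((i : ℤ), (j : ℤ)) ω, D.T ω))))) ?_
    refine le_trans (le_of_eq (CH_eq_zero hQ0 ?_)) hE0
    have e1 := dT Q (BB D N v x l u i j (a n + 1))
    have e2 := db Q (BB D N v x l u i j (a n + 1))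
    have e3 := (dBf Q (le_refl (a n + 1)) haN).2
    rw [hzc] at e1 e2 e3
    exact det_shpS (fun ω _ => hO.G_tri _ _ _) (det_psi0 e2) (det_psi e3) (det_X0 hO e1)
  · refine le_trans (le_of_eq (sp_CH hQ ((cD D n z v x a l i j bb h₀ Q).hF h₀
      (kL D n z v x a l u i j bb)) (fun ω => (BB D N v x l u i j (a n) ω,
        (rc D ((i : ℤ), (j : ℤ)) ω, D.T ω))))) ?_
    have := p_hFL
    rw [hzc] at this
    exact this

end cell

end Pool.GSD.Cls
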