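import Pool.Agent.H24.GSD.Vdx
import Pool.Agent.H35.TA.All
import Pool.Agent.H41.GSD.HtR

/-!
# The sheets, the heights and the two shapes of the target
-/

set_option autoImplicit false

namespace Pool.GSD.Cls

open Finset Real MvPolynomial
open Pool.Agent.H49.Ent Pool.Agent.H32.Dense Pool.STK Pool.STAT
open Pool.BFL (Pb Pl)
open Pool.GSD.Row
open Pool.LIVE20 (mi)
open Pool.MIC (ev_pos isLaw_ev)
open Pool.TIE (Dat dg)
open Pool.TA35 (Lv3 Tid)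

section levels

variable {D : NDat2} {n X s : ℕ} {b p p' : ℕ × ℕ} {P P' R' : ℕ → Prop}

theorem lv_own (hf : Gf D n X b p P) {c : ℕ} (hc : P c) (c1 : 1 ≤ c) (c2 : c ≤ n) :
    Lv D c X b p p := by
  have h1 := hf.dp c c1 c2 hc
  refine ⟨fun l l1 l2 => ?_, h1⟩
  by_cases h : P l
  · exact Or.inr (hf.dp l l1 (by omega) h)
  · have h2 := hf.re l l1 (by omega) h
    exact Or.inl ⟨h2, by omega⟩

theorem lv_k (hl : Gl D n X s b p' P' R') (hf : Gf D n X b p P) (n1 : 1 ≤ n) (hc : P n)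
    (h1 : ¬ P' n) (h2 : ¬ R' n) (hno : ∀ l, 1 ≤ l → l < n → P' l ∨ R' l) : Lv D n X b p' p := by
  have h3 := hf.dp n n1 le_rfl hc
  have h4 := hl.sm n n1 le_rfl h1 h2
  refine ⟨fun l l1 l2 => ?_, h3⟩
  rcases hno l l1 l2 with h | h
  · exact Or.inr (hl.dp l l1 l2.le h)
  · have h5 := hl.co l l1 l2.le h
    exact Or.inl ⟨by omega, by omega⟩

theorem lv3_of (hf : Gf D n X b p P) (hl : Gl D n X s b p' P' R') {c : ℕ} (c1 : 1 ≤ c) (c2 : c ≤ n)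
    (hc : P c) (h1 : ¬ P' c) (h2 : ¬ R' c) (hR : ∀ l, 1 ≤ l → l < c → R' l → ¬ P l)
    (hP : ∀ l, 1 ≤ l → l < c → ¬ R' l → P l) : Lv3 D c X s b p p' := by
  refine ⟨fun l l1 l2 => ?_, hf.dp c c1 c2 hc, hl.sm c c1 c2 h1 h2⟩
  have l3 : l ≤ n := by omega
  by_cases hr : R' l
  · have h5 := hl.co l l1 l3 hr
    exact Or.inl ⟨hf.re l l1 l3 (hR l l1 l2 hr), by omega⟩
  · have h6 := hf.dp l l1 l3 (hP l l1 l2 hr)
    by_cases hp : P' l
    · exact Or.inr (Or.inl ⟨h6, hl.dp l l1 l3 hp⟩)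
    · exact Or.inr (Or.inr ⟨h6, hl.re l l1 l3 hp, hl.sm l l1 l3 hp hr⟩)

theorem tid_of (hf : Gf D n X b p P) (hl : Gl D n X s b p' P' R') (hX : 1 ≤ X) {l : ℕ} (l1 : 1 ≤ l)
    (l2 : l ≤ n) (h : Tid D b p p' l) : P l ∧ ¬ P' l := by
  obtain ⟨h1, h2⟩ := h
  constructor
  · by_contra h3
    have := hf.re l l1 l2 h3
    omega
  · intro h3
    have := hl.dp l l1 l2 h3
    omega

end levels

/-- The heights, for the law of the cell. -/
def HtF (D : NDat2) (n K M z : ℕ) (q : D.Ω → ℝ) (C η : ℝ) : Prop :=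
  ∀ (i j i₁ j₁ i₂ j₂ X bb c : ℕ) (S : D.Ω → ℕ → PN), i < M → j < M → i₁ < M → j₁ < M →
    i₂ < M → j₂ < M → z + 2 ≤ X → C * z ≤ bb → 1 ≤ c → c ≤ n →
    Lv D c X (i, j) (i₁, j₁) (i₂, j₂) → (∀ ω, 0 < q ω → Sd D n K i j S ω) →
    Pb q (fun ω => ¬ GdsS D n z i j i₁ j₁ bb S c ω) ≤ η ∧
    ∀ (Y : Type) (y : D.Ω → Y), Det q y S → Det q y (D.Ψ i₁ j₁) → Det q y (D.Ψ i₂ j₂) →
      Det q y (fun ω => D.X ω 0) →
      (∀ (Γ' : Type) (zz : D.Ω → Γ') (pr : ℕ → ℕ × ℕ) (l : Fin (n - 1)) (h₀ : ℕ),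
        c = l + 1 → pr (l + 1) = (i₁, j₁) →
        CH q ((datS D n z i j X h₀ S zz q (shsS D n z i j bb S pr)).ht l) y ≤
          C * z + η * (X + bb + C)) ∧
      (∀ (Γ' : Type) (zz : D.Ω → Γ') (s : D.Ω → Fin (n - 1) → Pl (n - 1)) (h h₀ : ℕ),
        c = n → h ≤ h₀ → h₀ ≤ X →
        CH q ((datS D n z i j X h₀ S zz q s).hF h (shpS D n z i j i₁ j₁ bb S n)) y ≤
          C * z + η * (X + bb + C))

/-- The sheets, for the law of the cell. -/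
def TaF (D : NDat2) (n K M z : ℕ) (q : D.Ω → ℝ) (C η : ℝ) : Prop :=
  ∀ (i j i₁ j₁ i₂ j₂ X bb s : ℕ) (S : D.Ω → ℕ → PN) (pr : ℕ → ℕ × ℕ) (c : Fin (n - 1)),
    i < M → j < M → i₁ < M → j₁ < M → i₂ < M → j₂ < M → z + 2 ≤ X → C * z ≤ bb →
    Lv3 D (c + 1) X s (i, j) (i₁, j₁) (i₂, j₂) → (∀ ω, 0 < q ω → Sd D n K i j S ω) →
    pr (c + 1) = (i₁, j₁) →
    (∀ l : Fin (n - 1), l < c → Tid D (i, j) (i₁, j₁) (i₂, j₂) (l + 1) →
      pr (l + 1) = (i₁, j₁)) →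
    ∀ (Y : Type) (y : D.Ω → Y), Det q y S → Det q y (D.Ψ i₂ j₂) →
      Det q y (fun ω => D.X ω 0) →
      (∀ l : Fin (n - 1), l < c → Tid D (i, j) (i₁, j₁) (i₂, j₂) (l + 1) →
        Det q y (fun ω => dg X (vS D n z i j X S ω l -
          eval (vS D n z i j X S ω) (rnd X (shsS D n z i j bb S pr ω l))))) →
      CH q (fun ω => rnd X (shsS D n z i j bb S pr ω c)) y ≤
        C * (z + s) + η * (X + bb + C)

section cell

variable {D : NDat2} {n K J a₀ w₀ z M : ℕ} {lam gam : ℕ → ℝ} {κ C₁ : ℝ} {q : D.Ω → ℝ}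
  {W : ℝ} {N v Wd l u i j M' : ℕ} {x : ℕ → ℤ} {a : ℕ → ℕ} {C η : ℝ}

/-- Functions of the records. -/
theorem det_psi {Q : D.Ω → ℝ} {Y : Type} {y : D.Ω → Y} {p : ℤ × ℤ} (h : Det Q y (rc D p)) :
    Det Q y (D.Ψ (nt p).1 (nt p).2) := by
  intro ω ω' c c' e
  have e1 := (Prod.ext_iff.1 (h ω ω' c c' e)).1
  unfold rc at e1
  simp only at e1
  unfold NDat2.Ψ nt
  simp only
  rw [e1]

theorem det_psi0 {Q : D.Ω → ℝ} {Y : Type} {y : D.Ω → Y}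
    (h : Det Q y (rc D ((i : ℤ), (j : ℤ)))) : Det Q y (D.Ψ i j) := by
  have := det_psi h
  unfold nt at this
  simp only [Int.toNat_natCast] at this
  exact this

theorem det_X0 {Q : D.Ω → ℝ} (hO : D.Ok2 n K J a₀ w₀ z M lam gam κ C₁ q) {Y : Type} {y : D.Ω → Y}
    (h : Det Q y D.T) : Det Q y (fun ω => D.X ω 0) := by
  intro ω ω' c c' e
  simp only
  rw [hO.X_zero, hO.X_zero, h ω ω' c c' e]

theorem det_csh {Q : D.Ω → ℝ} (hO : D.Ok2 n K J a₀ w₀ z M lam gam κ C₁ q) {Y : Type}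
    {y : D.Ω → Y} {bb : ℕ} {p : ℤ × ℤ} {c : Fin (n - 1)} (hp : own n v x a l i j (c + 1) = nt p)
    (dT : Det Q y D.T) (db : Det Q y (rc D ((i : ℤ), (j : ℤ)))) (dp : Det Q y (rc D p)) :
    Det Q y (fun ω => csh D n z v x a l i j bb ω c) := by
  intro ω ω' h h' e
  unfold csh
  simp only
  have e1 : shsS D n z i j bb (D.Ψ i j) (own n v x a l i j) ω c =
      shsS D n z i j bb (D.Ψ i j) (own n v x a l i j) ω' c := by
    have e2 : shpS D n z i j (nt p).1 (nt p).2 bb (D.Ψ i j) (c + 1) ω =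
        shpS D n z i j (nt p).1 (nt p).2 bb (D.Ψ i j) (c + 1) ω' :=
      det_shpS (q := Q) (S := D.Ψ i j) (fun ω _ => hO.G_tri _ _ _) (det_psi0 db) (det_psi dp)
        (det_X0 hO dT) ω ω' h h' e
    unfold shsS
    rw [hp, e2]
  rw [e1]

/-- The numbers of the errors. -/
theorem num_X (hz : 1 ≤ z) {bb : ℕ} (hbb : bb ≤ 2 ^ l * z) (hη : η ≤ 1 / 2) (hη0 : 0 ≤ η)
    (hC : 0 ≤ C) : η * ((cX z l : ℝ) + bb + C) ≤ 2 * η * (2 ^ l * z) + 2 * z + C := by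
  have hz1 : (1 : ℝ) ≤ z := by exact_mod_cast hz
  have h1 : (cX z l : ℝ) ≤ 2 ^ l * z + 3 * z := by
    rw [cX_eq]
    have := U_le (l := l) (z := z)
    push_cast at this ⊢
    linarith
  have h2 : (bb : ℝ) ≤ 2 ^ l * z := by exact_mod_cast hbb
  have h3 : η * ((cX z l : ℝ) + bb + C) ≤ η * (2 * (2 ^ l * z) + 3 * z + C) :=
    mul_le_mul_of_nonneg_left (by linarith) hη0
  have h4 : η * (3 * z + C) ≤ 1 / 2 * (3 * z + C) := mul_le_mul_of_nonneg_right hη (by positivity)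
  nlinarith

/-- From the law to the event, small entropies. -/
theorem ev_few (hp : IsLaw q) {A : Type} {Cc : Type} (f : D.Ω → A) (c : D.Ω → Cc) (G : D.Ω → Prop)
    {e : ℝ} (hG : 1 / 2 ≤ Pb q G) (he : 0 ≤ e)
    (h : CH q f c ≤ e) : CH (cond q G True) f c ≤ 2 * e := by
  have := ev_up hp f c G (η := 1 / 2) (F := 0) (e := e) le_rfl (by norm_num) (by linarith) le_rfl he
    (by linarith)
  linarith

/-- **The height over an own sheet.** -/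
theorem h_ev (hO : D.Ok2 n K J a₀ w₀ z M lam gam κ C₁ q) (hH : HtF D n K M z q C η) {Cr : ℝ}
    (hR : ∀ (D : NDat2) (z i j X bb h₀ : ℕ)
      (S : D.Ω → ℕ → PN) (Γ' : Type) (zz : D.Ω → Γ') (q : D.Ω → ℝ) (pr : ℕ → ℕ × ℕ)
      (l : Fin (n - 1)) (Y : Type) (y : D.Ω → Y), IsLaw q →
      (∀ i j x, TriN (D.G i j x)) → (∀ i j x l, (D.G i j x l).totalDegree ≤ K) →
      (∀ ω, 0 < q ω → Sd D n K i j S ω) →
      CH q ((datS D n z i j X h₀ S zz q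
          (fun ω l => rnd X (shsS D n z i j bb S pr ω l))).ht l) y ≤
        CH q ((datS D n z i j X h₀ S zz q (shsS D n z i j bb S pr)).ht l) y + Cr)
    (hCr : 0 ≤ Cr) (hi : i < M) (hj : j < M) {p : ℤ × ℤ} (hp1 : (nt p).1 < M) (hp2 : (nt p).2 < M)
    (hz : 1 ≤ z) {bb h₀ : ℕ} (hb1 : C * z ≤ bb) (hb2 : bb ≤ 2 ^ l * z) (hη : η ≤ 1 / 2)
    (hη0 : 0 ≤ η) (hC : 0 ≤ C) {P : ℕ → Prop} (hf : Gf D n (cX z l) (i, j) (nt p) P)
    {c : Fin (n - 1)} (hc : P (c + 1)) (hp : own n v x a l i j (c + 1) = nt p) {Y : Type}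
    {y : D.Ω → Y} (dT : Det q y D.T) (db : Det q y (rc D ((i : ℤ), (j : ℤ))))
    (dp : Det q y (rc D p)) (G : D.Ω → Prop) (hG : 1 / 2 ≤ Pb q G) :
    CH (cond q G True) ((cD D n z v x a l i j bb h₀ (cond q G True)).ht c) y ≤
      2 * (C * z + (2 * η * (2 ^ l * z) + 2 * z + C) + Cr) := by
  have hlv : Lv D (c + 1) (cX z l) (i, j) (nt p) (nt p) :=
    lv_own hf hc (by omega) (by have := c.2; omega)
  have hsd : ∀ ω, 0 < q ω → Sd D n K i j (D.Ψ i j) ω := fun ω hω => sd_vis hO hi.le hj.le hω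
  have h1 := (hH i j (nt p).1 (nt p).2 (nt p).1 (nt p).2 (cX z l) bb (c + 1) (D.Ψ i j) hi hj hp1 hp2
    hp1 hp2 (by rw [cX_eq]; omega) hb1 (by omega) (by have := c.2; omega) hlv hsd).2 Y y
    (det_psi0 db) (det_psi dp) (det_psi dp) (det_X0 hO dT)
  have h2 := h1.1 _ (fun ω => (rc D ((i : ℤ), (j : ℤ)) ω, D.T ω)) (own n v x a l i j) c h₀ rfl hp
  have h3 := hR D z i j (cX z l) bb h₀ (D.Ψ i j) _ (fun ω => (rc D ((i : ℤ), (j : ℤ)) ω, D.T ω)) q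
    (own n v x a l i j) c Y y hO.isLaw hO.G_tri hO.G_deg hsd
  have h4 := num_X (l := l) (η := η) (C := C) hz hb2 hη hη0 hC
  have e0 : 0 ≤ C * z + (2 * η * (2 ^ l * z) + 2 * z + C) + Cr := by positivity
  refine ev_few hO.isLaw _ y G hG e0 ?_
  have e1 : (cD D n z v x a l i j bb h₀ (cond q G True)).ht c =
      (datS D n z i j (cX z l) h₀ (D.Ψ i j) (fun ω => (rc D ((i : ℤ), (j : ℤ)) ω, D.T ω)) q
        (fun ω l' => rnd (cX z l) (shsS D n z i j bb (D.Ψ i j) (own n v x a l i j) ω l'))).ht c := by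
    unfold cD
    rw [datS_ht, datS_ht]
    rfl
  rw [e1]
  linarith

/-- **The height over the shape of the target.** -/
theorem hF_ev (hO : D.Ok2 n K J a₀ w₀ z M lam gam κ C₁ q) (hH : HtF D n K M z q C η)
    (hn : 1 ≤ n) (hi : i < M) (hj : j < M) {p p' : ℤ × ℤ} (hp1 : (nt p).1 < M) (hp2 : (nt p).2 < M)
    (hp1' : (nt p').1 < M) (hp2' : (nt p').2 < M)
    (hz : 1 ≤ z) {bb h₀ : ℕ} (hh : h₀ ≤ 2 ^ (l - 1) * z) (hb1 : C * z ≤ bb)
    (hb2 : bb ≤ 2 ^ l * z) (hη : η ≤ 1 / 2)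
    (hη0 : 0 ≤ η) (hC : 0 ≤ C) (hlv : Lv D n (cX z l) (i, j) (nt p) (nt p')) {Y : Type}
    {y : D.Ω → Y} (dT : Det q y D.T) (db : Det q y (rc D ((i : ℤ), (j : ℤ))))
    (dp : Det q y (rc D p)) (dp' : Det q y (rc D p')) (G : D.Ω → Prop) (hG : 1 / 2 ≤ Pb q G) :
    CH (cond q G True) ((cD D n z v x a l i j bb h₀ (cond q G True)).hF h₀
      (shpS D n z i j (nt p).1 (nt p).2 bb (D.Ψ i j) n)) y ≤
      2 * (C * z + (2 * η * (2 ^ l * z) + 2 * z + C)) := by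
  have hsd : ∀ ω, 0 < q ω → Sd D n K i j (D.Ψ i j) ω := fun ω hω => sd_vis hO hi.le hj.le hω
  have h1 := (hH i j (nt p).1 (nt p).2 (nt p').1 (nt p').2 (cX z l) bb n (D.Ψ i j) hi hj hp1 hp2
    hp1' hp2' (by rw [cX_eq]; omega) hb1 hn le_rfl hlv hsd).2 Y y
    (det_psi0 db) (det_psi dp) (det_psi dp') (det_X0 hO dT)
  have h2 := h1.2 _ (fun ω => (rc D ((i : ℤ), (j : ℤ)) ω, D.T ω))
    (csh D n z v x a l i j bb) h₀ h₀ rfl le_rfl (by rw [cX_eq]; omega)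
  have h4 := num_X (l := l) (η := η) (C := C) hz hb2 hη hη0 hC
  have e0 : 0 ≤ C * z + (2 * η * (2 ^ l * z) + 2 * z + C) := by positivity
  refine ev_few hO.isLaw _ y G hG e0 ?_
  have e1 : (cD D n z v x a l i j bb h₀ (cond q G True)).hF h₀
      (shpS D n z i j (nt p).1 (nt p).2 bb (D.Ψ i j) n) =
      (datS D n z i j (cX z l) h₀ (D.Ψ i j) (fun ω => (rc D ((i : ℤ), (j : ℤ)) ω, D.T ω)) q
        (csh D n z v x a l i j bb)).hF h₀ (shpS D n z i j (nt p).1 (nt p).2 bb (D.Ψ i j) n) := by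
    unfold cD
    rw [datS_hF, datS_hF]
  rw [e1]
  linarith

/-- **The sheets given the other side and the heights of the ties.** -/
theorem t_ev (hO : D.Ok2 n K J a₀ w₀ z M lam gam κ C₁ q) (hT : TaF D n K M z q C η)
    (hi : i < M) (hj : j < M) {p p' : ℤ × ℤ} (hp1 : (nt p).1 < M) (hp2 : (nt p).2 < M)
    (hp1' : (nt p').1 < M) (hp2' : (nt p').2 < M)
    (hz : 1 ≤ z) {bb h₀ s : ℕ} (hb1 : C * z ≤ bb) (hb2 : bb ≤ 2 ^ l * z) (hη : η ≤ 1 / 2)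
    (hη0 : 0 ≤ η) (hC : 0 ≤ C) {c : Fin (n - 1)}
    (hlv : Lv3 D (c + 1) (cX z l) s (i, j) (nt p) (nt p'))
    (htid : ∀ l' : Fin (n - 1), l' < c → Tid D (i, j) (nt p) (nt p') (l' + 1) →
      a (l' + 1) = a (c + 1))
    (hp : own n v x a l i j (c + 1) = nt p)
    (hpl : ∀ l' : Fin (n - 1), a (l' + 1) = a (c + 1) → own n v x a l i j (l' + 1) = nt p)
    {Γ : Type} {A : D.Ω → Γ} (dA : Det q A (rc D p')) (G : D.Ω → Prop) (hG : 1 / 2 ≤ Pb q G) :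
    CH (cond q G True) (fun ω => csh D n z v x a l i j bb ω c)
      (fun ω => (tie (cD D n z v x a l i j bb h₀ (cond q G True)) (fun c => a (c + 1)) c ω,
        (A ω, (rc D ((i : ℤ), (j : ℤ)) ω, D.T ω)))) ≤
      2 * (C * (z + s) + (2 * η * (2 ^ l * z) + 2 * z + C)) := by
  have hsd : ∀ ω, 0 < q ω → Sd D n K i j (D.Ψ i j) ω := fun ω hω => sd_vis hO hi.le hj.le hω
  have h4 := num_X (l := l) (η := η) (C := C) hz hb2 hη hη0 hC
  have e0 : 0 ≤ C * (z + s) + (2 * η * (2 ^ l * z) + 2 * z + C) := by positivity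
  refine ev_few hO.isLaw _ _ G hG e0 ?_
  have h1 := hT i j (nt p).1 (nt p).2 (nt p').1 (nt p').2 (cX z l) bb s (D.Ψ i j)
    (own n v x a l i j) c hi hj hp1 hp2 hp1' hp2' (by rw [cX_eq]; omega) hb1 hlv hsd hp
    (fun l' h5 h6 => hpl l' (htid l' h5 h6)) _
    (fun ω => (tie (cD D n z v x a l i j bb h₀ (cond q G True)) (fun c => a (c + 1)) c ω,
        (A ω, (rc D ((i : ℤ), (j : ℤ)) ω, D.T ω))))
    (det_psi0 fun ω ω' _ _ e => (Prod.ext_iff.1 (Prod.ext_iff.1 (Prod.ext_iff.1 e).2).2).1)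
    (det_psi fun ω ω' h h' e => dA ω ω' h h' (Prod.ext_iff.1 (Prod.ext_iff.1 e).2).1)
    (det_X0 hO fun ω ω' _ _ e => (Prod.ext_iff.1 (Prod.ext_iff.1 (Prod.ext_iff.1 e).2).2).2)
    (by
      intro l' h5 h6 ω ω' _ _ e
      have e1 := congrFun (Prod.ext_iff.1 e).1 l'
      have e2 : a (l' + 1) = a (c + 1) ∧ l' < c := ⟨htid l' h5 h6, h5⟩
      unfold tie at e1
      simp only at e1
      rw [if_pos e2, if_pos e2] at e1
      have e3 := Option.some.inj e1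
      unfold cD at e3
      rw [datS_ht] at e3
      exact e3)
  refine le_trans (le_of_eq rfl) (h1.trans ?_)
  linarith

end cell

end Pool.GSD.Cls
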