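import Pool.Agent.H41.FRM.Frm
import Pool.Agent.H87.STAT.Nrm

/-!
# The hull lemma

Two samples with frames `P`, `P'` (see `H41/FRM/Frm`) and the same labels at the places of a set
`A` of the grid: the labels of the two samples agree, up to `exp (C z)` natural units, at all the
places of the convex hull of `A`.
-/

set_option autoImplicit false

namespace Pool.GSD.Row

open Finset Real MvPolynomial
open Pool.STAT Pool.MIC.Frm Pool.FRM

/-- The system `Φ` is near to the chart `P`. -/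
def Nc (g : ℕ → ℕ) (m : ℕ) (P Φ : ℕ → PN) (S : ℝ) : Prop :=
  ∀ l < m, nrm g (1 / 2) (chr P (Φ l - P l)) ≤ S / 2 ^ g l

theorem Nc.mono {g : ℕ → ℕ} {m m' : ℕ} {P Φ : ℕ → PN} {S S' : ℝ} (h : Nc g m P Φ S)
    (hm : m' ≤ m) (hS : S ≤ S') : Nc g m' P Φ S' := fun l hl =>
  (h l (by omega)).trans (div_le_div_of_nonneg_right hS (by positivity))

/-- The values in a chart. -/
theorem val {g : ℕ → ℕ} {P : ℕ → PN} {F : PN} {m K : ℕ} {B S : ℝ} (hP : TriN P)
    (hF : F.vars ⊆ range m) (hK : (chr P F).totalDegree ≤ K) (hB : 1 ≤ B)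
    (hn : nrm g (1 / 2) (chr P F) ≤ S) {b : ℕ → ℝ} (hb : ∀ k < m, |zs P b k| ≤ B / 2 ^ g k) :
    |eval b F| ≤ B ^ K * S := by
  rw [← chr_eval hP b F]
  exact (eval_le_nrm (chr_vars hP hF) hK g hB hb).trans
    (mul_le_mul_of_nonneg_left hn (by positivity))

/-- From the box of `P` to the box of `Φ`. -/
theorem box_out {g : ℕ → ℕ} {P Φ : ℕ → PN} {m K : ℕ} {B S : ℝ} (hP : TriN P) (hΦ : TriN Φ)
    (dP : ∀ i < m, (P i).totalDegree ≤ K) (dΦ : ∀ i < m, (Φ i).totalDegree ≤ K) (hB : 1 ≤ B)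
    (hS : 1 ≤ S) (hn : Nc g m P Φ S) {b : ℕ → ℝ} (hb : ∀ k < m, |zs P b k| ≤ B / 2 ^ g k) :
    ∀ k < m, |zs Φ b k| ≤ 2 * (B * S) ^ (K * (K + 1) ^ m + 1) / 2 ^ g k := by
  intro k hk
  have hKk : K * (K + 1) ^ k ≤ K * (K + 1) ^ m :=
    Nat.mul_le_mul_left _ (Nat.pow_le_pow_right (Nat.succ_pos _) hk.le)
  have e1 := val hP (AdxRow.vars_sub_le (hΦ k) (hP k)) (K := K * (K + 1) ^ m)
    ((chr_deg (K := K) (K' := K) hP (fun i hi => dP i (by omega))
      (AdxRow.vars_sub_le (hΦ k) (hP k))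
      ((totalDegree_sub _ _).trans (max_le (dΦ k hk) (dP k hk)))).trans hKk) hB (hn k hk)
    (b := b) fun i hi => hb i (by omega)
  have e2 : zs Φ b k = zs P b k - eval b (Φ k - P k) := by
    unfold zs
    rw [map_sub]
    ring
  rw [e2]
  refine (abs_sub _ _).trans ((add_le_add (hb k hk) e1).trans ?_)
  rw [← mul_div_assoc, ← add_div]
  refine div_le_div_of_nonneg_right ?_ (by positivity)
  have hBS : 1 ≤ B * S := one_le_mul_of_one_le_of_one_le hB hS
  have f1 : B ≤ (B * S) ^ (K * (K + 1) ^ m + 1) := by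
    calc B ≤ B * S := le_mul_of_one_le_right (by linarith) hS
      _ ≤ (B * S) ^ (K * (K + 1) ^ m + 1) := le_self_pow₀ hBS (by omega)
  have f2 : B ^ (K * (K + 1) ^ m) * S ≤ (B * S) ^ (K * (K + 1) ^ m + 1) := by
    rw [pow_succ, mul_pow]
    have g1 : 1 ≤ S ^ (K * (K + 1) ^ m) := one_le_pow₀ hS
    have g2 : 0 ≤ B ^ (K * (K + 1) ^ m) := by positivity
    have g3 : S ≤ B * S := le_mul_of_one_le_left (by linarith) hB
    calc B ^ (K * (K + 1) ^ m) * S ≤ (B ^ (K * (K + 1) ^ m) * S ^ (K * (K + 1) ^ m)) * S :=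
          mul_le_mul_of_nonneg_right (le_mul_of_one_le_right g2 g1) (by linarith)
      _ ≤ (B ^ (K * (K + 1) ^ m) * S ^ (K * (K + 1) ^ m)) * (B * S) :=
          mul_le_mul_of_nonneg_left g3 (by positivity)
  linarith

/-- From the box of `Φ` to the box of `P`. -/
theorem box_in (K : ℕ) : ∀ m : ℕ, ∃ (C : ℝ) (D : ℕ), 1 ≤ C ∧ ∀ (g : ℕ → ℕ) (P Φ : ℕ → PN)
    (B S : ℝ), TriN P → TriN Φ → (∀ i < m, (P i).totalDegree ≤ K) →
    (∀ i < m, (Φ i).totalDegree ≤ K) → 1 ≤ B → 1 ≤ S → Nc g m P Φ S → ∀ b : ℕ → ℝ,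
    (∀ k < m, |zs Φ b k| ≤ B / 2 ^ g k) → ∀ k < m, |zs P b k| ≤ C * (B * S) ^ D / 2 ^ g k := by
  intro m
  induction m with
  | zero => exact ⟨1, 0, le_rfl, fun _ _ _ _ _ _ _ _ _ _ _ _ _ _ k hk =>
      absurd hk (Nat.not_lt_zero _)⟩
  | succ m ih =>
    obtain ⟨C, D, hC, h⟩ := ih
    obtain ⟨K', hK'⟩ : ∃ K', K' = K * (K + 1) ^ m := ⟨_, rfl⟩
    refine ⟨C + (1 + C ^ K'), D + (D * K' + 1), by
      have : (0 : ℝ) ≤ C ^ K' := by positivity
      linarith, ?_⟩
    intro g P Φ B S hP hΦ dP dΦ hB hS hn b hb k hk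
    have ih' := h g P Φ B S hP hΦ (fun i hi => dP i (by omega)) (fun i hi => dΦ i (by omega)) hB hS
      (hn.mono (by omega) le_rfl) b fun i hi => hb i (by omega)
    have hBS : 1 ≤ B * S := one_le_mul_of_one_le_of_one_le hB hS
    have hC0 : (0 : ℝ) ≤ C ^ K' := by positivity
    have hQ1 : 1 ≤ C * (B * S) ^ D := one_le_mul_of_one_le_of_one_le hC (one_le_pow₀ hBS)
    rcases Nat.lt_or_ge k m with hk' | hk'
    · refine (ih' k hk').trans (div_le_div_of_nonneg_right ?_ (by positivity))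
      refine mul_le_mul (by linarith) (pow_le_pow_right₀ hBS (by omega)) (by positivity) (by linarith)
    · obtain rfl : k = m := by omega
      have e1 := val hP (AdxRow.vars_sub_le (hΦ k) (hP k)) (K := K') (by
        rw [hK']
        exact chr_deg (K := K) (K' := K) hP (fun i hi => dP i (by omega))
          (AdxRow.vars_sub_le (hΦ k) (hP k))
          ((totalDegree_sub _ _).trans (max_le (dΦ k (by omega)) (dP k (by omega)))))
        hQ1 (hn k (by omega)) (b := b) ih'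
      have e2 : zs P b k = zs Φ b k + eval b (Φ k - P k) := by
        unfold zs
        rw [map_sub]
        ring
      rw [e2]
      refine (abs_add_le _ _).trans ((add_le_add (hb k (by omega)) e1).trans ?_)
      rw [← mul_div_assoc, ← add_div]
      refine div_le_div_of_nonneg_right ?_ (by positivity)
      have hE : (B * S) ^ (D * K' + 1) ≤ (B * S) ^ (D + (D * K' + 1)) :=
        pow_le_pow_right₀ hBS (by omega)
      have f1 : B ≤ (B * S) ^ (D * K' + 1) := by
        calc B ≤ B * S := le_mul_of_one_le_right (by linarith) hS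
          _ ≤ (B * S) ^ (D * K' + 1) := le_self_pow₀ hBS (by omega)
      have f2 : (C * (B * S) ^ D) ^ K' * S ≤ C ^ K' * (B * S) ^ (D * K' + 1) := by
        rw [mul_pow, ← pow_mul, pow_succ, mul_assoc]
        refine mul_le_mul_of_nonneg_left ?_ hC0
        refine mul_le_mul_of_nonneg_left ?_ (by positivity)
        exact le_mul_of_one_le_left (by linarith) hB
      have f3 : 0 ≤ (B * S) ^ (D * K' + 1) := by positivity
      calc B + (C * (B * S) ^ D) ^ K' * S ≤ (1 + C ^ K') * (B * S) ^ (D * K' + 1) := by linarith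
        _ ≤ (C + (1 + C ^ K')) * (B * S) ^ (D + (D * K' + 1)) :=
            mul_le_mul (by linarith) hE f3 (by linarith)

/-- **Two frames near to one system.** -/
theorem fr_fr (K : ℕ) : ∀ m : ℕ, ∃ (C : ℝ) (D : ℕ), 1 ≤ C ∧ ∀ (g : ℕ → ℕ) (P P' Φ : ℕ → PN)
    (S : ℝ), TriN P → TriN P' → TriN Φ → (∀ i < m, (P i).totalDegree ≤ K) →
    (∀ i < m, (P' i).totalDegree ≤ K) → (∀ i < m, (Φ i).totalDegree ≤ K) → 1 ≤ S →
    Nc g m P Φ S → Nc g m P' Φ S → Nc g m P P' (C * S ^ D) := by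
  intro m
  induction m with
  | zero => exact ⟨1, 0, le_rfl, fun _ _ _ _ _ _ _ _ _ _ _ _ _ _ l hl =>
      absurd hl (Nat.not_lt_zero _)⟩
  | succ m ih =>
    obtain ⟨C, D, hC, h⟩ := ih
    obtain ⟨C₁, D₁, hC₁, hs⟩ := step m K
    refine ⟨C + (1 + C₁ * C ^ D₁), D + (D * D₁ + 1), by
      have : (0 : ℝ) ≤ C₁ * C ^ D₁ := by positivity
      linarith, ?_⟩
    intro g P P' Φ S hP hP' hΦ dP dP' dΦ hS n1 n2 l hl
    have ih' := h g P P' Φ S hP hP' hΦ (fun i hi => dP i (by omega)) (fun i hi => dP' i (by omega))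
      (fun i hi => dΦ i (by omega)) hS (n1.mono (by omega) le_rfl) (n2.mono (by omega) le_rfl)
    have hc0 : (0 : ℝ) ≤ C₁ * C ^ D₁ := by positivity
    rcases Nat.lt_or_ge l m with hl' | hl'
    · refine (ih' l hl').trans (div_le_div_of_nonneg_right ?_ (by positivity))
      exact mul_le_mul (by linarith) (pow_le_pow_right₀ hS (by omega)) (by positivity) (by linarith)
    · obtain rfl : l = m := by omega
      have hQ1 : 1 ≤ C * S ^ D := one_le_mul_of_one_le_of_one_le hC (one_le_pow₀ hS)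
      have e1 := hs g P' P (Φ l - P' l) (S / 2 ^ g l) (C * S ^ D) hP' hP
        (fun i hi => dP' i (by omega)) (fun i hi => dP i (by omega))
        (AdxRow.vars_sub_le (hΦ l) (hP' l))
        ((totalDegree_sub _ _).trans (max_le (dΦ l (by omega)) (dP' l (by omega)))) hQ1 ih' (by
          intro b hb
          have := val (K := (chr P' (Φ l - P' l)).totalDegree) hP'
            (AdxRow.vars_sub_le (hΦ l) (hP' l)) le_rfl (le_refl (1 : ℝ)) (n2 l (by omega)) (b := b)
            (fun k hk => by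
              have := hb k hk
              rw [nat_eq, abs_mul, abs_of_pos (by positivity)] at this
              rw [le_div_iff₀ (by positivity)]
              linarith)
          rwa [one_pow, one_mul] at this)
      have e2 : chr P (P' l - P l) = chr P (Φ l - P l) + -chr P (Φ l - P' l) := by
        rw [chr_sub, chr_sub, chr_sub]
        ring
      rw [e2]
      refine (Pool.STAT.NRM.nrm_add _ (by norm_num) _ _).trans ?_
      rw [Pool.STAT.NRM.nrm_neg]
      refine (add_le_add (n1 l (by omega)) e1).trans ?_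
      rw [← mul_div_assoc, ← add_div]
      refine div_le_div_of_nonneg_right ?_ (by positivity)
      have f1 : S ≤ S ^ (D * D₁ + 1) := le_self_pow₀ hS (by omega)
      have f2 : C₁ * (C * S ^ D) ^ D₁ * S = C₁ * C ^ D₁ * S ^ (D * D₁ + 1) := by
        rw [mul_pow, ← pow_mul, pow_succ]
        ring
      have f3 : S ^ (D * D₁ + 1) ≤ S ^ (D + (D * D₁ + 1)) := pow_le_pow_right₀ hS (by omega)
      rw [f2]
      calc S + C₁ * C ^ D₁ * S ^ (D * D₁ + 1) ≤ (1 + C₁ * C ^ D₁) * S ^ (D * D₁ + 1) := by linarith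
        _ ≤ (C + (1 + C₁ * C ^ D₁)) * S ^ (D + (D * D₁ + 1)) :=
            mul_le_mul (by linarith) f3 (by positivity) (by linarith)

/-- **The hull**: the difference of two frames at a place between others. -/
theorem hull {K m : ℕ} {ι : Type} {A : Set ι} {ga : ι → ℕ → ℕ} {g : ℕ → ℕ} {P P' : ℕ → PN}
    {S : ℝ} {s : ℕ} (hP : TriN P) (hP' : TriN P') (dP : ∀ i < m, (P i).totalDegree ≤ K)
    (dP' : ∀ i < m, (P' i).totalDegree ≤ K) (hS : 0 ≤ S) (hA : ∀ a ∈ A, Nc (ga a) m P P' S)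
    (hw : ∀ l < m, ∀ α ∈ exs l (K * (K + 1) ^ l), ∃ a ∈ A,
      Finsupp.weight (ga a) α + g l ≤ Finsupp.weight g α + ga a l + s) :
    Nc g m P P' ((exs m (K * (K + 1) ^ m)).card * (S * 2 ^ s)) := by
  intro l hl
  have hv : (P' l - P l : PN).vars ⊆ range l := AdxRow.vars_sub_le (hP' l) (hP l)
  have hd : (chr P (P' l - P l)).totalDegree ≤ K * (K + 1) ^ l :=
    chr_deg (K := K) (K' := K) hP (fun i hi => dP i (by omega)) hv
      ((totalDegree_sub _ _).trans (max_le (dP' l hl) (dP l hl)))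
  have e1 := nrm_le_coeff (chr_vars hP hv) hd g (by norm_num : (0 : ℝ) ≤ 1 / 2)
    (S := S * 2 ^ s / 2 ^ g l) (by
      intro α
      by_cases hα : α ∈ (chr P (P' l - P l)).support
      · obtain ⟨a, ha, hw'⟩ := hw l hl α (supp_exs (chr_vars hP hv) hd hα)
        have e2 := (coeff_le_nrm (ga a) (by norm_num : (0 : ℝ) ≤ 1 / 2) (chr P (P' l - P l)) α).trans
          (hA a ha l hl)
        rw [half_pow, mul_one_div, div_le_div_iff₀ (by positivity) (by positivity)] at e2
        rw [half_pow, mul_one_div, div_le_div_iff₀ (by positivity) (by positivity)]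
        have e3 : (2 : ℝ) ^ Finsupp.weight (ga a) α * 2 ^ g l ≤
            2 ^ Finsupp.weight g α * 2 ^ ga a l * 2 ^ s := by
          rw [← pow_add, ← pow_add, ← pow_add]
          exact pow_le_pow_right₀ one_le_two hw'
        have p1 : (0 : ℝ) < 2 ^ ga a l := by positivity
        refine le_of_mul_le_mul_right ?_ p1
        calc |coeff α (chr P (P' l - P l))| * 2 ^ g l * 2 ^ ga a l
            = |coeff α (chr P (P' l - P l))| * 2 ^ ga a l * 2 ^ g l := by ring
          _ ≤ S * 2 ^ Finsupp.weight (ga a) α * 2 ^ g l :=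
              mul_le_mul_of_nonneg_right e2 (by positivity)
          _ = S * (2 ^ Finsupp.weight (ga a) α * 2 ^ g l) := by ring
          _ ≤ S * (2 ^ Finsupp.weight g α * 2 ^ ga a l * 2 ^ s) :=
              mul_le_mul_of_nonneg_left e3 hS
          _ = S * 2 ^ s * 2 ^ Finsupp.weight g α * 2 ^ ga a l := by ring
      · rw [notMem_support_iff.1 hα, abs_zero, zero_mul]
        positivity)
  refine e1.trans ?_
  rw [← mul_div_assoc]
  refine div_le_div_of_nonneg_right (mul_le_mul_of_nonneg_right ?_ (by positivity)) (by positivity)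
  have : (exs l (K * (K + 1) ^ l)) ⊆ exs m (K * (K + 1) ^ m) := by
    intro α hα
    unfold exs at hα ⊢
    rw [Finset.mem_finsupp_iff] at hα ⊢
    refine ⟨hα.1.trans (Finset.range_mono hl.le), fun i _ => ?_⟩
    have h2 : K * (K + 1) ^ l ≤ K * (K + 1) ^ m :=
      Nat.mul_le_mul_left _ (Nat.pow_le_pow_right (Nat.succ_pos _) hl.le)
    by_cases hi : i ∈ range l
    · have := hα.2 i hi
      rw [mem_range] at this ⊢
      omega
    · have h3 : i ∉ α.support := fun h => hi (hα.1 h)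
      rw [Finsupp.notMem_support_iff] at h3
      rw [h3, mem_range]
      omega
  exact_mod_cast Finset.card_le_card this

/-- **The labels of two samples.** -/
theorem lab_dif (K m : ℕ) : ∃ (C : ℝ) (D : ℕ), 1 ≤ C ∧ ∀ (g : ℕ → ℕ) (P P' Ψ Ψ' : ℕ → PN)
    (S : ℝ), TriN P → TriN P' → TriN Ψ → TriN Ψ' → (∀ i < m, (P i).totalDegree ≤ K) →
    (∀ i < m, (P' i).totalDegree ≤ K) → (∀ i < m, (Ψ i).totalDegree ≤ K) →
    (∀ i < m, (Ψ' i).totalDegree ≤ K) → 1 ≤ S → Nc g m P Ψ S → Nc g m P' Ψ' S → Nc g m P P' S →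
    ∀ l < m, ∀ b : ℕ → ℝ, (∀ k < l, |nat g Ψ b k| ≤ 1) →
      |eval b (Ψ l) - eval b (Ψ' l)| ≤ C * S ^ D / 2 ^ g l := by
  obtain ⟨C, D, hC, h⟩ := box_in K m
  obtain ⟨K', hK'⟩ : ∃ K', K' = K * (K + 1) ^ m := ⟨_, rfl⟩
  obtain ⟨E, hE⟩ : ∃ E : ℝ, E = 2 * C ^ (K' + 1) := ⟨_, rfl⟩
  have hE1 : 1 ≤ E := by
    rw [hE]
    have := one_le_pow₀ (n := K' + 1) hC
    linarith
  refine ⟨3 * E ^ K', (D + 1) * (K' + 1) * K' + 1, by
    have := one_le_pow₀ (n := K') hE1
    linarith, ?_⟩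
  intro g P P' Ψ Ψ' S hP hP' hΨ hΨ' dP dP' dΨ dΨ' hS n1 n2 n3 l hl b hb
  have hKl : K * (K + 1) ^ l ≤ K' := by
    rw [hK']
    exact Nat.mul_le_mul_left _ (Nat.pow_le_pow_right (Nat.succ_pos _) hl.le)
  have hcut : ∀ {F G : ℕ → PN}, TriN F → TriN G → (∀ i < m, (F i).totalDegree ≤ K) →
      (∀ i < m, (G i).totalDegree ≤ K) → (chr F (G l - F l)).totalDegree ≤ K' :=
    fun hF hG dF dG => (chr_deg (K := K) (K' := K) hF (fun i hi => dF i (by omega))
      (AdxRow.vars_sub_le (hG l) (hF l))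
      ((totalDegree_sub _ _).trans (max_le (dG l hl) (dF l hl)))).trans hKl
  -- truncated systems: only the coordinates before `l`
  have b1 : ∀ k < l, |zs P b k| ≤ C * S ^ D / 2 ^ g k := by
    -- the point with the coordinates `0` over `Ψ` from `l` on
    obtain ⟨b', hb'⟩ : ∃ b' : ℕ → ℝ, b' = ps Ψ (fun k => if k < l then zs Ψ b k else 0) := ⟨_, rfl⟩
    have z1 : ∀ k, zs Ψ b' k = if k < l then zs Ψ b k else 0 := by
      intro k
      rw [hb', zs_ps hΨ]
    have hbb : ∀ k < l, b' k = b k := by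
      intro k
      induction k using Nat.strong_induction_on with
      | _ k ihk =>
        intro hk
        have e1 := z1 k
        rw [if_pos hk] at e1
        unfold zs at e1
        have e2 : eval b' (Ψ k) = eval b (Ψ k) :=
          Pool.SYS35.eval_congr (hΨ k) fun i hi => ihk i hi (by omega)
        rw [e2] at e1
        linarith
    have h1 := h g P Ψ 1 S hP hΨ dP dΨ le_rfl hS n1 b' (fun k hk => by
      rw [z1 k]
      split_ifs with h2
      · have := hb k h2
        rw [nat_eq, abs_mul, abs_of_pos (by positivity)] at this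
        rw [le_div_iff₀ (by positivity)]
        linarith
      · rw [abs_zero]
        positivity)
    intro k hk
    have h2 := h1 k (by omega)
    rw [one_mul] at h2
    have e3 : zs P b' k = zs P b k := by
      unfold zs
      rw [hbb k hk, Pool.SYS35.eval_congr (hP k) fun i hi => hbb i (by omega)]
    rwa [e3] at h2
  have hQ1 : 1 ≤ C * S ^ D := one_le_mul_of_one_le_of_one_le hC (one_le_pow₀ hS)
  -- the box of `P'`
  obtain ⟨B, hB⟩ : ∃ B : ℝ, B = 2 * (C * S ^ D * S) ^ (K' + 1) := ⟨_, rfl⟩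
  have hCS : 1 ≤ C * S ^ D * S := one_le_mul_of_one_le_of_one_le hQ1 hS
  have hB1 : 1 ≤ B := by
    rw [hB]
    have := one_le_pow₀ (n := K' + 1) hCS
    linarith
  have b2 : ∀ k < l, |zs P' b k| ≤ B / 2 ^ g k := by
    intro k hk
    have h1 := box_out (m := l) (K := K) hP hP' (fun i hi => dP i (by omega))
      (fun i hi => dP' i (by omega)) hQ1 hS (n3.mono hl.le le_rfl) b1 k hk
    refine h1.trans (div_le_div_of_nonneg_right ?_ (by positivity))
    rw [hB]
    refine mul_le_mul_of_nonneg_left (pow_le_pow_right₀ hCS (by omega)) (by norm_num)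
  have hQB : C * S ^ D ≤ B := by
    rw [hB]
    have h1 : C * S ^ D ≤ C * S ^ D * S := le_mul_of_one_le_right (by linarith) hS
    have h2 : C * S ^ D * S ≤ (C * S ^ D * S) ^ (K' + 1) := le_self_pow₀ hCS (by omega)
    linarith
  have b1' : ∀ k < l, |zs P b k| ≤ B / 2 ^ g k := fun k hk =>
    (b1 k hk).trans (div_le_div_of_nonneg_right hQB (by positivity))
  have e1 := val hP (AdxRow.vars_sub_le (hΨ l) (hP l)) (hcut hP hΨ dP dΨ) hB1 (n1 l hl) b1'
  have e2 := val hP (AdxRow.vars_sub_le (hP' l) (hP l)) (hcut hP hP' dP dP') hB1 (n3 l hl) b1'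
  have e3 := val hP' (AdxRow.vars_sub_le (hΨ' l) (hP' l)) (hcut hP' hΨ' dP' dΨ') hB1 (n2 l hl) b2
  have e4 : eval b (Ψ l) - eval b (Ψ' l) = eval b (Ψ l - P l) - eval b (P' l - P l) -
      eval b (Ψ' l - P' l) := by
    rw [map_sub, map_sub, map_sub]
    ring
  rw [e4]
  refine (abs_sub _ _).trans ((add_le_add ((abs_sub _ _).trans (add_le_add e1 e2)) e3).trans ?_)
  have e5 : B ^ K' * (S / 2 ^ g l) + B ^ K' * (S / 2 ^ g l) + B ^ K' * (S / 2 ^ g l) =
      3 * (B ^ K' * S) / 2 ^ g l := by ring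
  rw [e5]
  refine div_le_div_of_nonneg_right ?_ (by positivity)
  have e6 : B = E * S ^ ((D + 1) * (K' + 1)) := by
    rw [hB, hE, mul_assoc C, ← pow_succ, mul_pow, ← pow_mul]
    ring
  rw [e6, mul_pow, ← pow_mul, mul_assoc (E ^ K'), ← pow_succ]
  refine le_of_eq ?_
  ring

end Pool.GSD.Row
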