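import Pool.Agent.H24.GSD.ClsS
import Pool.Agent.H41.GSD.Ht

/-!
# The levels at the places of the cuts
-/

set_option autoImplicit false

namespace Pool.GSD.Cls

open Finset Real MvPolynomial
open Pool.Agent.H49.Ent Pool.Agent.H32.Dense Pool.STK Pool.STAT
open Pool.GSD.Row

section lev

variable {D : NDat2} {n K J a₀ w₀ z M : ℕ} {lam gam : ℕ → ℝ} {κ C₁ : ℝ} {q : D.Ω → ℝ}

theorem lev_add (hO : D.Ok2 n K J a₀ w₀ z M lam gam κ C₁ q) {i j : ℕ} (hi : i ≤ M) (hj : j ≤ M)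
    {p : ℤ × ℤ} {y w : ℤ} (hp : p = ((i : ℤ) + y, (j : ℤ) + w)) (h1 : 0 ≤ p.1) (h2 : p.1 ≤ M)
    (h3 : 0 ≤ p.2) (h4 : p.2 ≤ M) {m : ℕ} (m1 : 1 ≤ m) (m2 : m ≤ n) :
    |(D.g (nt p).1 (nt p).2 m : ℝ) - D.g i j m - (lam m * y + gam m * w) * z| ≤
      2 * C₁ * z := by
  have e1 : ((p.1.toNat : ℕ) : ℝ) = i + y := by
    have : ((p.1.toNat : ℕ) : ℤ) = i + y := by
      rw [Int.toNat_of_nonneg h1, hp]
    exact_mod_cast this
  have e2 : ((p.2.toNat : ℕ) : ℝ) = j + w := by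
    have : ((p.2.toNat : ℕ) : ℤ) = j + w := by
      rw [Int.toNat_of_nonneg h3, hp]
    exact_mod_cast this
  have a1 := hO.hom i hi j hj m m1 m2
  have a2 := hO.hom p.1.toNat (by omega) p.2.toNat (by omega) m m1 m2
  rw [e1, e2] at a2
  unfold nt
  simp only
  rw [abs_le] at a1 a2 ⊢
  constructor <;> linarith [a1.1, a1.2, a2.1, a2.2]

end lev

/-- The levels of one place with respect to the base place: `P` deep, `R` coarse with margin,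
the others with small loss. -/
structure Gl (D : NDat2) (n X s : ℕ) (b p : ℕ × ℕ) (P R : ℕ → Prop) : Prop where
  dp : ∀ m, 1 ≤ m → m ≤ n → P m → D.g b.1 b.2 m + X ≤ D.g p.1 p.2 m
  co : ∀ m, 1 ≤ m → m ≤ n → R m → D.g p.1 p.2 m + X + s ≤ D.g b.1 b.2 m
  re : ∀ m, 1 ≤ m → m ≤ n → ¬ P m → D.g p.1 p.2 m ≤ D.g b.1 b.2 m
  sm : ∀ m, 1 ≤ m → m ≤ n → ¬ P m → ¬ R m → D.g b.1 b.2 m ≤ D.g p.1 p.2 m + s

/-- Far: no margins for the coarse coordinates. -/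
structure Gf (D : NDat2) (n X : ℕ) (b p : ℕ × ℕ) (P : ℕ → Prop) : Prop where
  dp : ∀ m, 1 ≤ m → m ≤ n → P m → D.g b.1 b.2 m + X ≤ D.g p.1 p.2 m
  re : ∀ m, 1 ≤ m → m ≤ n → ¬ P m → D.g p.1 p.2 m ≤ D.g b.1 b.2 m

/-- The places are in the grid. -/
theorem range_pl {x : ℕ → ℤ} {v Wd N l i j M' : ℕ} (hx : ∀ k ≤ N, |x k| ≤ Wd) (hv : v ≤ Wd)
    (h1 : Wd * 2 ^ l ≤ i) (h2 : i + Wd * 2 ^ l ≤ M') (h3 : Wd * 2 ^ l ≤ j)
    (h4 : j + Wd * 2 ^ l ≤ M') {k : ℕ} (hk : k ≤ N) {r : ℕ} (hr : r ≤ 2 ^ l) :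
    (0 ≤ (((i : ℤ), (j : ℤ)) + r • dk x v k).1 ∧ (((i : ℤ), (j : ℤ)) + r • dk x v k).1 ≤ M' ∧
      0 ≤ (((i : ℤ), (j : ℤ)) + r • dk x v k).2 ∧ (((i : ℤ), (j : ℤ)) + r • dk x v k).2 ≤ M') ∧
    (0 ≤ (((i : ℤ), (j : ℤ)) - r • dk x v k).1 ∧ (((i : ℤ), (j : ℤ)) - r • dk x v k).1 ≤ M' ∧
      0 ≤ (((i : ℤ), (j : ℤ)) - r • dk x v k).2 ∧
      (((i : ℤ), (j : ℤ)) - r • dk x v k).2 ≤ M') := by
  have e1 : (r : ℤ) * |x k| ≤ ((Wd * 2 ^ l : ℕ) : ℤ) := by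
    have a1 : (r : ℤ) ≤ ((2 ^ l : ℕ) : ℤ) := by exact_mod_cast hr
    calc (r : ℤ) * |x k| ≤ ((2 ^ l : ℕ) : ℤ) * Wd :=
          mul_le_mul a1 (hx k hk) (abs_nonneg _) (by positivity)
      _ = ((Wd * 2 ^ l : ℕ) : ℤ) := by push_cast; ring
  have e2 : (r : ℤ) * v ≤ ((Wd * 2 ^ l : ℕ) : ℤ) := by
    have a1 : (r : ℤ) ≤ ((2 ^ l : ℕ) : ℤ) := by exact_mod_cast hr
    calc (r : ℤ) * v ≤ ((2 ^ l : ℕ) : ℤ) * Wd :=
          mul_le_mul a1 (by exact_mod_cast hv) (by positivity) (by positivity)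
      _ = ((Wd * 2 ^ l : ℕ) : ℤ) := by push_cast; ring
  have e3 : |(r : ℤ) * x k| ≤ ((Wd * 2 ^ l : ℕ) : ℤ) := by
    rw [abs_mul, abs_of_nonneg (Int.natCast_nonneg r)]
    exact e1
  obtain ⟨f1, f2⟩ := abs_le.1 e3
  have e4 : 0 ≤ (r : ℤ) * v := by positivity
  have g1 : ((Wd * 2 ^ l : ℕ) : ℤ) ≤ i := by exact_mod_cast h1
  have g2 : (i : ℤ) + ((Wd * 2 ^ l : ℕ) : ℤ) ≤ M' := by exact_mod_cast h2
  have g3 : ((Wd * 2 ^ l : ℕ) : ℤ) ≤ j := by exact_mod_cast h3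
  have g4 : (j : ℤ) + ((Wd * 2 ^ l : ℕ) : ℤ) ≤ M' := by exact_mod_cast h4
  unfold dk
  simp only [Prod.fst_add, Prod.snd_add, Prod.fst_sub, Prod.snd_sub, Prod.smul_fst, Prod.smul_snd]
  simp only [nsmul_eq_mul, mul_neg]
  refine ⟨⟨?_, ?_, ?_, ?_⟩, ?_, ?_, ?_, ?_⟩ <;> linarith

section places

variable {D : NDat2} {n K J a₀ w₀ z M : ℕ} {lam gam : ℕ → ℝ} {κ C₁ : ℝ} {q : D.Ω → ℝ}
  {Λ W : ℝ} {N v Wd l u i j M' : ℕ} {x : ℕ → ℤ} {a : ℕ → ℕ}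

theorem lev_R (hO : D.Ok2 n K J a₀ w₀ z M lam gam κ C₁ q) (hM : M' ≤ M)
    (hx : ∀ k ≤ N, |x k| ≤ Wd) (hv : v ≤ Wd)
    (h1 : Wd * 2 ^ l ≤ i) (h2 : i + Wd * 2 ^ l ≤ M') (h3 : Wd * 2 ^ l ≤ j)
    (h4 : j + Wd * 2 ^ l ≤ M') {k : ℕ} (hk : k ≤ N) {r : ℕ} (hr : r ≤ 2 ^ l) {m : ℕ}
    (m1 : 1 ≤ m) (m2 : m ≤ n) :
    |(D.g (nt (((i : ℤ), (j : ℤ)) + r • dk x v k)).1 (nt (((i : ℤ), (j : ℤ)) + r • dk x v k)).2 m :
      ℝ) - D.g i j m - (gam m * v - lam m * x k) * (r * z)| ≤ 2 * C₁ * z := by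
  obtain ⟨⟨b1, b2, b3, b4⟩, _⟩ := range_pl hx hv h1 h2 h3 h4 hk hr
  have hMM : (M' : ℤ) ≤ M := by exact_mod_cast hM
  have := lev_add hO (i := i) (j := j) (by omega) (by omega)
    (p := ((i : ℤ), (j : ℤ)) + r • dk x v k) (y := -(r * x k)) (w := r * v) (by
      unfold dk
      ext
      · simp
      · simp) b1 (b2.trans hMM) b3 (b4.trans hMM) m1 m2
  refine le_trans (le_of_eq ?_) this
  congr 1
  push_cast
  ring

theorem lev_L (hO : D.Ok2 n K J a₀ w₀ z M lam gam κ C₁ q) (hM : M' ≤ M)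
    (hx : ∀ k ≤ N, |x k| ≤ Wd) (hv : v ≤ Wd)
    (h1 : Wd * 2 ^ l ≤ i) (h2 : i + Wd * 2 ^ l ≤ M') (h3 : Wd * 2 ^ l ≤ j)
    (h4 : j + Wd * 2 ^ l ≤ M') {k : ℕ} (hk : k ≤ N) {r : ℕ} (hr : r ≤ 2 ^ l) {m : ℕ}
    (m1 : 1 ≤ m) (m2 : m ≤ n) :
    |(D.g (nt (((i : ℤ), (j : ℤ)) - r • dk x v k)).1 (nt (((i : ℤ), (j : ℤ)) - r • dk x v k)).2 m :
      ℝ) - D.g i j m + (gam m * v - lam m * x k) * (r * z)| ≤ 2 * C₁ * z := by
  obtain ⟨_, ⟨b1, b2, b3, b4⟩⟩ := range_pl hx hv h1 h2 h3 h4 hk hr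
  have hMM : (M' : ℤ) ≤ M := by exact_mod_cast hM
  have := lev_add hO (i := i) (j := j) (by omega) (by omega)
    (p := ((i : ℤ), (j : ℤ)) - r • dk x v k) (y := r * x k) (w := -(r * v)) (by
      unfold dk
      ext
      · simp
      · simp only [Prod.snd_sub, Prod.smul_snd]
        rw [nsmul_eq_mul]
        ring) b1 (b2.trans hMM) b3 (b4.trans hMM) m1 m2
  refine le_trans (le_of_eq ?_) this
  congr 1
  push_cast
  ring

/-- The numbers. -/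
structure Nu (C₁ Λ : ℝ) (z l u X s : ℕ) : Prop where
  z1 : 1 ≤ z
  ul : u + 1 ≤ l
  c1 : 8 * C₁ + 8 ≤ (2 : ℝ) ^ (l - u)
  C1 : 1 ≤ C₁
  L0 : 0 ≤ Λ
  X_eq : X = (2 ^ (l - 1) + 1) * z + 2
  s_ge : 2 * Λ * (2 ^ (l - u) * z) + 2 * C₁ * z ≤ s
  s_le : (s : ℝ) ≤ 2 * Λ * (2 ^ (l - u) * z) + 2 * C₁ * z + 1

variable {X s : ℕ}

theorem Nu.two (h : Nu C₁ Λ z l u X s) : (2 : ℝ) ^ l = 2 ^ u * 2 ^ (l - u) ∧
    (2 : ℝ) ^ l = 2 * 2 ^ (l - 1) ∧ (2 : ℝ) ^ (l - u) ≤ 2 * 2 ^ (l - 1) ∧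
    (X : ℝ) = (2 ^ (l - 1) + 1) * z + 2 := by
  have h1 := h.ul
  have e1 : (2 : ℝ) ^ l = 2 * 2 ^ (l - 1) := by
    rw [← pow_succ']
    congr 1
    omega
  refine ⟨?_, e1, ?_, ?_⟩
  · rw [← pow_add]
    congr 1
    omega
  · rw [← e1]
    exact pow_le_pow_right₀ (by norm_num) (by omega)
  · rw [h.X_eq]
    push_cast
    ring

/-- Far, right side. -/
theorem gf_R (hO : D.Ok2 n K J a₀ w₀ z M lam gam κ C₁ q) (hM : M' ≤ M)
    (hd : Dirs n lam gam W N v x a) (hN : Nu C₁ Λ z l u X s)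
    (hx : ∀ k ≤ N, |x k| ≤ Wd) (hv : v ≤ Wd)
    (h1 : Wd * 2 ^ l ≤ i) (h2 : i + Wd * 2 ^ l ≤ M') (h3 : Wd * 2 ^ l ≤ j)
    (h4 : j + Wd * 2 ^ l ≤ M') {k : ℕ} (hk : k ≤ N) :
    Gf D n X (i, j) (nt (fR v x l i j k)) (fun m => a m < k) := by
  obtain ⟨t1, t2, t3, t4⟩ := hN.two
  have z1 : (1 : ℝ) ≤ z := by exact_mod_cast hN.z1
  have hC := hN.C1
  have hc := hN.c1
  have hp : (0 : ℝ) < 2 ^ l := by positivity
  refine ⟨fun m m1 m2 h => ?_, fun m m1 m2 h => ?_⟩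
  · have e1 := lev_R hO hM hx hv h1 h2 h3 h4 hk (r := 2 ^ l) le_rfl m1 m2
    have e2 := hd.p1 k hk m m1 m2 h
    have e3 := hO.lam_ge m
    rw [abs_le] at e1
    have e4 := e1.1
    push_cast at e4
    have e5 : (1 : ℝ) * (2 ^ l * z) ≤ (gam m * v - lam m * x k) * (2 ^ l * z) :=
      mul_le_mul_of_nonneg_right (by linarith) (by positivity)
    have e6 : ((2 : ℝ) ^ (l - 1)) * z ≥ (4 * C₁ + 4) * z :=
      mul_le_mul_of_nonneg_right (by linarith) (by linarith)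
    have e7 : ((D.g i j m + X : ℕ) : ℝ) ≤ (D.g (nt (fR v x l i j k)).1 (nt (fR v x l i j k)).2 m :
        ℕ) := by
      unfold fR
      push_cast
      rw [t4]
      rw [t2] at e4 e5
      nlinarith
    exact_mod_cast e7
  · have e1 := lev_R hO hM hx hv h1 h2 h3 h4 hk (r := 2 ^ l) le_rfl m1 m2
    have e2 := hd.p2 k hk m m1 m2 (not_lt.1 h)
    have e3 := hO.lam_ge m
    rw [abs_le] at e1
    have e4 := e1.2
    push_cast at e4
    have e5 : (gam m * v - lam m * x k) * (2 ^ l * z) ≤ -1 * (2 ^ l * z) :=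
      mul_le_mul_of_nonneg_right (by linarith) (by positivity)
    have e6 : ((2 : ℝ) ^ (l - 1)) * z ≥ (4 * C₁ + 4) * z :=
      mul_le_mul_of_nonneg_right (by linarith) (by linarith)
    have e7 : (D.g (nt (fR v x l i j k)).1 (nt (fR v x l i j k)).2 m : ℝ) ≤ D.g i j m := by
      unfold fR
      rw [t2] at e4 e5
      nlinarith
    exact_mod_cast e7

/-- Far, left side. -/
theorem gf_L (hO : D.Ok2 n K J a₀ w₀ z M lam gam κ C₁ q) (hM : M' ≤ M)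
    (hd : Dirs n lam gam W N v x a) (hN : Nu C₁ Λ z l u X s)
    (hx : ∀ k ≤ N, |x k| ≤ Wd) (hv : v ≤ Wd)
    (h1 : Wd * 2 ^ l ≤ i) (h2 : i + Wd * 2 ^ l ≤ M') (h3 : Wd * 2 ^ l ≤ j)
    (h4 : j + Wd * 2 ^ l ≤ M') {k : ℕ} (hk : k ≤ N) :
    Gf D n X (i, j) (nt (fL v x l i j k)) (fun m => k ≤ a m) := by
  obtain ⟨t1, t2, t3, t4⟩ := hN.two
  have z1 : (1 : ℝ) ≤ z := by exact_mod_cast hN.z1
  have hC := hN.C1
  have hc := hN.c1
  have hp : (0 : ℝ) < 2 ^ l := by positivity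
  refine ⟨fun m m1 m2 h => ?_, fun m m1 m2 h => ?_⟩
  · have e1 := lev_L hO hM hx hv h1 h2 h3 h4 hk (r := 2 ^ l) le_rfl m1 m2
    have e2 := hd.p2 k hk m m1 m2 h
    have e3 := hO.lam_ge m
    rw [abs_le] at e1
    have e4 := e1.1
    push_cast at e4
    have e5 : (gam m * v - lam m * x k) * (2 ^ l * z) ≤ -1 * (2 ^ l * z) :=
      mul_le_mul_of_nonneg_right (by linarith) (by positivity)
    have e6 : ((2 : ℝ) ^ (l - 1)) * z ≥ (4 * C₁ + 4) * z :=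
      mul_le_mul_of_nonneg_right (by linarith) (by linarith)
    have e7 : ((D.g i j m + X : ℕ) : ℝ) ≤ (D.g (nt (fL v x l i j k)).1 (nt (fL v x l i j k)).2 m :
        ℕ) := by
      unfold fL
      push_cast
      rw [t4]
      rw [t2] at e4 e5
      nlinarith
    exact_mod_cast e7
  · have e1 := lev_L hO hM hx hv h1 h2 h3 h4 hk (r := 2 ^ l) le_rfl m1 m2
    have e2 := hd.p1 k hk m m1 m2 (not_le.1 h)
    have e3 := hO.lam_ge m
    rw [abs_le] at e1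
    have e4 := e1.2
    push_cast at e4
    have e5 : (1 : ℝ) * (2 ^ l * z) ≤ (gam m * v - lam m * x k) * (2 ^ l * z) :=
      mul_le_mul_of_nonneg_right (by linarith) (by positivity)
    have e6 : ((2 : ℝ) ^ (l - 1)) * z ≥ (4 * C₁ + 4) * z :=
      mul_le_mul_of_nonneg_right (by linarith) (by linarith)
    have e7 : (D.g (nt (fL v x l i j k)).1 (nt (fL v x l i j k)).2 m : ℝ) ≤ D.g i j m := by
      unfold fL
      rw [t2] at e4 e5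
      nlinarith
    exact_mod_cast e7

/-- Near, right side, at the cut before a ratio. -/
theorem gl_R (hO : D.Ok2 n K J a₀ w₀ z M lam gam κ C₁ q) (hM : M' ≤ M)
    (hd : Dirs n lam gam (2 ^ u + 2 * Λ + 8) N v x a) (hΛ : ∀ m, 1 ≤ m → m ≤ n → lam m ≤ Λ)
    (hN : Nu C₁ Λ z l u X s) (hx : ∀ k ≤ N, |x k| ≤ Wd) (hv : v ≤ Wd)
    (h1 : Wd * 2 ^ l ≤ i) (h2 : i + Wd * 2 ^ l ≤ M') (h3 : Wd * 2 ^ l ≤ j)
    (h4 : j + Wd * 2 ^ l ≤ M') {k : ℕ} (hk : k ≤ N) (h2k : 2 ∣ k) :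
    Gl D n X s (i, j) (nt (nR v x l u i j k)) (fun m => a m < k) (fun m => k < a m) := by
  obtain ⟨t1, t2, t3, t4⟩ := hN.two
  have z1 : (1 : ℝ) ≤ z := by exact_mod_cast hN.z1
  have hC := hN.C1
  have hc := hN.c1
  have hL := hN.L0
  have hs1 := hN.s_ge
  have hs2 := hN.s_le
  have hp : (0 : ℝ) < 2 ^ (l - u) := by positivity
  have hpz : (0 : ℝ) < 2 ^ (l - u) * z := by positivity
  have hr : 2 ^ (l - u) ≤ 2 ^ l := Nat.pow_le_pow_right (by norm_num) (Nat.sub_le _ _)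
  have hWe : ((2 : ℝ) ^ u + 2 * Λ + 8) * (2 ^ (l - u) * z) = 2 * (2 ^ (l - 1) * z) +
      2 * Λ * (2 ^ (l - u) * z) + 8 * (2 ^ (l - u) * z) := by
    have : (2 : ℝ) ^ u * (2 ^ (l - u) * z) = 2 * (2 ^ (l - 1) * z) := by
      rw [← mul_assoc, ← t1, t2]
      ring
    rw [add_mul, add_mul, this]
  have hcz : (8 * C₁ + 8) * z ≤ 2 ^ (l - u) * z := mul_le_mul_of_nonneg_right hc (by linarith)
  have hcz0 : 0 ≤ C₁ * z := by positivity
  refine ⟨fun m m1 m2 h => ?_, fun m m1 m2 h => ?_, fun m m1 m2 h => ?_, fun m m1 m2 h h' => ?_⟩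
  · have e1 := lev_R hO hM hx hv h1 h2 h3 h4 hk (r := 2 ^ (l - u)) hr m1 m2
    have h2a := hd.ev m
    have e2 := hd.p3 k hk m m1 m2 (by omega)
    rw [abs_le] at e1
    have e4 := e1.1
    push_cast at e4
    have e5 := mul_le_mul_of_nonneg_right e2 hpz.le
    rw [hWe] at e5
    have e8 : 0 ≤ 2 * Λ * (2 ^ (l - u) * z) := by positivity
    have e9 : (0 : ℝ) ≤ 2 ^ (l - 1) * z := by positivity
    have e7 : ((D.g i j m + X : ℕ) : ℝ) ≤ (D.g (nt (nR v x l u i j k)).1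
        (nt (nR v x l u i j k)).2 m : ℕ) := by
      unfold nR
      push_cast
      rw [t4]
      linarith
    exact_mod_cast e7
  · have e1 := lev_R hO hM hx hv h1 h2 h3 h4 hk (r := 2 ^ (l - u)) hr m1 m2
    have e2 := hd.p4 k hk m m1 m2 h
    rw [abs_le] at e1
    have e4 := e1.2
    push_cast at e4
    have e5 := mul_le_mul_of_nonneg_right e2 hpz.le
    rw [neg_mul, hWe] at e5
    have e9 : (0 : ℝ) ≤ 2 ^ (l - 1) * z := by positivity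
    have e7 : ((D.g (nt (nR v x l u i j k)).1 (nt (nR v x l u i j k)).2 m + X + s : ℕ) : ℝ) ≤
        (D.g i j m : ℕ) := by
      unfold nR
      push_cast
      rw [t4]
      linarith
    exact_mod_cast e7
  · have e1 := lev_R hO hM hx hv h1 h2 h3 h4 hk (r := 2 ^ (l - u)) hr m1 m2
    have e2 := hd.p2 k hk m m1 m2 (not_lt.1 h)
    have e3 := hO.lam_ge m
    rw [abs_le] at e1
    have e4 := e1.2
    push_cast at e4
    have e5 : (gam m * v - lam m * x k) * (2 ^ (l - u) * z) ≤ -1 * (2 ^ (l - u) * z) :=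
      mul_le_mul_of_nonneg_right (by linarith) hpz.le
    have e7 : (D.g (nt (nR v x l u i j k)).1 (nt (nR v x l u i j k)).2 m : ℝ) ≤ D.g i j m := by
      unfold nR
      linarith
    exact_mod_cast e7
  · have e1 := lev_R hO hM hx hv h1 h2 h3 h4 hk (r := 2 ^ (l - u)) hr m1 m2
    have e2 := hd.p5 m m1 m2
    have ek : a m = k := by omega
    rw [ek] at e2
    have e3 := hΛ m m1 m2
    rw [abs_le] at e1
    have e4 := e1.1
    push_cast at e4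
    have e5 : -(2 * Λ) * (2 ^ (l - u) * z) ≤ (gam m * v - lam m * x k) * (2 ^ (l - u) * z) :=
      mul_le_mul_of_nonneg_right (by linarith) hpz.le
    have e7 : ((D.g i j m : ℕ) : ℝ) ≤ (D.g (nt (nR v x l u i j k)).1
        (nt (nR v x l u i j k)).2 m + s : ℕ) := by
      unfold nR
      push_cast
      linarith
    exact_mod_cast e7

/-- Near, left side, at the cut after a ratio. -/
theorem gl_L (hO : D.Ok2 n K J a₀ w₀ z M lam gam κ C₁ q) (hM : M' ≤ M)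
    (hd : Dirs n lam gam (2 ^ u + 2 * Λ + 8) N v x a) (hΛ : ∀ m, 1 ≤ m → m ≤ n → lam m ≤ Λ)
    (hN : Nu C₁ Λ z l u X s) (hx : ∀ k ≤ N, |x k| ≤ Wd) (hv : v ≤ Wd)
    (h1 : Wd * 2 ^ l ≤ i) (h2 : i + Wd * 2 ^ l ≤ M') (h3 : Wd * 2 ^ l ≤ j)
    (h4 : j + Wd * 2 ^ l ≤ M') {k : ℕ} (hk : k + 1 ≤ N) (h2k : 2 ∣ k) :
    Gl D n X s (i, j) (nt (nL v x l u i j (k + 1))) (fun m => k + 1 ≤ a m)
      (fun m => a m < k) := by
  obtain ⟨t1, t2, t3, t4⟩ := hN.two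
  have z1 : (1 : ℝ) ≤ z := by exact_mod_cast hN.z1
  have hC := hN.C1
  have hc := hN.c1
  have hL := hN.L0
  have hs1 := hN.s_ge
  have hs2 := hN.s_le
  have hp : (0 : ℝ) < 2 ^ (l - u) := by positivity
  have hpz : (0 : ℝ) < 2 ^ (l - u) * z := by positivity
  have hr : 2 ^ (l - u) ≤ 2 ^ l := Nat.pow_le_pow_right (by norm_num) (Nat.sub_le _ _)
  have hWe : ((2 : ℝ) ^ u + 2 * Λ + 8) * (2 ^ (l - u) * z) = 2 * (2 ^ (l - 1) * z) +
      2 * Λ * (2 ^ (l - u) * z) + 8 * (2 ^ (l - u) * z) := by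
    have : (2 : ℝ) ^ u * (2 ^ (l - u) * z) = 2 * (2 ^ (l - 1) * z) := by
      rw [← mul_assoc, ← t1, t2]
      ring
    rw [add_mul, add_mul, this]
  have hcz : (8 * C₁ + 8) * z ≤ 2 ^ (l - u) * z := mul_le_mul_of_nonneg_right hc (by linarith)
  have hcz0 : 0 ≤ C₁ * z := by positivity
  refine ⟨fun m m1 m2 h => ?_, fun m m1 m2 h => ?_, fun m m1 m2 h => ?_, fun m m1 m2 h h' => ?_⟩
  · have e1 := lev_L hO hM hx hv h1 h2 h3 h4 hk (r := 2 ^ (l - u)) hr m1 m2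
    have h2a := hd.ev m
    have e2 := hd.p4 (k + 1) hk m m1 m2 (by omega)
    rw [abs_le] at e1
    have e4 := e1.1
    push_cast at e4
    have e5 := mul_le_mul_of_nonneg_right e2 hpz.le
    rw [neg_mul, hWe] at e5
    have e8 : 0 ≤ 2 * Λ * (2 ^ (l - u) * z) := by positivity
    have e9 : (0 : ℝ) ≤ 2 ^ (l - 1) * z := by positivity
    have e7 : ((D.g i j m + X : ℕ) : ℝ) ≤ (D.g (nt (nL v x l u i j (k + 1))).1
        (nt (nL v x l u i j (k + 1))).2 m : ℕ) := by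
      unfold nL
      push_cast
      rw [t4]
      linarith
    exact_mod_cast e7
  · have e1 := lev_L hO hM hx hv h1 h2 h3 h4 hk (r := 2 ^ (l - u)) hr m1 m2
    have h2a := hd.ev m
    have e2 := hd.p3 (k + 1) hk m m1 m2 (by omega)
    rw [abs_le] at e1
    have e4 := e1.2
    push_cast at e4
    have e5 := mul_le_mul_of_nonneg_right e2 hpz.le
    rw [hWe] at e5
    have e9 : (0 : ℝ) ≤ 2 ^ (l - 1) * z := by positivity
    have e7 : ((D.g (nt (nL v x l u i j (k + 1))).1 (nt (nL v x l u i j (k + 1))).2 m + X + s :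
        ℕ) : ℝ) ≤ (D.g i j m : ℕ) := by
      unfold nL
      push_cast
      rw [t4]
      linarith
    exact_mod_cast e7
  · have e1 := lev_L hO hM hx hv h1 h2 h3 h4 hk (r := 2 ^ (l - u)) hr m1 m2
    have e2 := hd.p1 (k + 1) hk m m1 m2 (not_le.1 h)
    have e3 := hO.lam_ge m
    rw [abs_le] at e1
    have e4 := e1.2
    push_cast at e4
    have e5 : 1 * (2 ^ (l - u) * z) ≤ (gam m * v - lam m * x (k + 1)) * (2 ^ (l - u) * z) :=
      mul_le_mul_of_nonneg_right (by linarith) hpz.le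
    have e7 : (D.g (nt (nL v x l u i j (k + 1))).1 (nt (nL v x l u i j (k + 1))).2 m : ℝ) ≤
        D.g i j m := by
      unfold nL
      linarith
    exact_mod_cast e7
  · have e1 := lev_L hO hM hx hv h1 h2 h3 h4 hk (r := 2 ^ (l - u)) hr m1 m2
    have e2 := hd.p6 m m1 m2
    have ek : a m = k := by omega
    rw [ek] at e2
    have e3 := hΛ m m1 m2
    rw [abs_le] at e1
    have e4 := e1.1
    push_cast at e4
    have e5 : (gam m * v - lam m * x (k + 1)) * (2 ^ (l - u) * z) ≤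
        (2 * Λ) * (2 ^ (l - u) * z) :=
      mul_le_mul_of_nonneg_right (by linarith) hpz.le
    have e7 : ((D.g i j m : ℕ) : ℝ) ≤ (D.g (nt (nL v x l u i j (k + 1))).1
        (nt (nL v x l u i j (k + 1))).2 m + s : ℕ) := by
      unfold nL
      push_cast
      linarith
    exact_mod_cast e7

end places

end Pool.GSD.Cls
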