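import Pool.Agent.H24.GSD.Vfx

/-!
# The fields `VC`, `VA`, `VB`, `nA`, `nB`
-/

set_option autoImplicit false

namespace Pool.GSD.Cls

open Finset Real MvPolynomial
open Pool.Agent.H49.Ent Pool.Agent.H32.Dense Pool.STK Pool.STAT
open Pool.BFL (Pb)
open Pool.GSD.Row
open Pool.LIVE20 (mi)
open Pool.UP35 (dgb mu coa Sc)

section pure

variable {Ω S T U V W : Type} [Fintype Ω] {p : Ω → ℝ}

/-- The height given one side and the base. -/
theorem nu_pure (hp : ∀ ω, 0 ≤ p ω) (nu : Ω → S) (Vv : Ω → V) (A : Ω → T) (B : Ω → U) (c : Ω → W) :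
    CH p nu (fun ω => (A ω, (Vv ω, c ω))) ≤ CH p (fun ω => (nu ω, Vv ω)) (fun ω => (A ω, c ω)) -
      (CH p Vv c - CH p Vv (fun ω => (B ω, c ω)) - mi p B A c) := by
  have h1 := CH_chain hp nu Vv (fun ω => (A ω, c ω))
  have h2 : CH p nu (fun ω => (A ω, (Vv ω, c ω))) = CH p nu (fun ω => (Vv ω, (A ω, c ω))) := by
    refine CH_congr hp (fun _ _ _ _ h => (Prod.ext_iff.1 h).1)
      (fun _ _ _ _ h => (Prod.ext_iff.1 h).1) ?_ ?_ <;> intro ω ω' _ _ h <;>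
      simp only [Prod.mk.injEq] at h ⊢ <;> tauto
  have h3 := Pool.L12.plank hp Vv B A c
  rw [h2]
  linarith

/-- From a law to an event. -/
theorem ev_up (hp : IsLaw p) {A : Type} {C : Type} (f : Ω → A) (c : Ω → C) (G : Ω → Prop) {η F e : ℝ}
    (hη : η ≤ 1 / 2) (hη0 : 0 ≤ η) (hG : 1 - η ≤ Pb p G) (hF : 0 ≤ F) (he : 0 ≤ e)
    (h : CH p f c ≤ F + e) : CH (cond p G True) f c ≤ F + 2 * η * F + 2 * e := by
  have hG0 : 0 < Pb p G := by linarith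
  have h1 := Pool.TIE.CH_event hp f c G hG0
  refine h1.trans ?_
  rw [div_le_iff₀ hG0]
  have e1 : F * 1 ≤ (F + 2 * η * F) * Pb p G := by
    have : F * (1 - η) * (1 + 2 * η) ≤ (F + 2 * η * F) * Pb p G := by
      have := mul_le_mul_of_nonneg_left hG (show 0 ≤ F + 2 * η * F by positivity)
      linarith
    nlinarith [mul_nonneg hF (mul_nonneg hη0 (show 0 ≤ 1 / 2 - η by linarith))]
  have e2 : e * 1 ≤ (2 * e) * Pb p G := by nlinarith
  nlinarith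

end pure

section cell

variable {D : NDat2} {n K J a₀ w₀ z M : ℕ} {lam gam : ℕ → ℝ} {κ C₁ : ℝ} {q : D.Ω → ℝ}
  {W : ℝ} {N v Wd l u i j M' : ℕ} {x : ℕ → ℤ} {a : ℕ → ℕ} {C η : ℝ}

theorem c_low (hO : D.Ok2 n K J a₀ w₀ z M lam gam κ C₁ q) (hj : j ≤ M) :
    ∀ i ≤ M, Det q (D.c i j) (D.c 0 j) := by
  intro i
  induction i with
  | zero => intro _ ω ω' _ _ h; exact h
  | succ i ih =>
    intro hi ω ω' h h' e
    exact ih (by omega) ω ω' h h' (hO.c_i i (by omega) j hj ω ω' h h' e)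

theorem c_rc (hO : D.Ok2 n K J a₀ w₀ z M lam gam κ C₁ q) (hi : i ≤ M) (hj : j ≤ M) :
    Det q (fun ω => (D.c i j ω, D.T ω)) (fun ω => (rc D ((i : ℤ), (j : ℤ)) ω, D.T ω)) := by
  intro ω ω' h h' e
  have e1 := (Prod.ext_iff.1 e).1
  have e2 := (Prod.ext_iff.1 e).2
  refine Prod.ext ?_ e2
  unfold rc
  simp only [Int.toNat_natCast]
  exact Prod.ext (hO.s_c i hi j hj ω ω' h h' e) (hO.s_c 0 (Nat.zero_le _) j hj ω ω' h h'
    (Prod.ext (c_low hO hj i hi ω ω' h h' e1) e2))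

/-- The natural coordinates are bounded. -/
theorem zt_le (hO : D.Ok2 n K J a₀ w₀ z M lam gam κ C₁ q) (hi : i ≤ M) (hj : j ≤ M) {ω : D.Ω}
    (hω : 0 < q ω) {m : ℕ} (m1 : 1 ≤ m) (m2 : m ≤ n) : |ztS D i j (D.Ψ i j) ω m| ≤ 1 :=
  nat_le (hO.pos i hi j hj ω hω m m1 m2)

theorem cX_eq : cX z l = 2 ^ (l - 1) * z + z + 2 := by
  unfold cX
  ring

/-- The digits of the base. -/
noncomputable def Vc (D : NDat2) (n z l i j : ℕ) (ω : D.Ω) (c : Fin (n - 1)) : ℤ :=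
  (YpS D n z i j (cX z l) (D.Ψ i j) ω c : ℤ)

theorem Vc_vd (hO : D.Ok2 n K J a₀ w₀ z M lam gam κ C₁ q) (hi : i ≤ M) (hj : j ≤ M) {ω : D.Ω}
    (hω : 0 < q ω) (c : Fin (n - 1)) : Vc D n z l i j ω c =
      D.vd n i j (2 ^ (l - 1) * z) ω c + 2 ^ (2 ^ (l - 1) * z + z + 1) := by
  unfold Vc
  rw [cX_eq]
  exact V_vd (zt_le hO hi hj hω (by omega) (by have := c.2; omega))

theorem Vc_lt (hO : D.Ok2 n K J a₀ w₀ z M lam gam κ C₁ q) (hi : i ≤ M) (hj : j ≤ M) {ω : D.Ω}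
    (hω : 0 < q ω) (c : Fin (n - 1)) : 0 ≤ Vc D n z l i j ω c ∧
      Vc D n z l i j ω c < 2 ^ cX z l := by
  have h0 := zt_le hO hi hj hω (m := c + 1) (by omega) (by have := c.2; omega)
  have h1 := up_bd (z := z) h0
  unfold Vc YpS
  refine ⟨Int.natCast_nonneg _, ?_⟩
  have h2 : (0 : ℝ) < 2 ^ cX z l := by positivity
  have h3 : (2 : ℝ) ^ cX z l * Pool.MicA.up z (ztS D i j (D.Ψ i j) ω (c + 1)) < 2 ^ cX z l := by
    nlinarith [h1.1, h1.2]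
  have h4 := (Nat.floor_le (mul_nonneg h2.le h1.1)).trans_lt h3
  exact_mod_cast h4

/-- A law with smaller support. -/
theorem Vc_det {Q : D.Ω → ℝ} (hO : D.Ok2 n K J a₀ w₀ z M lam gam κ C₁ q) (hi : i ≤ M)
    (hj : j ≤ M) (hQ : ∀ ω, 0 < Q ω → 0 < q ω) :
    Det Q (Vc D n z l i j) (D.vd n i j (2 ^ (l - 1) * z)) ∧
      Det Q (D.vd n i j (2 ^ (l - 1) * z)) (Vc D n z l i j) := by
  constructor
  · intro ω ω' h h' e
    funext c
    have e1 := congrFun e c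
    rw [Vc_vd hO hi hj (hQ ω h), Vc_vd hO hi hj (hQ ω' h')] at e1
    linarith
  · intro ω ω' h h' e
    funext c
    rw [Vc_vd hO hi hj (hQ ω h), Vc_vd hO hi hj (hQ ω' h'), e]

theorem Vc_CH {Q : D.Ω → ℝ} (hO : D.Ok2 n K J a₀ w₀ z M lam gam κ C₁ q) (hi : i ≤ M)
    (hj : j ≤ M) (hQ : ∀ ω, 0 < Q ω → 0 < q ω) (hQ0 : ∀ ω, 0 ≤ Q ω) {Y : Type} (y : D.Ω → Y) :
    CH Q (Vc D n z l i j) y = CH Q (dgb D (n - 1) (2 ^ (l - 1) * z) ((i : ℤ), (j : ℤ))) y := by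
  rw [Pool.UP35.dgb_vd]
  obtain ⟨d1, d2⟩ := Vc_det (l := l) hO hi hj hQ
  exact CH_congr hQ0 (fun ω ω' h h' e => d1 ω ω' h h' (Prod.ext_iff.1 e).1)
    (fun ω ω' h h' e => d2 ω ω' h h' (Prod.ext_iff.1 e).1)
    (fun _ _ _ _ h => h) (fun _ _ _ _ h => h)

/-- **The base is full.** -/
theorem VC_ev (hO : D.Ok2 n K J a₀ w₀ z M lam gam κ C₁ q) (hi : i + 2 ^ (l - 1) ≤ M)
    (hj : j ≤ M) (G : D.Ω → Prop) (hG : 1 / 2 ≤ Pb q G) (hκ : κ ≤ 1) (hz : 1 ≤ z) :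
    ((n - 1 : ℕ) : ℝ) * ((cX z l : ℝ) * Real.log 2) - (6 * n + 4) * z ≤
      CH (cond q G True) (Vc D n z l i j) (fun ω => (rc D ((i : ℤ), (j : ℤ)) ω, D.T ω)) := by
  have hG0 : 0 < Pb q G := by linarith
  have hz1 : (1 : ℝ) ≤ z := by exact_mod_cast hz
  have hl2 : Real.log 2 ≤ 1 := by linarith [Real.log_two_lt_d9]
  have hl0 : 0 < Real.log 2 := Real.log_pos (by norm_num)
  have hi' : i ≤ M := by
    have : 0 < 2 ^ (l - 1) := by positivity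
    omega
  have hfull := hO.full i hi' j hj (2 ^ (l - 1)) hi
  have h1 : CH q (D.vd n i j (2 ^ (l - 1) * z)) (fun ω => (D.c i j ω, D.T ω)) ≤
      CH q (D.vd n i j (2 ^ (l - 1) * z)) (fun ω => (rc D ((i : ℤ), (j : ℤ)) ω, D.T ω)) :=
    CH_mono_cond hO.isLaw.nonneg (c_rc hO hi' hj)
  have h2 := Vc_CH (l := l) hO hi' hj (fun _ h => h) hO.isLaw.nonneg
    (fun ω => (rc D ((i : ℤ), (j : ℤ)) ω, D.T ω))
  rw [Pool.UP35.dgb_vd] at h2
  have hX : (cX z l : ℝ) = 2 ^ (l - 1) * z + z + 2 := by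
    rw [cX_eq]
    push_cast
    ring
  have h3 : ((n - 1 : ℕ) : ℝ) * ((cX z l : ℝ) * Real.log 2) - (3 * n + 1) * z ≤
      CH q (Vc D n z l i j) (fun ω => (rc D ((i : ℤ), (j : ℤ)) ω, D.T ω)) := by
    rw [h2]
    push_cast at hfull
    have e1 : ((n - 1 : ℕ) : ℝ) * ((z + 2) * Real.log 2) ≤ n * (3 * z) := by
      have a1 : ((n - 1 : ℕ) : ℝ) ≤ n := by exact_mod_cast Nat.sub_le _ _
      have a2 : ((z : ℝ) + 2) * Real.log 2 ≤ 3 * z := by
        have : ((z : ℝ) + 2) * Real.log 2 ≤ (z + 2) * 1 :=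
          mul_le_mul_of_nonneg_left hl2 (by linarith)
        linarith
      exact mul_le_mul a1 a2 (by positivity) (Nat.cast_nonneg _)
    have e2 : κ * z ≤ 1 * z := mul_le_mul_of_nonneg_right hκ (by linarith)
    rw [hX]
    nlinarith
  have h4 := Pool.TIE.full_event hO.isLaw (Vc D n z l i j)
    (fun ω => (rc D ((i : ℤ), (j : ℤ)) ω, D.T ω)) G hG0
    (M := ((n - 1 : ℕ) : ℝ) * ((cX z l : ℝ) * Real.log 2)) (θ := (3 * n + 1) * z) (by
      intro q' hq' hs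
      exact CH_vec_le hq' _ _ fun ω hω c => Vc_lt hO hi' hj (hs ω hω) c) h3
  refine le_trans ?_ h4
  have e3 : ((3 * n + 1) * z + Real.log 2) / Pb q G ≤ (6 * n + 4) * z := by
    rw [div_le_iff₀ hG0]
    have e4 : (3 * n + 1) * (z : ℝ) + Real.log 2 ≤ (3 * n + 2) * z := by
      have : (3 * n + 2) * (z : ℝ) = (3 * n + 1) * z + z := by ring
      rw [this]
      linarith
    have e5 : (6 * n + 4) * (z : ℝ) * (1 / 2) ≤ (6 * n + 4) * z * Pb q G :=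
      mul_le_mul_of_nonneg_left hG (by positivity)
    linarith
  linarith

/-- The rank filter without the target. -/
theorem card_top (hn : 1 ≤ n) (p : ℕ → Prop) [DecidablePred p] (h : ¬ p n) :
    #(univ.filter fun c : Fin n => p (c + 1)) = #(univ.filter fun c : Fin (n - 1) => p (c + 1)) := by
  rw [← Fintype.card_subtype, ← Fintype.card_subtype]
  have hlt : ∀ c : Fin n, p (c + 1) → (c : ℕ) < n - 1 := by
    intro c hc
    have h1 := c.2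
    by_contra h3
    have h4 : (c : ℕ) + 1 = n := by omega
    rw [h4] at hc
    exact h hc
  exact Fintype.card_congr ⟨fun c => ⟨⟨c.1.1, hlt c.1 c.2⟩, c.2⟩,
    fun c => ⟨⟨c.1.1, by omega⟩, c.2⟩, fun _ => rfl, fun _ => rfl⟩

end cell

end Pool.GSD.Cls
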