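import Pool.Agent.H24.GSD.Vcx

/-!
# The fields `VA`, `VB`, `nA`, `nB` on the event
-/

set_option autoImplicit false

namespace Pool.GSD.Cls

open Finset Real MvPolynomial
open Pool.Agent.H49.Ent Pool.Agent.H32.Dense Pool.STK Pool.STAT
open Pool.BFL (Pb)
open Pool.GSD.Row
open Pool.LIVE20 (mi)
open Pool.UP35 (dgb mu coa Sc)
open Pool.MIC (ev_pos isLaw_ev)

section cell

variable {D : NDat2} {n K J a₀ w₀ z M : ℕ} {lam gam : ℕ → ℝ} {κ C₁ : ℝ} {q : D.Ω → ℝ}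
  {W : ℝ} {N v Wd l u i j M' : ℕ} {x : ℕ → ℤ} {a : ℕ → ℕ} {C η : ℝ}

/-- The number of digits, as a real number. -/
theorem U_le : (((2 ^ (l - 1) * z : ℕ) : ℝ)) ≤ 2 ^ l * z := by
  push_cast
  exact mul_le_mul_of_nonneg_right (pow_le_pow_right₀ (by norm_num) (Nat.sub_le _ _))
    (Nat.cast_nonneg _)

theorem U_cX : (((2 ^ (l - 1) * z : ℕ) : ℝ)) ≤ cX z l := by
  rw [cX_eq]
  push_cast
  have : (0 : ℝ) ≤ z := Nat.cast_nonneg _
  linarith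

/-- Numbers. -/
theorem num_up {s m : ℕ} (hs : s ≤ n) (hη : 0 ≤ η) (hm : (m : ℝ) ≤ 2 ^ l * z)
    (hX : (m : ℝ) ≤ cX z l) :
    (s : ℝ) * ((m : ℝ) * Real.log 2) + 2 * η * ((s : ℝ) * ((m : ℝ) * Real.log 2)) +
      2 * (C * z + η * m) ≤ (s : ℝ) * ((cX z l : ℝ) * Real.log 2) +
      (2 * (C * z) + (2 * n + 2) * η * (2 ^ l * z)) := by
  have hl2 : Real.log 2 ≤ 1 := by linarith [Real.log_two_lt_d9]
  have hl0 : 0 < Real.log 2 := Real.log_pos (by norm_num)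
  have hm0 : (0 : ℝ) ≤ m := Nat.cast_nonneg _
  have hs0 : (0 : ℝ) ≤ s := Nat.cast_nonneg _
  have hsn : (s : ℝ) ≤ n := by exact_mod_cast hs
  have e1 : (s : ℝ) * ((m : ℝ) * Real.log 2) ≤ s * ((cX z l : ℝ) * Real.log 2) :=
    mul_le_mul_of_nonneg_left (mul_le_mul_of_nonneg_right hX hl0.le) hs0
  have e2 : (s : ℝ) * ((m : ℝ) * Real.log 2) ≤ n * (2 ^ l * z) := by
    refine mul_le_mul hsn ?_ (by positivity) (Nat.cast_nonneg _)
    calc (m : ℝ) * Real.log 2 ≤ m * 1 := mul_le_mul_of_nonneg_left hl2 hm0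
      _ ≤ 2 ^ l * z := by linarith
  have e3 := mul_le_mul_of_nonneg_left e2 (show 0 ≤ 2 * η by linarith)
  have e4 := mul_le_mul_of_nonneg_left hm hη
  nlinarith

/-- **The base given the right side.** -/
theorem VA_ev (hO : D.Ok2 n K J a₀ w₀ z M lam gam κ C₁ q)
    (hU : UpF D n M lam gam Wd (2 ^ l) q C z η z)
    (hd : Dirs n lam gam W N v x a) (hM : M' + Wd + 1 ≤ M)
    (hx : ∀ k ≤ N, |x k| ≤ Wd) (hv : v ≤ Wd)
    (h1 : Wd * 2 ^ l ≤ i) (h2 : i + Wd * 2 ^ l ≤ M') (h3 : Wd * 2 ^ l ≤ j)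
    (h4 : j + Wd * 2 ^ l ≤ M') (G : D.Ω → Prop) (hη0 : 0 ≤ η) (hη : η ≤ 1 / 2) (hC : 0 ≤ C)
    (hG : 1 - η ≤ Pb q G) {k : ℕ} (hk : k ≤ N) {Y : Type}
    (y : D.Ω → Y) (dT : Det q y D.T) (db : Det q y (rc D ((i : ℤ), (j : ℤ))))
    (df : Det q y (rc D (fR v x l i j k))) :
    CH (cond q G True) (Vc D n z l i j) y ≤
      #(univ.filter fun c : Fin (n - 1) => k ≤ a (c + 1)) * ((cX z l : ℝ) * Real.log 2) +
        (2 * (C * z) + (2 * n + 2) * η * (2 ^ l * z)) := by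
  have h5 := up_R hU hd hO.lam_ge hM hx hv h1 h2 h3 h4 hk (Nat.sub_le n 1) y dT db df
  rw [← Vc_CH hO (by omega) (by omega) (fun _ h => h) hO.isLaw.nonneg] at h5
  have h6 := ev_up hO.isLaw (Vc D n z l i j) y G
    (F := #(univ.filter fun c : Fin (n - 1) => k ≤ a (c + 1)) *
      (((2 ^ (l - 1) * z : ℕ) : ℝ) * Real.log 2))
    (e := C * z + η * ((2 ^ (l - 1) * z : ℕ) : ℝ)) hη hη0 hG (by positivity) (by positivity)
    (by linarith)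
  refine h6.trans (num_up ?_ hη0 U_le U_cX)
  refine (Finset.card_filter_le _ _).trans ?_
  rw [Finset.card_univ, Fintype.card_fin]
  exact Nat.sub_le _ _

/-- **The base given the left side.** -/
theorem VB_ev (hO : D.Ok2 n K J a₀ w₀ z M lam gam κ C₁ q)
    (hU : UpF D n M lam gam Wd (2 ^ l) q C z η z)
    (hd : Dirs n lam gam W N v x a) (hM : M' + Wd + 1 ≤ M)
    (hx : ∀ k ≤ N, |x k| ≤ Wd) (hv : v ≤ Wd)
    (h1 : Wd * 2 ^ l ≤ i) (h2 : i + Wd * 2 ^ l ≤ M') (h3 : Wd * 2 ^ l ≤ j)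
    (h4 : j + Wd * 2 ^ l ≤ M') (G : D.Ω → Prop) (hη0 : 0 ≤ η) (hη : η ≤ 1 / 2) (hC : 0 ≤ C)
    (hG : 1 - η ≤ Pb q G) {k : ℕ} (hk : k ≤ N) {Y : Type}
    (y : D.Ω → Y) (dT : Det q y D.T) (db : Det q y (rc D ((i : ℤ), (j : ℤ))))
    (df : Det q y (rc D (fL v x l i j k))) :
    CH (cond q G True) (Vc D n z l i j) y ≤
      #(univ.filter fun c : Fin (n - 1) => a (c + 1) < k) * ((cX z l : ℝ) * Real.log 2) +
        (2 * (C * z) + (2 * n + 2) * η * (2 ^ l * z)) := by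
  have h5 := up_L hU hd hO.lam_ge hM hx hv h1 h2 h3 h4 hk (Nat.sub_le n 1) y dT db df
  rw [← Vc_CH hO (by omega) (by omega) (fun _ h => h) hO.isLaw.nonneg] at h5
  have h6 := ev_up hO.isLaw (Vc D n z l i j) y G
    (F := #(univ.filter fun c : Fin (n - 1) => a (c + 1) < k) *
      (((2 ^ (l - 1) * z : ℕ) : ℝ) * Real.log 2))
    (e := C * z + η * ((2 ^ (l - 1) * z : ℕ) : ℝ)) hη hη0 hG (by positivity) (by positivity)
    (by linarith)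
  refine h6.trans (num_up ?_ hη0 U_le U_cX)
  refine (Finset.card_filter_le _ _).trans ?_
  rw [Finset.card_univ, Fintype.card_fin]
  exact Nat.sub_le _ _

/-- The height and the base from the digits. -/
theorem nuV_le {Q : D.Ω → ℝ} (hO : D.Ok2 n K J a₀ w₀ z M lam gam κ C₁ q) (hn : 1 ≤ n) (hi : i ≤ M)
    (hj : j ≤ M) (hQ : ∀ ω, 0 < Q ω → 0 < q ω) (hQ0 : ∀ ω, 0 ≤ Q ω) {h₀ : ℕ}
    (hh : h₀ ≤ 2 ^ (l - 1) * z) {Y : Type} (y : D.Ω → Y) :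
    CH Q (fun ω => (nuS D n i j h₀ (D.Ψ i j) ω, Vc D n z l i j ω)) y ≤
      CH Q (dgb D n (2 ^ (l - 1) * z) ((i : ℤ), (j : ℤ))) y := by
  rw [← Pool.UP35.dgb_nd hQ0 y hn]
  obtain ⟨_, d2⟩ := Vc_det (l := l) hO hi hj hQ
  refine CH_mono_left hQ0 ?_
  intro ω ω' h h' e
  obtain ⟨e1, e2⟩ := Prod.ext_iff.1 (Prod.ext_iff.1 e).1
  refine Prod.ext ?_ (d2 ω ω' h h' e2)
  simp only at e1 ⊢
  rw [nu_nd hh, nu_nd hh, e1]

/-- **The height of the target given the right side.** -/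
theorem nA_ev (hO : D.Ok2 n K J a₀ w₀ z M lam gam κ C₁ q) (hn : 1 ≤ n)
    (hU : UpF D n M lam gam Wd (2 ^ l) q C z η z)
    (hd : Dirs n lam gam W N v x a) (hM : M' + Wd + 1 ≤ M)
    (hx : ∀ k ≤ N, |x k| ≤ Wd) (hv : v ≤ Wd)
    (h1 : Wd * 2 ^ l ≤ i) (h2 : i + Wd * 2 ^ l ≤ M') (h3 : Wd * 2 ^ l ≤ j)
    (h4 : j + Wd * 2 ^ l ≤ M') (G : D.Ω → Prop) (hη0 : 0 ≤ η) (hη : η ≤ 1 / 2) (hC : 0 ≤ C)
    (hG : 1 - η ≤ Pb q G) {k : ℕ} (hk : k ≤ N) (hak : a n < k) {h₀ : ℕ}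
    (hh : h₀ ≤ 2 ^ (l - 1) * z) {Γ : Type} (A B : D.Ω → Γ)
    (dA : Det q A (rc D (fR v x l i j k))) (dB : Det q B (rc D (fL v x l i j k))) {eI : ℝ}
    (hI : mi (cond q G True) A B (fun ω => (rc D ((i : ℤ), (j : ℤ)) ω, D.T ω)) ≤ eI)
    (hVC : ((n - 1 : ℕ) : ℝ) * ((cX z l : ℝ) * Real.log 2) - (6 * n + 4) * z ≤
      CH (cond q G True) (Vc D n z l i j) (fun ω => (rc D ((i : ℤ), (j : ℤ)) ω, D.T ω))) :
    CH (cond q G True) (nuS D n i j h₀ (D.Ψ i j))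
      (fun ω => (A ω, (Vc D n z l i j ω, (rc D ((i : ℤ), (j : ℤ)) ω, D.T ω)))) ≤
      2 * (2 * (C * z) + (2 * n + 2) * η * (2 ^ l * z)) + (6 * n + 4) * z + eI := by
  have hG0 : 0 < Pb q G := by linarith
  have hQ := (isLaw_ev hO.isLaw G hG0).nonneg
  have hQq : ∀ ω, 0 < cond q G True ω → 0 < q ω := fun ω h => (ev_pos hO.isLaw.nonneg G h).1
  have b0 := nu_pure hQ (nuS D n i j h₀ (D.Ψ i j)) (Vc D n z l i j) A B
    (fun ω => (rc D ((i : ℤ), (j : ℤ)) ω, D.T ω))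
  have dA' : Det q (fun ω => (A ω, (rc D ((i : ℤ), (j : ℤ)) ω, D.T ω)))
      (rc D (fR v x l i j k)) := fun ω ω' h h' e => dA ω ω' h h' (Prod.ext_iff.1 e).1
  have dB' : Det q (fun ω => (B ω, (rc D ((i : ℤ), (j : ℤ)) ω, D.T ω)))
      (rc D (fL v x l i j k)) := fun ω ω' h h' e => dB ω ω' h h' (Prod.ext_iff.1 e).1
  have b1 : CH (cond q G True) (fun ω => (nuS D n i j h₀ (D.Ψ i j) ω, Vc D n z l i j ω))
      (fun ω => (A ω, (rc D ((i : ℤ), (j : ℤ)) ω, D.T ω))) ≤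
      #(univ.filter fun c : Fin (n - 1) => k ≤ a (c + 1)) * ((cX z l : ℝ) * Real.log 2) +
        (2 * (C * z) + (2 * n + 2) * η * (2 ^ l * z)) := by
    refine (nuV_le (q := q) hO hn (by omega) (by omega) hQq hQ hh _).trans ?_
    have h5 := up_R hU hd hO.lam_ge hM hx hv h1 h2 h3 h4 hk le_rfl
      (fun ω => (A ω, (rc D ((i : ℤ), (j : ℤ)) ω, D.T ω)))
      (fun ω ω' _ _ e => (Prod.ext_iff.1 (Prod.ext_iff.1 e).2).2)
      (fun ω ω' _ _ e => (Prod.ext_iff.1 (Prod.ext_iff.1 e).2).1) dA'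
    rw [card_top hn (fun m => k ≤ a m) (by omega)] at h5
    have h6 := ev_up hO.isLaw (dgb D n (2 ^ (l - 1) * z) ((i : ℤ), (j : ℤ)))
      (fun ω => (A ω, (rc D ((i : ℤ), (j : ℤ)) ω, D.T ω))) G
      (F := #(univ.filter fun c : Fin (n - 1) => k ≤ a (c + 1)) *
        (((2 ^ (l - 1) * z : ℕ) : ℝ) * Real.log 2))
      (e := C * z + η * ((2 ^ (l - 1) * z : ℕ) : ℝ)) hη hη0 hG (by positivity) (by positivity)
      (by linarith)
    refine h6.trans (num_up ?_ hη0 U_le U_cX)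
    refine (Finset.card_filter_le _ _).trans ?_
    rw [Finset.card_univ, Fintype.card_fin]
    exact Nat.sub_le _ _
  have b2 := VB_ev hO hU hd hM hx hv h1 h2 h3 h4 G hη0 hη hC hG hk
    (fun ω => (B ω, (rc D ((i : ℤ), (j : ℤ)) ω, D.T ω)))
    (fun ω ω' _ _ e => (Prod.ext_iff.1 (Prod.ext_iff.1 e).2).2)
    (fun ω ω' _ _ e => (Prod.ext_iff.1 (Prod.ext_iff.1 e).2).1) dB'
  have b3 := Pool.L12.mi_symm hQ A B (fun ω => (rc D ((i : ℤ), (j : ℤ)) ω, D.T ω))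
  have b4 := card_add (fun c : Fin (n - 1) => a (c + 1)) k
  have b5 : ((#(univ.filter fun c : Fin (n - 1) => k ≤ a (c + 1)) : ℕ) : ℝ) +
      (#(univ.filter fun c : Fin (n - 1) => a (c + 1) < k) : ℕ) = ((n - 1 : ℕ) : ℝ) := by
    exact_mod_cast b4
  have b6 : ((n - 1 : ℕ) : ℝ) * ((cX z l : ℝ) * Real.log 2) =
      #(univ.filter fun c : Fin (n - 1) => k ≤ a (c + 1)) * ((cX z l : ℝ) * Real.log 2) +
      #(univ.filter fun c : Fin (n - 1) => a (c + 1) < k) * ((cX z l : ℝ) * Real.log 2) := by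
    rw [← b5]
    ring
  linarith

/-- **The height of the target given the left side.** -/
theorem nB_ev (hO : D.Ok2 n K J a₀ w₀ z M lam gam κ C₁ q) (hn : 1 ≤ n)
    (hU : UpF D n M lam gam Wd (2 ^ l) q C z η z)
    (hd : Dirs n lam gam W N v x a) (hM : M' + Wd + 1 ≤ M)
    (hx : ∀ k ≤ N, |x k| ≤ Wd) (hv : v ≤ Wd)
    (h1 : Wd * 2 ^ l ≤ i) (h2 : i + Wd * 2 ^ l ≤ M') (h3 : Wd * 2 ^ l ≤ j)
    (h4 : j + Wd * 2 ^ l ≤ M') (G : D.Ω → Prop) (hη0 : 0 ≤ η) (hη : η ≤ 1 / 2) (hC : 0 ≤ C)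
    (hG : 1 - η ≤ Pb q G) {k : ℕ} (hk : k ≤ N) (hak : k ≤ a n) {h₀ : ℕ}
    (hh : h₀ ≤ 2 ^ (l - 1) * z) {Γ : Type} (A B : D.Ω → Γ)
    (dA : Det q A (rc D (fR v x l i j k))) (dB : Det q B (rc D (fL v x l i j k))) {eI : ℝ}
    (hI : mi (cond q G True) A B (fun ω => (rc D ((i : ℤ), (j : ℤ)) ω, D.T ω)) ≤ eI)
    (hVC : ((n - 1 : ℕ) : ℝ) * ((cX z l : ℝ) * Real.log 2) - (6 * n + 4) * z ≤
      CH (cond q G True) (Vc D n z l i j) (fun ω => (rc D ((i : ℤ), (j : ℤ)) ω, D.T ω))) :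
    CH (cond q G True) (nuS D n i j h₀ (D.Ψ i j))
      (fun ω => (B ω, (Vc D n z l i j ω, (rc D ((i : ℤ), (j : ℤ)) ω, D.T ω)))) ≤
      2 * (2 * (C * z) + (2 * n + 2) * η * (2 ^ l * z)) + (6 * n + 4) * z + eI := by
  have hG0 : 0 < Pb q G := by linarith
  have hQ := (isLaw_ev hO.isLaw G hG0).nonneg
  have hQq : ∀ ω, 0 < cond q G True ω → 0 < q ω := fun ω h => (ev_pos hO.isLaw.nonneg G h).1
  have b0 := nu_pure hQ (nuS D n i j h₀ (D.Ψ i j)) (Vc D n z l i j) B A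
    (fun ω => (rc D ((i : ℤ), (j : ℤ)) ω, D.T ω))
  have dA' : Det q (fun ω => (A ω, (rc D ((i : ℤ), (j : ℤ)) ω, D.T ω)))
      (rc D (fR v x l i j k)) := fun ω ω' h h' e => dA ω ω' h h' (Prod.ext_iff.1 e).1
  have dB' : Det q (fun ω => (B ω, (rc D ((i : ℤ), (j : ℤ)) ω, D.T ω)))
      (rc D (fL v x l i j k)) := fun ω ω' h h' e => dB ω ω' h h' (Prod.ext_iff.1 e).1
  have b1 : CH (cond q G True) (fun ω => (nuS D n i j h₀ (D.Ψ i j) ω, Vc D n z l i j ω))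
      (fun ω => (B ω, (rc D ((i : ℤ), (j : ℤ)) ω, D.T ω))) ≤
      #(univ.filter fun c : Fin (n - 1) => a (c + 1) < k) * ((cX z l : ℝ) * Real.log 2) +
        (2 * (C * z) + (2 * n + 2) * η * (2 ^ l * z)) := by
    refine (nuV_le (q := q) hO hn (by omega) (by omega) hQq hQ hh _).trans ?_
    have h5 := up_L hU hd hO.lam_ge hM hx hv h1 h2 h3 h4 hk le_rfl
      (fun ω => (B ω, (rc D ((i : ℤ), (j : ℤ)) ω, D.T ω)))
      (fun ω ω' _ _ e => (Prod.ext_iff.1 (Prod.ext_iff.1 e).2).2)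
      (fun ω ω' _ _ e => (Prod.ext_iff.1 (Prod.ext_iff.1 e).2).1) dB'
    rw [card_top hn (fun m => a m < k) (by omega)] at h5
    have h6 := ev_up hO.isLaw (dgb D n (2 ^ (l - 1) * z) ((i : ℤ), (j : ℤ)))
      (fun ω => (B ω, (rc D ((i : ℤ), (j : ℤ)) ω, D.T ω))) G
      (F := #(univ.filter fun c : Fin (n - 1) => a (c + 1) < k) *
        (((2 ^ (l - 1) * z : ℕ) : ℝ) * Real.log 2))
      (e := C * z + η * ((2 ^ (l - 1) * z : ℕ) : ℝ)) hη hη0 hG (by positivity) (by positivity)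
      (by linarith)
    refine h6.trans (num_up ?_ hη0 U_le U_cX)
    refine (Finset.card_filter_le _ _).trans ?_
    rw [Finset.card_univ, Fintype.card_fin]
    exact Nat.sub_le _ _
  have b2 := VA_ev hO hU hd hM hx hv h1 h2 h3 h4 G hη0 hη hC hG hk
    (fun ω => (A ω, (rc D ((i : ℤ), (j : ℤ)) ω, D.T ω)))
    (fun ω ω' _ _ e => (Prod.ext_iff.1 (Prod.ext_iff.1 e).2).2)
    (fun ω ω' _ _ e => (Prod.ext_iff.1 (Prod.ext_iff.1 e).2).1) dA'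
  have b4 := card_add (fun c : Fin (n - 1) => a (c + 1)) k
  have b5 : ((#(univ.filter fun c : Fin (n - 1) => k ≤ a (c + 1)) : ℕ) : ℝ) +
      (#(univ.filter fun c : Fin (n - 1) => a (c + 1) < k) : ℕ) = ((n - 1 : ℕ) : ℝ) := by
    exact_mod_cast b4
  have b6 : ((n - 1 : ℕ) : ℝ) * ((cX z l : ℝ) * Real.log 2) =
      #(univ.filter fun c : Fin (n - 1) => k ≤ a (c + 1)) * ((cX z l : ℝ) * Real.log 2) +
      #(univ.filter fun c : Fin (n - 1) => a (c + 1) < k) * ((cX z l : ℝ) * Real.log 2) := by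
    rw [← b5]
    ring
  linarith

end cell

end Pool.GSD.Cls
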