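import Pool.Agent.H24.GSD.Abf
import Pool.Agent.H35.UP.UpA
import Pool.Agent.H88.TIE.Ic

/-!
# The base and the height of the target: full, and bounds at the cuts
-/

set_option autoImplicit false

namespace Pool.GSD.Cls

open Finset Real MvPolynomial
open Pool.Agent.H49.Ent Pool.Agent.H32.Dense Pool.STK Pool.STAT
open Pool.BFL (Pb)
open Pool.GSD.Row
open Pool.LIVE20 (mi)
open Pool.UP35 (dgb mu coa Sc)

section digits

variable {D : NDat2} {n i j : ℕ}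

theorem zt_sh (ω : D.Ω) (m : ℕ) : ztS D i j (D.Ψ i j) ω m = 2 ^ D.g i j m * D.sh i j ω m := rfl

theorem V_vd {z U : ℕ} {ω : D.Ω} {l : Fin (n - 1)}
    (h : |ztS D i j (D.Ψ i j) ω (l + 1)| ≤ 1) :
    (YpS D n z i j (U * z + z + 2) (D.Ψ i j) ω l : ℤ) =
      D.vd n i j (U * z) ω l + 2 ^ (U * z + z + 1) := by
  have h2z : (1 : ℝ) ≤ 2 ^ z := one_le_pow₀ (by norm_num)
  have h0 : (0 : ℝ) < 4 * 2 ^ z := by positivity
  have e1 : (2 : ℝ) ^ (U * z + z + 2) * Pool.MicA.up z (ztS D i j (D.Ψ i j) ω (l + 1)) =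
      2 ^ (U * z) * ztS D i j (D.Ψ i j) ω (l + 1) + 2 ^ (U * z + z + 1) := by
    unfold Pool.MicA.up
    have e2 : (2 : ℝ) ^ (U * z + z + 2) = 2 ^ (U * z) * (4 * 2 ^ z) := by
      rw [pow_add, pow_add]
      ring
    have e3 : (2 : ℝ) ^ (U * z + z + 1) = 2 ^ (U * z) * (2 * 2 ^ z) := by
      rw [pow_add, pow_add]
      ring
    rw [e2, e3]
    field_simp
  have hnn : 0 ≤ (2 : ℝ) ^ (U * z + z + 2) * Pool.MicA.up z (ztS D i j (D.Ψ i j) ω (l + 1)) :=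
    mul_nonneg (by positivity) (up_bd h).1
  unfold YpS
  rw [Int.natCast_floor_eq_floor hnn, e1]
  have e4 : (2 : ℝ) ^ (U * z) * ztS D i j (D.Ψ i j) ω (l + 1) =
      2 ^ (D.g i j (l + 1) + U * z) * D.sh i j ω (l + 1) := by
    rw [zt_sh, pow_add]
    ring
  unfold NDat2.vd
  rw [e4]
  have e5 : (2 : ℝ) ^ (U * z + z + 1) = ((2 ^ (U * z + z + 1) : ℤ) : ℝ) := by push_cast; rfl
  rw [e5, Int.floor_add_intCast]

theorem nu_nd {h₀ r : ℕ} (h : h₀ ≤ r) (ω : D.Ω) :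
    nuS D n i j h₀ (D.Ψ i j) ω = D.nd n i j r ω / 2 ^ (r - h₀) := by
  have e1 := Pool.TIE.dg_coarse h (ztS D i j (D.Ψ i j) ω n)
  unfold Pool.TIE.dg at e1
  unfold nuS NDat2.nd
  rw [e1, zt_sh]
  congr 2
  rw [pow_add]
  ring

/-- Digits of vectors. -/
theorem CH_vec_le {Ω T : Type} [Fintype Ω] {p : Ω → ℝ} (hp : IsLaw p) {m X : ℕ}
    (V : Ω → Fin m → ℤ) (Y : Ω → T) (hV : ∀ ω, 0 < p ω → ∀ c, 0 ≤ V ω c ∧ V ω c < 2 ^ X) :
    CH p V Y ≤ m * (X * Real.log 2) := by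
  classical
  have h1 := CH_le_card hp.nonneg hp.sum_one V Y
    (fun _ => Fintype.piFinset fun _ : Fin m => Finset.Ico (0 : ℤ) (2 ^ X))
    (fun ω hω => by
      rw [Fintype.mem_piFinset]
      intro c
      rw [Finset.mem_Ico]
      exact hV ω hω c)
  refine h1.trans (le_of_eq ?_)
  unfold Ex
  rw [← Finset.sum_mul, hp.sum_one, one_mul, Fintype.card_piFinset, Finset.prod_const,
    Finset.card_univ, Fintype.card_fin, Int.card_Ico]
  have h3 : ((2 : ℤ) ^ X - 0).toNat = 2 ^ X := by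
    rw [sub_zero]
    have h4 : ((2 : ℤ) ^ X) = ((2 ^ X : ℕ) : ℤ) := by push_cast; rfl
    rw [h4, Int.toNat_natCast]
  rw [h3]
  push_cast
  rw [Real.log_pow, Real.log_pow]

end digits

/-- The upper bounds, for the cell. -/
def UpF (D : NDat2) (n M : ℕ) (lam gam : ℕ → ℝ) (Nd Nr : ℕ) (q : D.Ω → ℝ) (C zr η : ℝ)
    (z : ℕ) : Prop :=
  ∀ (b d : ℤ × ℤ) (r m X : ℕ) (Y : Type) (y : D.Ω → Y), m ≤ n → r ≤ Nr → |d.1| ≤ Nd →
    |d.2| ≤ Nd → (∀ k ≤ r, 0 ≤ (b + k • d).1 ∧ (b + k • d).1 + Nd + 1 ≤ M ∧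
      0 ≤ (b + k • d).2 ∧ (b + k • d).2 ≤ M) →
    (∀ l, 1 ≤ l → l ≤ m → 1 ≤ |mu lam gam d l|) → (X : ℝ) ≤ 1 * r * z →
    Det q y (Sc D (b + r • d)) → Det q y (Sc D b) → Det q y D.T →
    CH q (dgb D m X b) y ≤ #(coa m lam gam d) * (X * Real.log 2) + C * zr + η * X

section up

variable {D : NDat2} {n K J a₀ w₀ z M : ℕ} {lam gam : ℕ → ℝ} {κ C₁ : ℝ} {q : D.Ω → ℝ}
  {W : ℝ} {N v Wd l u i j M' : ℕ} {x : ℕ → ℤ} {a : ℕ → ℕ} {C η : ℝ}

theorem mu_R (m k : ℕ) : mu lam gam (dk x v k) m = gam m * v - lam m * x k := by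
  unfold mu dk
  push_cast
  ring

theorem mu_L (m k : ℕ) : mu lam gam (-dk x v k) m = -(gam m * v - lam m * x k) := by
  unfold mu dk
  push_cast [Prod.fst_neg, Prod.snd_neg]
  ring

theorem card_R (hd : Dirs n lam gam W N v x a) (hlam : ∀ m, 1 ≤ lam m) {m' : ℕ} (hm : m' ≤ n)
    {k : ℕ} (hk : k ≤ N) : #(coa m' lam gam (dk x v k)) =
      #(univ.filter fun c : Fin m' => k ≤ a (c + 1)) := by
  congr 1
  ext c
  unfold coa
  rw [mem_filter, mem_filter, mu_R]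
  have c1 := c.2
  constructor
  · rintro ⟨_, h⟩
    refine ⟨mem_univ _, ?_⟩
    by_contra h2
    have := hd.p1 k hk (c + 1) (by omega) (by omega) (not_le.1 h2)
    linarith [hlam (c + 1)]
  · rintro ⟨_, h⟩
    refine ⟨mem_univ _, ?_⟩
    have := hd.p2 k hk (c + 1) (by omega) (by omega) h
    linarith [hlam (c + 1)]

theorem card_L (hd : Dirs n lam gam W N v x a) (hlam : ∀ m, 1 ≤ lam m) {m' : ℕ} (hm : m' ≤ n)
    {k : ℕ} (hk : k ≤ N) : #(coa m' lam gam (-dk x v k)) =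
      #(univ.filter fun c : Fin m' => a (c + 1) < k) := by
  congr 1
  ext c
  unfold coa
  rw [mem_filter, mem_filter, mu_L]
  have c1 := c.2
  constructor
  · rintro ⟨_, h⟩
    refine ⟨mem_univ _, ?_⟩
    by_contra h2
    have := hd.p2 k hk (c + 1) (by omega) (by omega) (not_lt.1 h2)
    linarith [hlam (c + 1)]
  · rintro ⟨_, h⟩
    refine ⟨mem_univ _, ?_⟩
    have := hd.p1 k hk (c + 1) (by omega) (by omega) h
    linarith [hlam (c + 1)]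

theorem mu_big (hd : Dirs n lam gam W N v x a) (hlam : ∀ m, 1 ≤ lam m) {k : ℕ} (hk : k ≤ N)
    {m : ℕ} (m1 : 1 ≤ m) (m2 : m ≤ n) : 1 ≤ |gam m * v - lam m * x k| := by
  rcases Nat.lt_or_ge (a m) k with h | h
  · have := hd.p1 k hk m m1 m2 h
    rw [abs_of_nonneg (by linarith [hlam m])]
    linarith [hlam m]
  · have := hd.p2 k hk m m1 m2 h
    rw [abs_of_neg (by linarith [hlam m])]
    linarith [hlam m]

/-- The digits of the base given the right side of the cut `k`, and of the target too. -/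
theorem up_R (hU : UpF D n M lam gam Wd (2 ^ l) q C z η z)
    (hd : Dirs n lam gam W N v x a) (hlam : ∀ m, 1 ≤ lam m) (hM : M' + Wd + 1 ≤ M)
    (hx : ∀ k ≤ N, |x k| ≤ Wd) (hv : v ≤ Wd)
    (h1 : Wd * 2 ^ l ≤ i) (h2 : i + Wd * 2 ^ l ≤ M') (h3 : Wd * 2 ^ l ≤ j)
    (h4 : j + Wd * 2 ^ l ≤ M') {k : ℕ} (hk : k ≤ N) {m' : ℕ} (hm : m' ≤ n) {Y : Type}
    (y : D.Ω → Y) (dT : Det q y D.T) (db : Det q y (rc D ((i : ℤ), (j : ℤ))))
    (df : Det q y (rc D (fR v x l i j k))) :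
    CH q (dgb D m' (2 ^ (l - 1) * z) ((i : ℤ), (j : ℤ))) y ≤
      #(univ.filter fun c : Fin m' => k ≤ a (c + 1)) * (((2 ^ (l - 1) * z : ℕ) : ℝ) *
        Real.log 2) + C * z + η * ((2 ^ (l - 1) * z : ℕ) : ℝ) := by
  rw [← card_R hd hlam hm hk]
  refine hU ((i : ℤ), (j : ℤ)) (dk x v k) (2 ^ l) m' _ Y y hm le_rfl ?_ ?_ ?_ ?_ ?_ ?_ ?_ dT
  · unfold dk
    simp only
    rw [abs_neg]
    exact hx k hk
  · unfold dk
    simp only
    rw [abs_of_nonneg (Int.natCast_nonneg v)]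
    exact_mod_cast hv
  · intro t ht
    obtain ⟨⟨b1, b2, b3, b4⟩, _⟩ := range_pl hx hv h1 h2 h3 h4 hk ht
    have : ((M' + Wd + 1 : ℕ) : ℤ) ≤ M := by exact_mod_cast hM
    push_cast at this
    exact ⟨b1, by linarith, b3, by linarith [Int.natCast_nonneg Wd]⟩
  · intro m m1 m2
    rw [mu_R]
    exact mu_big hd hlam hk m1 (m2.trans hm)
  · have : (2 : ℝ) ^ (l - 1) ≤ 2 ^ l := pow_le_pow_right₀ (by norm_num) (Nat.sub_le _ _)
    push_cast
    rw [one_mul]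
    exact mul_le_mul_of_nonneg_right this (Nat.cast_nonneg _)
  · intro ω ω' c c' e
    exact (Prod.ext_iff.1 (df ω ω' c c' e)).1
  · intro ω ω' c c' e
    exact (Prod.ext_iff.1 (db ω ω' c c' e)).1

theorem up_L (hU : UpF D n M lam gam Wd (2 ^ l) q C z η z)
    (hd : Dirs n lam gam W N v x a) (hlam : ∀ m, 1 ≤ lam m) (hM : M' + Wd + 1 ≤ M)
    (hx : ∀ k ≤ N, |x k| ≤ Wd) (hv : v ≤ Wd)
    (h1 : Wd * 2 ^ l ≤ i) (h2 : i + Wd * 2 ^ l ≤ M') (h3 : Wd * 2 ^ l ≤ j)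
    (h4 : j + Wd * 2 ^ l ≤ M') {k : ℕ} (hk : k ≤ N) {m' : ℕ} (hm : m' ≤ n) {Y : Type}
    (y : D.Ω → Y) (dT : Det q y D.T) (db : Det q y (rc D ((i : ℤ), (j : ℤ))))
    (df : Det q y (rc D (fL v x l i j k))) :
    CH q (dgb D m' (2 ^ (l - 1) * z) ((i : ℤ), (j : ℤ))) y ≤
      #(univ.filter fun c : Fin m' => a (c + 1) < k) * (((2 ^ (l - 1) * z : ℕ) : ℝ) *
        Real.log 2) + C * z + η * ((2 ^ (l - 1) * z : ℕ) : ℝ) := by
  rw [← card_L hd hlam hm hk]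
  refine hU ((i : ℤ), (j : ℤ)) (-dk x v k) (2 ^ l) m' _ Y y hm le_rfl ?_ ?_ ?_ ?_ ?_ ?_ ?_ dT
  · unfold dk
    simp only [Prod.fst_neg, neg_neg]
    exact hx k hk
  · unfold dk
    simp only [Prod.snd_neg]
    rw [abs_neg, abs_of_nonneg (Int.natCast_nonneg v)]
    exact_mod_cast hv
  · intro t ht
    obtain ⟨_, b1, b2, b3, b4⟩ := range_pl hx hv h1 h2 h3 h4 hk ht
    have : ((M' + Wd + 1 : ℕ) : ℤ) ≤ M := by exact_mod_cast hM
    push_cast at this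
    rw [smul_neg, ← sub_eq_add_neg]
    exact ⟨b1, by linarith, b3, by linarith [Int.natCast_nonneg Wd]⟩
  · intro m m1 m2
    rw [mu_L, abs_neg]
    exact mu_big hd hlam hk m1 (m2.trans hm)
  · have : (2 : ℝ) ^ (l - 1) ≤ 2 ^ l := pow_le_pow_right₀ (by norm_num) (Nat.sub_le _ _)
    push_cast
    rw [one_mul]
    exact mul_le_mul_of_nonneg_right this (Nat.cast_nonneg _)
  · intro ω ω' c c' e
    rw [smul_neg, ← sub_eq_add_neg]
    exact (Prod.ext_iff.1 (df ω ω' c c' e)).1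
  · intro ω ω' c c' e
    exact (Prod.ext_iff.1 (db ω ω' c c' e)).1

end up

end Pool.GSD.Cls
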